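import Mathlib

set_option autoImplicit false
open Filter Topology MeasureTheory Set

namespace Pool.Agent.H3.HalfLap

/-- The weight `(γ + q r)⁺ / r²` on a ray. -/
noncomputable def wt (γ q : ℝ) (r : ℝ) : ℝ := max (γ + q * r) 0 / r ^ 2

lemma wt_nonneg (γ q r : ℝ) : 0 ≤ wt γ q r := by
  unfold wt; positivity

lemma wt_anti {γ q : ℝ} (hγ : 0 < γ) {r s : ℝ} (hr : 0 < r) (hrs : r ≤ s) :
    wt γ q s ≤ wt γ q r := by
  have hs : 0 < s := lt_of_lt_of_le hr hrs
  unfold wt
  rcases le_or_gt (γ + q * s) 0 with h | h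
  · rw [max_eq_right h]; simp only [zero_div]; positivity
  · rw [max_eq_left h.le]
    have h2 : (γ + q * s) / s ^ 2 ≤ (γ + q * r) / r ^ 2 := by
      rw [div_le_div_iff₀ (by positivity) (by positivity)]
      -- (γ + q s) r² ≤ (γ + q r) s²
      have e1 : (γ + q * r) * s ^ 2 - (γ + q * s) * r ^ 2 = (s - r) * (γ * (s + r) + q * r * s) := by
        ring
      have e2 : 0 ≤ γ * (s + r) + q * r * s := by nlinarith [mul_pos hr h, mul_pos hγ hs]
      nlinarith [mul_nonneg (sub_nonneg.2 hrs) e2]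
    refine h2.trans ?_
    gcongr
    exact le_max_left _ _

lemma wt_cont {γ q : ℝ} : ContinuousOn (wt γ q) (Ioi 0) := by
  unfold wt
  apply ContinuousOn.div
  · fun_prop
  · fun_prop
  · intro x hx; have : (0:ℝ) < x := hx; positivity

lemma wt_ii {γ q : ℝ} {a b : ℝ} (ha : 0 < a) (hb : 0 < b) :
    IntervalIntegrable (wt γ q) volume a b := by
  apply ContinuousOn.intervalIntegrable
  apply wt_cont.mono
  intro x hx
  rw [mem_uIcc] at hx
  show (0:ℝ) < x
  rcases hx with h | h <;> linarith [h.1]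

/-- tangent line inequality for `κ(t) = ∫_t^R wt`. -/
lemma kap_tangent {γ q R : ℝ} (hγ : 0 < γ) {s t : ℝ} (hs : 0 < s) (ht : 0 < t) (hR : 0 < R) :
    (∫ r in s..R, wt γ q r) + wt γ q s * (s - t) ≤ ∫ r in t..R, wt γ q r := by
  have h1 : (∫ r in t..R, wt γ q r) - ∫ r in s..R, wt γ q r = ∫ r in t..s, wt γ q r := by
    rw [← intervalIntegral.integral_add_adjacent_intervals (wt_ii ht hs) (wt_ii hs hR)]
    ring
  rcases le_total t s with h | h
  · have h2 : ∫ r in t..s, wt γ q s ≤ ∫ r in t..s, wt γ q r := by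
      apply intervalIntegral.integral_mono_on h
      · simp
      · exact wt_ii ht hs
      · intro x hx
        exact wt_anti hγ (lt_of_lt_of_le ht hx.1) hx.2
    simp only [intervalIntegral.integral_const, smul_eq_mul] at h2
    linarith [mul_comm (wt γ q s) (s - t)]
  · have h2 : ∫ r in s..t, wt γ q r ≤ ∫ r in s..t, wt γ q s := by
      apply intervalIntegral.integral_mono_on h
      · exact wt_ii hs ht
      · simp
      · intro x hx
        exact wt_anti hγ hs hx.1
    rw [intervalIntegral.integral_symm s t] at h1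
    simp only [intervalIntegral.integral_const, smul_eq_mul] at h2
    linarith [mul_comm (wt γ q s) (t - s)]

lemma kap_jensen {ι : Type*} [Fintype ι] (θ : ι → ℝ) (hθ : ∀ i, 0 < θ i) (hθ1 : ∑ i, θ i = 1)
    {γ q R : ℝ} (hγ : 0 < γ) (hR : 0 < R) (t : ι → ℝ) (ht : ∀ i, 0 < t i)
    (ht0 : 0 < ∑ i, θ i * t i) :
    ∫ r in (∑ i, θ i * t i)..R, wt γ q r ≤ ∑ i, θ i * ∫ r in (t i)..R, wt γ q r := by
  obtain ⟨s, hs⟩ : ∃ s, s = ∑ i, θ i * t i := ⟨_, rfl⟩
  rw [← hs] at ht0 ⊢
  have h1 : ∑ i, θ i * ((∫ r in s..R, wt γ q r) + wt γ q s * (s - t i)) ≤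
      ∑ i, θ i * ∫ r in (t i)..R, wt γ q r := by
    apply Finset.sum_le_sum
    intro i _
    exact mul_le_mul_of_nonneg_left (kap_tangent hγ ht0 (ht i) hR) (hθ i).le
  refine le_trans (le_of_eq ?_) h1
  have h2 : ∑ i, θ i * ((∫ r in s..R, wt γ q r) + wt γ q s * (s - t i)) =
      (∑ i, θ i) * ((∫ r in s..R, wt γ q r) + wt γ q s * s) - wt γ q s * ∑ i, θ i * t i := by
    rw [Finset.sum_mul, Finset.mul_sum Finset.univ (fun i => θ i * t i) (wt γ q s),
      ← Finset.sum_sub_distrib]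
    apply Finset.sum_congr rfl
    intro i _; ring
  rw [h2, hθ1, ← hs]; ring

/-- ENNReal version of `κ`. -/
noncomputable def kap (γ q R t : ℝ) : ENNReal :=
  ∫⁻ r in Ioo 0 R, (Ici t).indicator (fun r => ENNReal.ofReal (wt γ q r)) r

lemma kap_eq {γ q R t : ℝ} (ht : 0 < t) (htR : t ≤ R) :
    kap γ q R t = ENNReal.ofReal (∫ r in t..R, wt γ q r) := by
  unfold kap
  rw [setLIntegral_indicator measurableSet_Ici, intervalIntegral.integral_of_le htR,
    ofReal_integral_eq_lintegral_ofReal]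
  · apply setLIntegral_congr
    have : Ici t ∩ Ioo 0 R = Ico t R := by
      ext x; constructor
      · rintro ⟨h1, h2, h3⟩; exact ⟨h1, h3⟩
      · rintro ⟨h1, h2⟩; exact ⟨h1, lt_of_lt_of_le ht h1, h2⟩
    rw [this]
    exact Ico_ae_eq_Ioc
  · have := (wt_ii (γ := γ) (q := q) ht (lt_of_lt_of_le ht htR)).1
    exact this
  · filter_upwards with x using wt_nonneg _ _ _

lemma kap_jensen' {ι : Type*} [Fintype ι] (θ : ι → ℝ) (hθ : ∀ i, 0 < θ i) (hθ1 : ∑ i, θ i = 1)
    {γ q R : ℝ} (hγ : 0 < γ) (hR : 0 < R) (t : ι → ℝ) (ht : ∀ i, 0 < t i) (htR : ∀ i, t i ≤ R) :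
    kap γ q R (∑ i, θ i * t i) ≤ ∑ i, ENNReal.ofReal (θ i) * kap γ q R (t i) := by
  have hne : Nonempty ι := by
    by_contra h
    rw [not_nonempty_iff] at h
    simp at hθ1
  have ht0 : 0 < ∑ i, θ i * t i :=
    Finset.sum_pos (fun i _ => mul_pos (hθ i) (ht i)) Finset.univ_nonempty
  have htR0 : ∑ i, θ i * t i ≤ R := by
    calc ∑ i, θ i * t i ≤ ∑ i, θ i * R :=
          Finset.sum_le_sum (fun i _ => mul_le_mul_of_nonneg_left (htR i) (hθ i).le)
      _ = R := by rw [← Finset.sum_mul, hθ1, one_mul]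
  rw [kap_eq ht0 htR0]
  have h1 : ∑ i, ENNReal.ofReal (θ i) * kap γ q R (t i) =
      ENNReal.ofReal (∑ i, θ i * ∫ r in (t i)..R, wt γ q r) := by
    rw [ENNReal.ofReal_sum_of_nonneg]
    · apply Finset.sum_congr rfl
      intro i _
      rw [kap_eq (ht i) (htR i), ENNReal.ofReal_mul (hθ i).le]
    · intro i _
      apply mul_nonneg (hθ i).le
      apply intervalIntegral.integral_nonneg (htR i)
      intro u _; exact wt_nonneg _ _ _
  rw [h1]
  exact ENNReal.ofReal_le_ofReal (kap_jensen θ hθ hθ1 hγ hR t ht ht0)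

/-- The level set (on the ray) of `f` over `τ` times the affine majorant. -/
def lev (f : ℝ → ℝ) (γ q R τ : ℝ) : Set ℝ := {r | r ∈ Icc 0 R ∧ τ * max (γ + q * r) 0 < f r}

/-- The last time the level `τ` is exceeded. -/
noncomputable def tt (f : ℝ → ℝ) (γ q R τ : ℝ) : ℝ := sSup (lev f γ q R τ)

lemma lev_bdd (f : ℝ → ℝ) (γ q R τ : ℝ) : BddAbove (lev f γ q R τ) :=
  ⟨R, fun _ hx => hx.1.2⟩

lemma tt_nonneg (f : ℝ → ℝ) (γ q R τ : ℝ) : 0 ≤ tt f γ q R τ :=
  Real.sSup_nonneg fun _ hx => hx.1.1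

lemma tt_le (f : ℝ → ℝ) (γ q : ℝ) {R : ℝ} (hR : 0 < R) (τ : ℝ) : tt f γ q R τ ≤ R :=
  Real.sSup_le (fun _ hx => hx.1.2) hR.le

lemma tt_anti (f : ℝ → ℝ) (γ q R : ℝ) : Antitone (tt f γ q R) := by
  intro a b hab
  unfold tt
  apply Real.sSup_le _ (tt_nonneg f γ q R a)
  intro x hx
  apply le_csSup (lev_bdd _ _ _ _ _)
  refine ⟨hx.1, lt_of_le_of_lt ?_ hx.2⟩
  exact mul_le_mul_of_nonneg_right hab (le_max_right _ _)

lemma tt_pos {f : ℝ → ℝ} {γ q R τ : ℝ} (hγ : 0 < γ) (hR : 0 < R) (hfc : Continuous f)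
    (hfγ : f 0 = γ) (hτ1 : τ < 1) : 0 < tt f γ q R τ := by
  have h1 : ∀ᶠ r in 𝓝 (0:ℝ), τ * max (γ + q * r) 0 < f r := by
    apply Filter.Tendsto.eventually_lt (f := fun r => τ * max (γ + q * r) 0) (g := f)
      (y := τ * max (γ + q * 0) 0) (z := f 0)
    · have : Continuous fun r => τ * max (γ + q * r) 0 := by fun_prop
      exact this.tendsto 0
    · exact hfc.tendsto 0
    · rw [hfγ, mul_zero, add_zero, max_eq_left hγ.le]
      nlinarith
  rw [Metric.eventually_nhds_iff] at h1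
  obtain ⟨ε, hε, h⟩ := h1
  have hm : 0 < min (ε / 2) R := lt_min (by linarith) hR
  refine lt_of_lt_of_le hm ?_
  apply le_csSup (lev_bdd _ _ _ _ _)
  refine ⟨⟨hm.le, min_le_right _ _⟩, h ?_⟩
  rw [Real.dist_eq, sub_zero, abs_of_pos hm]
  exact lt_of_le_of_lt (min_le_left _ _) (by linarith)

lemma tt_le_imp {f : ℝ → ℝ} {γ q R τ r : ℝ} (hfc : Continuous f)
    (hr : 0 < r) (hrR : r < R) (h : tt f γ q R τ ≤ r) : f r ≤ τ * max (γ + q * r) 0 := by
  by_contra hcon
  push Not at hcon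
  have h1 : ∀ᶠ x in 𝓝 r, τ * max (γ + q * x) 0 < f x := by
    apply Filter.Tendsto.eventually_lt (f := fun x => τ * max (γ + q * x) 0) (g := f)
      (y := τ * max (γ + q * r) 0) (z := f r)
    · have : Continuous fun r => τ * max (γ + q * r) 0 := by fun_prop
      exact this.tendsto r
    · exact hfc.tendsto r
    · exact hcon
  rw [Metric.eventually_nhds_iff] at h1
  obtain ⟨ε, hε, h2⟩ := h1
  have hm : 0 < min (ε / 2) (R - r) := lt_min (by linarith) (by linarith)
  have h3 : r + min (ε / 2) (R - r) ≤ tt f γ q R τ := by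
    apply le_csSup (lev_bdd _ _ _ _ _)
    refine ⟨⟨by linarith, ?_⟩, h2 ?_⟩
    · linarith [min_le_right (ε / 2) (R - r)]
    · rw [Real.dist_eq, add_sub_cancel_left, abs_of_pos hm]
      exact lt_of_le_of_lt (min_le_left _ _) (by linarith)
  linarith

/-- lower bound for the defect of `f`. -/
lemma lower_defect {f : ℝ → ℝ} {γ q R : ℝ} (hfc : Continuous f) :
    ∫⁻ τ in Ioo (0:ℝ) 1, kap γ q R (tt f γ q R τ) ≤
      ∫⁻ r in Ioo 0 R, ENNReal.ofReal ((max (γ + q * r) 0 - f r) / r ^ 2) := by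
  unfold kap
  rw [lintegral_lintegral_swap]
  · apply setLIntegral_mono' measurableSet_Ioo
    intro r hr
    have h1 : ∀ τ, (Ici (tt f γ q R τ)).indicator (fun r => ENNReal.ofReal (wt γ q r)) r =
        ({τ | tt f γ q R τ ≤ r}).indicator (fun _ => ENNReal.ofReal (wt γ q r)) τ := by
      intro τ
      by_cases h : tt f γ q R τ ≤ r
      · rw [indicator_of_mem (show r ∈ Ici (tt f γ q R τ) from h),
          indicator_of_mem (show τ ∈ {τ | tt f γ q R τ ≤ r} from h)]
      · rw [indicator_of_notMem (show r ∉ Ici (tt f γ q R τ) from h),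
          indicator_of_notMem (show τ ∉ {τ | tt f γ q R τ ≤ r} from h)]
    simp_rw [h1]
    have hms : MeasurableSet {τ | tt f γ q R τ ≤ r} :=
      measurableSet_le (tt_anti f γ q R).measurable measurable_const
    rw [lintegral_indicator_const hms, Measure.restrict_apply hms]
    rcases (le_max_right (γ + q * r) 0).eq_or_lt with h0 | h0
    · have : wt γ q r = 0 := by unfold wt; rw [← h0]; simp
      rw [this]; simp
    · have h2 : {τ | tt f γ q R τ ≤ r} ∩ Ioo 0 1 ⊆ Ico (f r / max (γ + q * r) 0) 1 := by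
        rintro τ ⟨h3, h4⟩
        have h5 := tt_le_imp hfc hr.1 hr.2 h3
        refine ⟨?_, h4.2⟩
        rw [div_le_iff₀ h0]
        exact h5
      calc ENNReal.ofReal (wt γ q r) * volume ({τ | tt f γ q R τ ≤ r} ∩ Ioo 0 1)
          ≤ ENNReal.ofReal (wt γ q r) * volume (Ico (f r / max (γ + q * r) 0) 1) := by
            gcongr
        _ = ENNReal.ofReal (wt γ q r) * ENNReal.ofReal (1 - f r / max (γ + q * r) 0) := by
            rw [Real.volume_Ico]
        _ = ENNReal.ofReal (wt γ q r * (1 - f r / max (γ + q * r) 0)) := by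
            rw [ENNReal.ofReal_mul (wt_nonneg _ _ _)]
        _ = ENNReal.ofReal ((max (γ + q * r) 0 - f r) / r ^ 2) := by
            congr 1
            unfold wt
            have := hr.1
            field_simp
  · apply Measurable.aemeasurable
    have hm : MeasurableSet {p : ℝ × ℝ | tt f γ q R p.1 ≤ p.2} :=
      measurableSet_le ((tt_anti f γ q R).measurable.comp measurable_fst) measurable_snd
    have : (Function.uncurry fun τ r => (Ici (tt f γ q R τ)).indicator
        (fun r => ENNReal.ofReal (wt γ q r)) r) =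
        {p : ℝ × ℝ | tt f γ q R p.1 ≤ p.2}.indicator (fun p => ENNReal.ofReal (wt γ q p.2)) := by
      ext ⟨τ, r⟩
      simp only [Function.uncurry_apply_pair]
      by_cases h : tt f γ q R τ ≤ r
      · rw [indicator_of_mem (show r ∈ Ici (tt f γ q R τ) from h),
          indicator_of_mem (show (τ, r) ∈ {p : ℝ × ℝ | tt f γ q R p.1 ≤ p.2} from h)]
      · rw [indicator_of_notMem (show r ∉ Ici (tt f γ q R τ) from h),
          indicator_of_notMem (show (τ, r) ∉ {p : ℝ × ℝ | tt f γ q R p.1 ≤ p.2} from h)]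
    rw [this]
    apply Measurable.indicator _ hm
    unfold wt
    fun_prop

/-- upper bound for the defect of `g`. -/
lemma upper_defect {ι : Type*} [Fintype ι] (θ : ι → ℝ) (hθ : ∀ i, 0 < θ i)
    (hθ1 : ∑ i, θ i = 1) {γ q R : ℝ} (hγ : 0 < γ) (hR : 0 < R)
    (f : ι → ℝ → ℝ)
    (hfγ : ∀ i, f i 0 = γ)
    (hfl : ∀ i r, 0 ≤ r → f i r ≤ max (γ + q * r) 0)
    (g : ℝ → ℝ) (hg0 : ∀ r, 0 ≤ g r)
    (hg : ∀ ρ : ι → ℝ, (∀ i, 0 ≤ ρ i) → (∀ i, 0 < f i (ρ i)) → ∀ s : ℝ, 0 ≤ s → s ≤ 1 →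
      (1 - s) * γ + s * ∑ i, θ i * f i (ρ i) ≤ g (s * ∑ i, θ i * ρ i)) :
    ∫⁻ r in Ioo 0 R, ENNReal.ofReal ((max (γ + q * r) 0 - g r) / r ^ 2) ≤
      ∫⁻ τ in Ioo (0:ℝ) 1, kap γ q R (∑ i, θ i * tt (f i) γ q R τ) := by
  have hne : Nonempty ι := by
    by_contra h
    rw [not_nonempty_iff] at h
    simp at hθ1
  have hanti : Antitone (fun τ => ∑ i, θ i * tt (f i) γ q R τ) := by
    intro a b hab
    apply Finset.sum_le_sum
    intro i _
    exact mul_le_mul_of_nonneg_left (tt_anti _ _ _ _ hab) (hθ i).le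
  -- key: if `r < tbar τ` then `g r ≥ τ * l r`
  have key : ∀ τ ∈ Ioo (0:ℝ) 1, ∀ r : ℝ, 0 < r → r < ∑ i, θ i * tt (f i) γ q R τ →
      τ * max (γ + q * r) 0 ≤ g r := by
    intro τ hτ r hr hrt
    set η := (∑ i, θ i * tt (f i) γ q R τ) - r with hη
    have hηpos : 0 < η := by rw [hη]; linarith
    have h1 : ∀ i, ∃ ρ, ρ ∈ lev (f i) γ q R τ ∧ tt (f i) γ q R τ - η < ρ := by
      intro i
      have hnel : (lev (f i) γ q R τ).Nonempty := by
        refine ⟨0, ⟨le_refl _, hR.le⟩, ?_⟩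
        rw [hfγ, mul_zero, add_zero, max_eq_left hγ.le]
        nlinarith [hτ.2]
      obtain ⟨ρ, hρ, h⟩ := exists_lt_of_lt_csSup hnel
        (show tt (f i) γ q R τ - η < sSup (lev (f i) γ q R τ) by
          have : tt (f i) γ q R τ = sSup (lev (f i) γ q R τ) := rfl
          linarith)
      exact ⟨ρ, hρ, h⟩
    choose ρ hρ hρ2 using h1
    have hρ0 : ∀ i, 0 ≤ ρ i := fun i => (hρ i).1.1
    have hfpos : ∀ i, 0 < f i (ρ i) := fun i =>
      lt_of_le_of_lt (mul_nonneg hτ.1.le (le_max_right _ _)) (hρ i).2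
    have hlpos : ∀ i, 0 < γ + q * ρ i := by
      intro i
      have := lt_of_lt_of_le (hfpos i) (hfl i (ρ i) (hρ0 i))
      rcases lt_max_iff.1 this with h | h
      · exact h
      · exact absurd h (lt_irrefl _)
    have hsum : r < ∑ i, θ i * ρ i := by
      have : ∑ i, θ i * (tt (f i) γ q R τ - η) < ∑ i, θ i * ρ i := by
        apply Finset.sum_lt_sum_of_nonempty Finset.univ_nonempty
        intro i _
        exact mul_lt_mul_of_pos_left (hρ2 i) (hθ i)
      have h2 : ∑ i, θ i * (tt (f i) γ q R τ - η) = (∑ i, θ i * tt (f i) γ q R τ) - η := by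
        simp_rw [mul_sub]
        rw [Finset.sum_sub_distrib, ← Finset.sum_mul, hθ1, one_mul]
      rw [h2, hη] at this
      linarith
    set S := ∑ i, θ i * ρ i with hS
    have hSpos : 0 < S := lt_trans hr hsum
    have hs0 : 0 ≤ r / S := by positivity
    have hs1 : r / S ≤ 1 := by rw [div_le_one hSpos]; exact hsum.le
    have h3 := hg ρ hρ0 hfpos (r / S) hs0 hs1
    have h4 : r / S * ∑ i, θ i * ρ i = r := by
      rw [← hS]; field_simp
    rw [h4] at h3
    refine le_trans ?_ h3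
    have h5 : τ * (γ + q * S) ≤ ∑ i, θ i * f i (ρ i) := by
      have : τ * (γ + q * S) = ∑ i, θ i * (τ * (γ + q * ρ i)) := by
        have e1 : ∀ i, θ i * (τ * (γ + q * ρ i)) = τ * γ * θ i + τ * q * (θ i * ρ i) := by
          intro i; ring
        simp_rw [e1]
        rw [Finset.sum_add_distrib, ← Finset.mul_sum, ← Finset.mul_sum, hθ1, ← hS]
        ring
      rw [this]
      apply Finset.sum_le_sum
      intro i _
      apply mul_le_mul_of_nonneg_left _ (hθ i).le
      have := (hρ i).2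
      rw [max_eq_left (hlpos i).le] at this
      exact this.le
    have hlS : 0 < γ + q * S := by
      have : γ + q * S = ∑ i, θ i * (γ + q * ρ i) := by
        have e1 : ∀ i, θ i * (γ + q * ρ i) = γ * θ i + q * (θ i * ρ i) := by
          intro i; ring
        simp_rw [e1]
        rw [Finset.sum_add_distrib, ← Finset.mul_sum, ← Finset.mul_sum, hθ1, ← hS]
        ring
      rw [this]
      exact Finset.sum_pos (fun i _ => mul_pos (hθ i) (hlpos i)) Finset.univ_nonempty
    have hlr : γ + q * r = (1 - r / S) * γ + r / S * (γ + q * S) := by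
      field_simp; ring
    have hlr0 : 0 ≤ γ + q * r := by
      rw [hlr]
      have : 0 ≤ 1 - r / S := by linarith
      positivity
    rw [max_eq_left hlr0, hlr]
    have e2 : (1 - r / S) * (τ * γ) ≤ (1 - r / S) * γ := by
      apply mul_le_mul_of_nonneg_left _ (by linarith)
      nlinarith [hτ.2]
    have e3 : r / S * (τ * (γ + q * S)) ≤ r / S * ∑ i, θ i * f i (ρ i) :=
      mul_le_mul_of_nonneg_left h5 hs0
    calc τ * ((1 - r / S) * γ + r / S * (γ + q * S))
        = (1 - r / S) * (τ * γ) + r / S * (τ * (γ + q * S)) := by ring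
      _ ≤ _ := add_le_add e2 e3
  unfold kap
  rw [lintegral_lintegral_swap]
  · apply setLIntegral_mono' measurableSet_Ioo
    intro r hr
    have h1 : ∀ τ, (Ici (∑ i, θ i * tt (f i) γ q R τ)).indicator
        (fun r => ENNReal.ofReal (wt γ q r)) r =
        ({τ | ∑ i, θ i * tt (f i) γ q R τ ≤ r}).indicator
          (fun _ => ENNReal.ofReal (wt γ q r)) τ := by
      intro τ
      by_cases h : ∑ i, θ i * tt (f i) γ q R τ ≤ r
      · rw [indicator_of_mem (show r ∈ Ici (∑ i, θ i * tt (f i) γ q R τ) from h),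
          indicator_of_mem (show τ ∈ {τ | ∑ i, θ i * tt (f i) γ q R τ ≤ r} from h)]
      · rw [indicator_of_notMem (show r ∉ Ici (∑ i, θ i * tt (f i) γ q R τ) from h),
          indicator_of_notMem (show τ ∉ {τ | ∑ i, θ i * tt (f i) γ q R τ ≤ r} from h)]
    simp_rw [h1]
    have hms : MeasurableSet {τ | ∑ i, θ i * tt (f i) γ q R τ ≤ r} :=
      measurableSet_le hanti.measurable measurable_const
    rw [lintegral_indicator_const hms, Measure.restrict_apply hms]
    rcases (le_max_right (γ + q * r) 0).eq_or_lt with h0 | h0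
    · have : (max (γ + q * r) 0 - g r) / r ^ 2 ≤ 0 := by
        rw [← h0]
        apply div_nonpos_of_nonpos_of_nonneg
        · linarith [hg0 r]
        · positivity
      rw [ENNReal.ofReal_of_nonpos this]; exact zero_le
    · have h2 : Ioo (g r / max (γ + q * r) 0) 1 ⊆
          {τ | ∑ i, θ i * tt (f i) γ q R τ ≤ r} ∩ Ioo 0 1 := by
        rintro τ ⟨h3, h4⟩
        have h5 : 0 < τ := lt_of_le_of_lt (div_nonneg (hg0 r) h0.le) h3
        refine ⟨?_, h5, h4⟩
        by_contra hcon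
        simp only [mem_ofPred_eq, not_le] at hcon
        have := key τ ⟨h5, h4⟩ r hr.1 hcon
        rw [div_lt_iff₀ h0] at h3
        linarith
      calc ENNReal.ofReal ((max (γ + q * r) 0 - g r) / r ^ 2)
          = ENNReal.ofReal (wt γ q r * (1 - g r / max (γ + q * r) 0)) := by
            congr 1
            unfold wt
            have := hr.1
            field_simp
        _ = ENNReal.ofReal (wt γ q r) * ENNReal.ofReal (1 - g r / max (γ + q * r) 0) := by
            rw [ENNReal.ofReal_mul (wt_nonneg _ _ _)]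
        _ = ENNReal.ofReal (wt γ q r) * volume (Ioo (g r / max (γ + q * r) 0) 1) := by
            rw [Real.volume_Ioo]
        _ ≤ _ := by gcongr
  · apply Measurable.aemeasurable
    have hm : MeasurableSet {p : ℝ × ℝ | ∑ i, θ i * tt (f i) γ q R p.1 ≤ p.2} :=
      measurableSet_le (hanti.measurable.comp measurable_fst) measurable_snd
    have : (Function.uncurry fun τ r => (Ici (∑ i, θ i * tt (f i) γ q R τ)).indicator
        (fun r => ENNReal.ofReal (wt γ q r)) r) =
        {p : ℝ × ℝ | ∑ i, θ i * tt (f i) γ q R p.1 ≤ p.2}.indicator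
          (fun p => ENNReal.ofReal (wt γ q p.2)) := by
      ext ⟨τ, r⟩
      simp only [Function.uncurry_apply_pair]
      by_cases h : ∑ i, θ i * tt (f i) γ q R τ ≤ r
      · rw [indicator_of_mem (show r ∈ Ici (∑ i, θ i * tt (f i) γ q R τ) from h),
          indicator_of_mem
            (show (τ, r) ∈ {p : ℝ × ℝ | ∑ i, θ i * tt (f i) γ q R p.1 ≤ p.2} from h)]
      · rw [indicator_of_notMem (show r ∉ Ici (∑ i, θ i * tt (f i) γ q R τ) from h),
          indicator_of_notMem
            (show (τ, r) ∉ {p : ℝ × ℝ | ∑ i, θ i * tt (f i) γ q R p.1 ≤ p.2} from h)]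
    rw [this]
    apply Measurable.indicator _ hm
    unfold wt
    fun_prop

/-- The one-dimensional (ray) inequality. -/
theorem ray_lemma {ι : Type*} [Fintype ι] (θ : ι → ℝ) (hθ : ∀ i, 0 < θ i)
    (hθ1 : ∑ i, θ i = 1) {γ q R : ℝ} (hγ : 0 < γ) (hR : 0 < R)
    (f : ι → ℝ → ℝ) (hfc : ∀ i, Continuous (f i))
    (hfγ : ∀ i, f i 0 = γ)
    (hfl : ∀ i r, 0 ≤ r → f i r ≤ max (γ + q * r) 0)
    (g : ℝ → ℝ) (hg0 : ∀ r, 0 ≤ g r)
    (hg : ∀ ρ : ι → ℝ, (∀ i, 0 ≤ ρ i) → (∀ i, 0 < f i (ρ i)) → ∀ s : ℝ, 0 ≤ s → s ≤ 1 →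
      (1 - s) * γ + s * ∑ i, θ i * f i (ρ i) ≤ g (s * ∑ i, θ i * ρ i)) :
    ∫⁻ r in Ioo 0 R, ENNReal.ofReal ((max (γ + q * r) 0 - g r) / r ^ 2) ≤
      ∑ i, ENNReal.ofReal (θ i) *
        ∫⁻ r in Ioo 0 R, ENNReal.ofReal ((max (γ + q * r) 0 - f i r) / r ^ 2) := by
  refine (upper_defect θ hθ hθ1 hγ hR f hfγ hfl g hg0 hg).trans ?_
  calc ∫⁻ τ in Ioo (0:ℝ) 1, kap γ q R (∑ i, θ i * tt (f i) γ q R τ)
      ≤ ∫⁻ τ in Ioo (0:ℝ) 1, ∑ i, ENNReal.ofReal (θ i) * kap γ q R (tt (f i) γ q R τ) := by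
        apply setLIntegral_mono' measurableSet_Ioo
        intro τ hτ
        apply kap_jensen' θ hθ hθ1 hγ hR
        · intro i; exact tt_pos hγ hR (hfc i) (hfγ i) hτ.2
        · intro i; exact tt_le _ _ _ hR _
    _ = ∑ i, ENNReal.ofReal (θ i) * ∫⁻ τ in Ioo (0:ℝ) 1, kap γ q R (tt (f i) γ q R τ) := by
        have hmeas : ∀ i, Measurable fun τ => kap γ q R (tt (f i) γ q R τ) := by
          intro i
          have hkanti : Antitone (kap γ q R) := by
            intro a b hab
            unfold kap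
            apply lintegral_mono
            intro r
            apply indicator_le_indicator_of_subset (Ici_subset_Ici.2 hab)
            intro _; exact zero_le
          exact hkanti.measurable.comp (tt_anti _ _ _ _).measurable
        rw [lintegral_finsetSum]
        · apply Finset.sum_congr rfl
          intro i _
          rw [lintegral_const_mul _ (hmeas i)]
        · intro i _
          exact (hmeas i).const_mul _
    _ ≤ _ := by
        apply Finset.sum_le_sum
        intro i _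
        exact mul_le_mul' le_rfl (lower_defect (hfc i))

end Pool.Agent.H3.HalfLap
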