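import Mathlib
import Pool.Agent.H3.HalfLapRay

set_option autoImplicit false
open Filter Topology MeasureTheory Set Metric

namespace Pool.Agent.H3.HalfLap

variable {E : Type*} [NormedAddCommGroup E] [InnerProductSpace ℝ E] [FiniteDimensional ℝ E]
  [MeasurableSpace E] [BorelSpace E]

/-- Polar coordinates for the Lebesgue integral of nonnegative functions. -/
lemma polar_lintegral [Nontrivial E] (T : E → ENNReal) (hT : Measurable T) :
    ∫⁻ h, T h = ∫⁻ ω : sphere (0 : E) 1, (∫⁻ r in Ioi (0:ℝ),
      ENNReal.ofReal (r ^ (Module.finrank ℝ E - 1)) * T (r • (ω : E)))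
        ∂(volume : Measure E).toSphere := by
  have hmp := (volume : Measure E).measurePreserving_homeomorphUnitSphereProd
  calc ∫⁻ h, T h = ∫⁻ h in ({0}ᶜ : Set E), T h := by rw [restrict_compl_singleton]
    _ = ∫⁻ h : ({0}ᶜ : Set E), T h ∂(Measure.comap (↑) (volume : Measure E)) := by
        rw [lintegral_subtype_comap (measurableSet_singleton _).compl]
    _ = ∫⁻ h : ({0}ᶜ : Set E), (fun x : sphere (0:E) 1 × Ioi (0:ℝ) => T (x.2.1 • x.1.1))
          (homeomorphUnitSphereProd E h) ∂(Measure.comap (↑) (volume : Measure E)) := by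
        apply lintegral_congr
        intro h
        have := homeomorphUnitSphereProd_symm_apply_coe E (homeomorphUnitSphereProd E h)
        rw [Homeomorph.symm_apply_apply] at this
        simp only [← this]
    _ = ∫⁻ x : sphere (0:E) 1 × Ioi (0:ℝ), T (x.2.1 • x.1.1)
          ∂((volume : Measure E).toSphere.prod (Measure.volumeIoiPow (Module.finrank ℝ E - 1))) :=
        hmp.lintegral_comp_emb (Homeomorph.measurableEmbedding _)
          (fun x : sphere (0:E) 1 × Ioi (0:ℝ) => T (x.2.1 • x.1.1))
    _ = _ := by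
        have hm : Measurable fun x : sphere (0:E) 1 × Ioi (0:ℝ) => T (x.2.1 • x.1.1) := by
          apply hT.comp
          apply Continuous.measurable
          fun_prop
        rw [lintegral_prod _ hm.aemeasurable]
        apply lintegral_congr
        intro ω
        unfold Measure.volumeIoiPow
        rw [lintegral_withDensity_eq_lintegral_mul]
        · rw [← lintegral_subtype_comap measurableSet_Ioi]
          rfl
        · fun_prop
        · exact hm.comp measurable_prodMk_left

/-- The key inequality in the space. -/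
theorem space_lemma [Nontrivial E] {ι : Type*} [Fintype ι] (θ : ι → ℝ) (hθ : ∀ i, 0 < θ i)
    (hθ1 : ∑ i, θ i = 1) {γ R : ℝ} (p : E) (hγ : 0 < γ) (hR : 0 < R)
    (F : ι → E → ℝ) (hFc : ∀ i, Continuous (F i))
    (hFγ : ∀ i, F i 0 = γ)
    (hFl : ∀ i h, F i h ≤ max (γ + inner ℝ p h) 0)
    (Q : E → ℝ) (hQc : Measurable Q) (hQ0 : ∀ h, 0 ≤ Q h)
    (hQ : ∀ ω : E, ∀ ρ : ι → ℝ, (∀ i, 0 ≤ ρ i) → (∀ i, 0 < F i (ρ i • ω)) →
      ∀ s : ℝ, 0 ≤ s → s ≤ 1 →
      (1 - s) * γ + s * ∑ i, θ i * F i (ρ i • ω) ≤ Q ((s * ∑ i, θ i * ρ i) • ω)) :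
    ∫⁻ h in ball (0:E) R, ENNReal.ofReal
        ((max (γ + inner ℝ p h) 0 - Q h) / ‖h‖ ^ (Module.finrank ℝ E + 1)) ≤
      ∑ i, ENNReal.ofReal (θ i) * ∫⁻ h in ball (0:E) R, ENNReal.ofReal
        ((max (γ + inner ℝ p h) 0 - F i h) / ‖h‖ ^ (Module.finrank ℝ E + 1)) := by
  -- reduce an integral over the ball to rays
  have hdim : 0 < Module.finrank ℝ E := Module.finrank_pos
  have red : ∀ G : E → ℝ, Measurable G →
      ∫⁻ h in ball (0:E) R, ENNReal.ofReal
        ((max (γ + inner ℝ p h) 0 - G h) / ‖h‖ ^ (Module.finrank ℝ E + 1)) =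
      ∫⁻ ω : sphere (0 : E) 1, (∫⁻ r in Ioo (0:ℝ) R,
        ENNReal.ofReal ((max (γ + inner ℝ p (ω : E) * r) 0 - G (r • (ω : E))) / r ^ 2))
          ∂(volume : Measure E).toSphere := by
    intro G hG
    rw [← lintegral_indicator measurableSet_ball, polar_lintegral]
    · apply lintegral_congr
      intro ω
      have hω : ‖(ω : E)‖ = 1 := by simp
      rw [← lintegral_indicator measurableSet_Ioi, ← lintegral_indicator measurableSet_Ioo]
      apply lintegral_congr
      intro r
      by_cases hr : 0 < r
      · rw [indicator_of_mem (show r ∈ Ioi 0 from hr)]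
        by_cases hrR : r < R
        · rw [indicator_of_mem (show r ∈ Ioo 0 R from ⟨hr, hrR⟩),
            indicator_of_mem (show r • (ω : E) ∈ ball (0:E) R by
              rw [mem_ball_zero_iff, norm_smul, hω, mul_one, Real.norm_of_nonneg hr.le]
              exact hrR)]
          rw [← ENNReal.ofReal_mul (by positivity), norm_smul, hω, mul_one,
            Real.norm_of_nonneg hr.le, inner_smul_right, mul_comm r (inner ℝ p (ω : E))]
          congr 1
          have h3 : r ^ (Module.finrank ℝ E + 1) = r ^ (Module.finrank ℝ E - 1) * r ^ 2 := by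
            rw [← pow_add]; congr 1; omega
          rw [h3]
          field_simp
        · rw [indicator_of_notMem (show r ∉ Ioo 0 R from fun h => hrR h.2),
            indicator_of_notMem (show r • (ω : E) ∉ ball (0:E) R by
              rw [mem_ball_zero_iff, norm_smul, hω, mul_one, Real.norm_of_nonneg hr.le]
              exact hrR), mul_zero]
      · rw [indicator_of_notMem (show r ∉ Ioi 0 from hr),
          indicator_of_notMem (show r ∉ Ioo 0 R from fun h => hr h.1)]
    · apply Measurable.indicator _ measurableSet_ball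
      fun_prop
  rw [red Q hQc]
  have hmeas : ∀ i, Measurable fun ω : sphere (0 : E) 1 => ∫⁻ r in Ioo (0:ℝ) R,
        ENNReal.ofReal ((max (γ + inner ℝ p (ω : E) * r) 0 - F i (r • (ω : E))) / r ^ 2) := by
    intro i
    apply Measurable.lintegral_prod_right'
      (f := fun x : sphere (0:E) 1 × ℝ => ENNReal.ofReal
        ((max (γ + inner ℝ p (x.1 : E) * x.2) 0 - F i (x.2 • (x.1 : E))) / x.2 ^ 2))
    have h1 : Measurable fun x : sphere (0:E) 1 × ℝ => F i (x.2 • (x.1 : E)) := by
      apply (hFc i).measurable.comp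
      apply Continuous.measurable
      fun_prop
    have h2 : Measurable fun x : sphere (0:E) 1 × ℝ =>
        max (γ + inner ℝ p (x.1 : E) * x.2) 0 := by
      apply Continuous.measurable
      fun_prop
    fun_prop
  calc _ ≤ ∫⁻ ω : sphere (0 : E) 1, (∑ i, ENNReal.ofReal (θ i) * ∫⁻ r in Ioo (0:ℝ) R,
        ENNReal.ofReal ((max (γ + inner ℝ p (ω : E) * r) 0 - F i (r • (ω : E))) / r ^ 2))
          ∂(volume : Measure E).toSphere := by
        apply lintegral_mono
        intro ω
        apply ray_lemma θ hθ hθ1 hγ hR (fun i r => F i (r • (ω : E)))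
        · intro i
          exact (hFc i).comp (by fun_prop)
        · intro i; simp [hFγ]
        · intro i r hr
          have := hFl i (r • (ω : E))
          rw [inner_smul_right, mul_comm] at this
          exact this
        · intro r; exact hQ0 _
        · intro ρ h1 h2 s hs0 hs1
          exact hQ ω ρ h1 h2 s hs0 hs1
    _ = ∑ i, ENNReal.ofReal (θ i) * ∫⁻ ω : sphere (0 : E) 1, (∫⁻ r in Ioo (0:ℝ) R,
        ENNReal.ofReal ((max (γ + inner ℝ p (ω : E) * r) 0 - F i (r • (ω : E))) / r ^ 2))
          ∂(volume : Measure E).toSphere := by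
        rw [lintegral_finsetSum]
        · apply Finset.sum_congr rfl
          intro i _
          rw [lintegral_const_mul _ (hmeas i)]
        · intro i _
          exact (hmeas i).const_mul _
    _ = _ := by
        apply Finset.sum_congr rfl
        intro i _
        rw [red (F i) (hFc i).measurable]

end Pool.Agent.H3.HalfLap
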