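import Mathlib
import Pool.Agent.H3.HalfLapPolar

set_option autoImplicit false
open Filter Topology MeasureTheory Set Metric

namespace Pool.Agent.H3.HalfLap

variable {E : Type*} [NormedAddCommGroup E] [InnerProductSpace ℝ E] [FiniteDimensional ℝ E]
  [MeasurableSpace E] [BorelSpace E]

lemma integrable_far {ε : ℝ} (hε : 0 < ε) :
    IntegrableOn (fun h : E => 1 / ‖h‖ ^ (Module.finrank ℝ E + 1)) {h : E | ε < ‖h‖} := by
  have h1 : Integrable (fun x : E => ((1 + 1/ε) ^ (Module.finrank ℝ E + 1)) *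
      (1 + ‖x‖) ^ (-((Module.finrank ℝ E + 1 : ℕ) : ℝ))) := by
    apply Integrable.const_mul
    apply integrable_one_add_norm
    push_cast; linarith
  have hms : MeasurableSet {h : E | ε < ‖h‖} := measurableSet_lt measurable_const measurable_norm
  apply Integrable.mono' h1.integrableOn
  · apply Measurable.aestronglyMeasurable
    fun_prop
  · rw [ae_restrict_iff' hms]
    filter_upwards with x hx
    have hx' : ε < ‖x‖ := hx
    have hx0 : 0 < ‖x‖ := lt_trans hε hx'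
    rw [Real.norm_of_nonneg (by positivity), Real.rpow_neg (by positivity), Real.rpow_natCast,
      ← div_eq_mul_inv, ← div_pow, ← one_div_pow]
    apply pow_le_pow_left₀ (by positivity)
    rw [div_le_div_iff₀ hx0 (by positivity)]
    have : 1 ≤ ‖x‖ / ε := by rw [one_le_div hε]; exact hx'.le
    have h3 : (1 + 1/ε) * ‖x‖ = ‖x‖ + ‖x‖ / ε := by field_simp
    rw [h3]; linarith

lemma integrable_annulus {ε : ℝ} (hε : 0 < ε) (R : ℝ) (G : E → ℝ) (hG : Measurable G) (C : ℝ)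
    (hC : ∀ h : E, ‖h‖ < R → |G h| ≤ C) :
    IntegrableOn (fun h : E => G h / ‖h‖ ^ (Module.finrank ℝ E + 1)) {h : E | ε < ‖h‖ ∧ ‖h‖ < R} := by
  have hms : MeasurableSet {h : E | ε < ‖h‖ ∧ ‖h‖ < R} :=
    (measurableSet_lt measurable_const measurable_norm).inter
      (measurableSet_lt measurable_norm measurable_const)
  have h1 : IntegrableOn (fun h : E => C * (1 / ‖h‖ ^ (Module.finrank ℝ E + 1)))
      {h : E | ε < ‖h‖ ∧ ‖h‖ < R} := by
    apply Integrable.const_mul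
    apply (integrable_far hε).mono_set
    intro h hh; exact hh.1
  apply Integrable.mono' h1
  · apply Measurable.aestronglyMeasurable
    fun_prop
  · rw [ae_restrict_iff' hms]
    filter_upwards with x hx
    rw [norm_div, Real.norm_eq_abs, Real.norm_of_nonneg (by positivity : (0:ℝ) ≤ ‖x‖ ^ (Module.finrank ℝ E + 1)),
      mul_one_div]
    have := hC x hx.2
    gcongr

lemma pv_scale (φ : E → ℝ) (x : E) {κ ε : ℝ} (hκ : 0 < κ) :
    ∫ y in {y : E | κ * ε < ‖x - y‖}, (φ x - φ y) / ‖x - y‖ ^ (Module.finrank ℝ E + 1) =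
    ∫ h in {h : E | ε < ‖h‖}, (κ⁻¹ * φ x - κ⁻¹ * φ (x + κ • h)) / ‖h‖ ^ (Module.finrank ℝ E + 1) := by
  have hms1 : MeasurableSet {y : E | κ * ε < ‖x - y‖} :=
    measurableSet_lt measurable_const (measurable_norm.comp (measurable_const.sub measurable_id))
  have hms2 : MeasurableSet {h : E | ε < ‖h‖} := measurableSet_lt measurable_const measurable_norm
  rw [← integral_indicator hms1, ← integral_indicator hms2]
  set G : E → ℝ := {y : E | κ * ε < ‖x - y‖}.indicator
    (fun y => (φ x - φ y) / ‖x - y‖ ^ (Module.finrank ℝ E + 1)) with hG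
  have e1 : ∫ y, G y = ∫ u, G (x + u) := (integral_add_left_eq_self G x).symm
  have e2 := Measure.integral_comp_smul (volume : Measure E) (fun u => G (x + u)) κ
  rw [e1]
  have e3 : ∫ u, G (x + u) = κ ^ (Module.finrank ℝ E) * ∫ h, G (x + κ • h) := by
    rw [e2, abs_of_pos (by positivity), smul_eq_mul, ← mul_assoc, mul_inv_cancel₀ (by positivity),
      one_mul]
  rw [e3, ← integral_const_mul]
  apply integral_congr_ae
  filter_upwards with h
  rw [hG]
  have hn : ‖x - (x + κ • h)‖ = κ * ‖h‖ := by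
    rw [sub_add_cancel_left, norm_neg, norm_smul, Real.norm_of_nonneg hκ.le]
  by_cases hh : ε < ‖h‖
  · rw [indicator_of_mem (show h ∈ {h : E | ε < ‖h‖} from hh), indicator_of_mem (show x + κ • h ∈
      {y : E | κ * ε < ‖x - y‖} by
        show κ * ε < ‖x - (x + κ • h)‖
        rw [hn]; gcongr)]
    rw [hn]
    rcases eq_or_ne ‖h‖ 0 with h0 | h0
    · rw [h0]; simp
    · have : 0 < ‖h‖ := lt_of_le_of_ne (norm_nonneg _) h0.symm
      rw [mul_pow, pow_succ κ]
      field_simp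
  · rw [indicator_of_notMem (show h ∉ {h : E | ε < ‖h‖} from hh), indicator_of_notMem
      (show x + κ • h ∉ {y : E | κ * ε < ‖x - y‖} by
        show ¬ (κ * ε < ‖x - (x + κ • h)‖)
        rw [hn]
        intro h1
        exact hh (lt_of_mul_lt_mul_left h1 hκ.le)), mul_zero]

omit [InnerProductSpace ℝ E] [FiniteDimensional ℝ E] in
lemma meas_ann (ε R : ℝ) : MeasurableSet {h : E | ε < ‖h‖ ∧ ‖h‖ < R} :=
  (measurableSet_lt measurable_const measurable_norm).inter
      (measurableSet_lt measurable_norm measurable_const)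

/-- Oddness: the linear part integrates to zero on annuli. -/
lemma odd_annulus (p : E) (S : Set E) (hS : ∀ h, h ∈ S ↔ -h ∈ S) (hSm : MeasurableSet S) :
    ∫ h in S, (inner ℝ p h : ℝ) / ‖h‖ ^ (Module.finrank ℝ E + 1) = 0 := by
  rw [← integral_indicator hSm]
  set G : E → ℝ := S.indicator (fun h => (inner ℝ p h : ℝ) / ‖h‖ ^ (Module.finrank ℝ E + 1))
    with hG
  have h1 : ∫ h, G (-h) = ∫ h, G h := integral_neg_eq_self G volume
  have h2 : ∀ h, G (-h) = - G h := by
    intro h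
    rw [hG]
    by_cases hh : h ∈ S
    · rw [indicator_of_mem hh, indicator_of_mem ((hS h).1 hh), inner_neg_right, norm_neg, neg_div]
    · rw [indicator_of_notMem hh, indicator_of_notMem (fun h' => hh ((hS h).2 h')), neg_zero]
  simp_rw [h2, integral_neg] at h1
  linarith

/-- Splitting of the truncated principal value integral. -/
lemma pv_split {γ c R ε : ℝ} (p : E) (hε : 0 < ε) (hεR : ε < R) (F : E → ℝ) (hFc : Measurable F)
    (hFR : ∀ h, R ≤ ‖h‖ → F h = c) (C : ℝ) (hC : ∀ h, |F h| ≤ C) :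
    ∫ h in {h : E | ε < ‖h‖}, (γ - F h) / ‖h‖ ^ (Module.finrank ℝ E + 1) =
      (∫ h in {h : E | ε < ‖h‖ ∧ ‖h‖ < R},
        (max (γ + inner ℝ p h) 0 - F h) / ‖h‖ ^ (Module.finrank ℝ E + 1)) +
      (∫ h in {h : E | ε < ‖h‖ ∧ ‖h‖ < R},
        (γ - max (γ + inner ℝ p h) 0) / ‖h‖ ^ (Module.finrank ℝ E + 1)) +
      (γ - c) * ∫ h in {h : E | R ≤ ‖h‖}, 1 / ‖h‖ ^ (Module.finrank ℝ E + 1) := by
  have hR : 0 < R := lt_trans hε hεR
  have hu : {h : E | ε < ‖h‖} = {h : E | ε < ‖h‖ ∧ ‖h‖ < R} ∪ {h : E | R ≤ ‖h‖} := by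
    ext h
    simp only [mem_ofPred_eq, mem_union]
    constructor
    · intro h1
      rcases lt_or_ge ‖h‖ R with h2 | h2
      · left; exact ⟨h1, h2⟩
      · right; exact h2
    · rintro (h1 | h1)
      · exact h1.1
      · exact lt_of_lt_of_le hεR h1
  have hd : Disjoint {h : E | ε < ‖h‖ ∧ ‖h‖ < R} {h : E | R ≤ ‖h‖} := by
    rw [Set.disjoint_left]
    rintro h ⟨_, h2⟩ h3
    exact absurd h3 (not_le.2 h2)
  have hm2 : MeasurableSet {h : E | R ≤ ‖h‖} := measurableSet_le measurable_const measurable_norm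
  have hinner : ∀ h : E, ‖h‖ < R → |(inner ℝ p h : ℝ)| ≤ ‖p‖ * R := by
    intro h hh
    refine (abs_real_inner_le_norm p h).trans ?_
    gcongr
  have hmax : ∀ h : E, ‖h‖ < R → |max (γ + inner ℝ p h) 0| ≤ |γ| + ‖p‖ * R := by
    intro h hh
    have h1 := hinner h hh
    have h2 : |max (γ + inner ℝ p h) 0| ≤ |γ + inner ℝ p h| := by
      rw [abs_of_nonneg (le_max_right _ _)]
      exact max_le (le_abs_self _) (abs_nonneg _)
    exact h2.trans ((abs_add_le _ _).trans (by linarith))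
  have i1 : IntegrableOn (fun h : E => (max (γ + inner ℝ p h) 0 - F h) /
      ‖h‖ ^ (Module.finrank ℝ E + 1)) {h : E | ε < ‖h‖ ∧ ‖h‖ < R} := by
    apply integrable_annulus hε R (fun h => max (γ + inner ℝ p h) 0 - F h)
      (by fun_prop) (|γ| + ‖p‖ * R + C)
    intro h hh
    exact (abs_sub _ _).trans (add_le_add (hmax h hh) (hC h))
  have i2 : IntegrableOn (fun h : E => (γ - max (γ + inner ℝ p h) 0) /
      ‖h‖ ^ (Module.finrank ℝ E + 1)) {h : E | ε < ‖h‖ ∧ ‖h‖ < R} := by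
    apply integrable_annulus hε R (fun h => γ - max (γ + inner ℝ p h) 0)
      (by fun_prop) (|γ| + (|γ| + ‖p‖ * R))
    intro h hh
    exact (abs_sub _ _).trans (add_le_add le_rfl (hmax h hh))
  have i3 : IntegrableOn (fun h : E => (γ - F h) /
      ‖h‖ ^ (Module.finrank ℝ E + 1)) {h : E | ε < ‖h‖ ∧ ‖h‖ < R} := by
    apply integrable_annulus hε R (fun h => γ - F h)
      (by fun_prop) (|γ| + C)
    intro h hh
    exact (abs_sub _ _).trans (add_le_add le_rfl (hC h))
  have i4 : IntegrableOn (fun h : E => (γ - F h) /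
      ‖h‖ ^ (Module.finrank ℝ E + 1)) {h : E | R ≤ ‖h‖} := by
    have : IntegrableOn (fun h : E => (γ - c) * (1 / ‖h‖ ^ (Module.finrank ℝ E + 1)))
        {h : E | R ≤ ‖h‖} := by
      apply Integrable.const_mul
      apply (integrable_far (show 0 < R / 2 by linarith)).mono_set
      intro h hh
      have : R ≤ ‖h‖ := hh
      show R / 2 < ‖h‖
      linarith
    refine this.congr_fun ?_ hm2
    intro h hh
    simp only
    rw [hFR h hh]; ring
  rw [hu, setIntegral_union hd hm2 i3 i4]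
  congr 1
  · rw [← integral_add i1 i2]
    apply setIntegral_congr_fun (meas_ann ε R)
    intro h _
    simp only
    rw [← add_div]; congr 1; ring
  · rw [← integral_const_mul]
    apply setIntegral_congr_fun hm2
    intro h hh
    simp only
    rw [hFR h hh]; ring

/-- The `A(ε)` term is eventually constant. -/
lemma A_const {γ R : ℝ} (hγ : 0 < γ) (p : E) (hR : 0 < R) :
    ∃ a : ℝ, ∀ᶠ ε in 𝓝[>] (0:ℝ), ∫ h in {h : E | ε < ‖h‖ ∧ ‖h‖ < R},
        (γ - max (γ + inner ℝ p h) 0) / ‖h‖ ^ (Module.finrank ℝ E + 1) = a := by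
  -- choose δ with γ + <p,h> > 0 for ‖h‖ ≤ δ
  obtain ⟨δ, hδ, hδR, hδ2⟩ : ∃ δ : ℝ, 0 < δ ∧ δ < R ∧ ∀ h : E, ‖h‖ ≤ δ → 0 ≤ γ + inner ℝ p h := by
    refine ⟨min (γ / (‖p‖ + 1)) (R / 2), lt_min (by positivity) (by linarith),
      lt_of_le_of_lt (min_le_right _ _) (by linarith), ?_⟩
    intro h hh
    have h1 : ‖h‖ ≤ γ / (‖p‖ + 1) := hh.trans (min_le_left _ _)
    have h2 : |(inner ℝ p h : ℝ)| ≤ ‖p‖ * ‖h‖ := abs_real_inner_le_norm p h
    have h3 : ‖p‖ * ‖h‖ ≤ γ := by
      have : (‖p‖ + 1) * ‖h‖ ≤ γ := by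
        rw [le_div_iff₀ (by positivity)] at h1; linarith
      nlinarith [norm_nonneg h]
    have := neg_abs_le (inner ℝ p h : ℝ)
    linarith
  refine ⟨∫ h in {h : E | δ < ‖h‖ ∧ ‖h‖ < R},
        (γ - max (γ + inner ℝ p h) 0) / ‖h‖ ^ (Module.finrank ℝ E + 1), ?_⟩
  have hev : ∀ᶠ ε in 𝓝[>] (0:ℝ), ε ∈ Ioo (0:ℝ) δ := Ioo_mem_nhdsGT hδ
  filter_upwards [hev] with ε hε
  have hu : {h : E | ε < ‖h‖ ∧ ‖h‖ < R} =
      {h : E | ε < ‖h‖ ∧ ‖h‖ ≤ δ} ∪ {h : E | δ < ‖h‖ ∧ ‖h‖ < R} := by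
    ext h
    simp only [mem_ofPred_eq, mem_union]
    constructor
    · rintro ⟨h1, h2⟩
      rcases le_or_gt ‖h‖ δ with h3 | h3
      · left; exact ⟨h1, h3⟩
      · right; exact ⟨h3, h2⟩
    · rintro (⟨h1, h2⟩ | ⟨h1, h2⟩)
      · exact ⟨h1, lt_of_le_of_lt h2 hδR⟩
      · exact ⟨lt_trans hε.2 h1, h2⟩
  have hd : Disjoint {h : E | ε < ‖h‖ ∧ ‖h‖ ≤ δ} {h : E | δ < ‖h‖ ∧ ‖h‖ < R} := by
    rw [Set.disjoint_left]
    rintro h ⟨_, h2⟩ ⟨h3, _⟩
    exact absurd h2 (not_le.2 h3)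
  have hmax : ∀ h : E, ‖h‖ < R → |max (γ + inner ℝ p h) 0| ≤ |γ| + ‖p‖ * R := by
    intro h hh
    have h1 : |(inner ℝ p h : ℝ)| ≤ ‖p‖ * R := by
      refine (abs_real_inner_le_norm p h).trans ?_
      gcongr
    have h2 : |max (γ + inner ℝ p h) 0| ≤ |γ + inner ℝ p h| := by
      rw [abs_of_nonneg (le_max_right _ _)]
      exact max_le (le_abs_self _) (abs_nonneg _)
    exact h2.trans ((abs_add_le _ _).trans (by linarith))
  have i2 : IntegrableOn (fun h : E => (γ - max (γ + inner ℝ p h) 0) /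
      ‖h‖ ^ (Module.finrank ℝ E + 1)) {h : E | ε < ‖h‖ ∧ ‖h‖ < R} := by
    apply integrable_annulus hε.1 R (fun h => γ - max (γ + inner ℝ p h) 0)
      (by fun_prop) (|γ| + (|γ| + ‖p‖ * R))
    intro h hh
    exact (abs_sub _ _).trans (add_le_add le_rfl (hmax h hh))
  have hm1 : MeasurableSet {h : E | ε < ‖h‖ ∧ ‖h‖ ≤ δ} :=
    (measurableSet_lt measurable_const measurable_norm).inter
      (measurableSet_le measurable_norm measurable_const)
  have hm2 : MeasurableSet {h : E | δ < ‖h‖ ∧ ‖h‖ < R} := meas_ann δ R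
  rw [hu] at i2 ⊢
  rw [setIntegral_union hd hm2 (i2.mono_set subset_union_left) (i2.mono_set subset_union_right)]
  have hz : ∫ h in {h : E | ε < ‖h‖ ∧ ‖h‖ ≤ δ},
        (γ - max (γ + inner ℝ p h) 0) / ‖h‖ ^ (Module.finrank ℝ E + 1) = 0 := by
    have h0 := odd_annulus (-p) {h : E | ε < ‖h‖ ∧ ‖h‖ ≤ δ}
      (by intro h; simp only [mem_ofPred_eq, norm_neg]) hm1
    refine Eq.trans ?_ h0
    apply setIntegral_congr_fun hm1
    intro h hh
    simp only
    rw [max_eq_left (hδ2 h hh.2), inner_neg_left]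
    congr 1; ring
  rw [hz, zero_add]

theorem final_contra [Nontrivial E] {ι : Type*} [Fintype ι] (θ : ι → ℝ) (hθ : ∀ i, 0 < θ i)
    (hθ1 : ∑ i, θ i = 1) {γ R M : ℝ} (p : E) (hγ : 0 < γ) (hR : 0 < R) (hM : 0 < M)
    (F : ι → E → ℝ) (hFc : ∀ i, Continuous (F i)) (hF0 : ∀ i h, 0 ≤ F i h)
    (hFγ : ∀ i, F i 0 = γ) (hFR : ∀ i h, R ≤ ‖h‖ → F i h = 0)
    (hFl : ∀ i h, F i h ≤ max (γ + inner ℝ p h) 0)
    (Q : E → ℝ) (hQc : Continuous Q) (hQ0 : ∀ h, 0 ≤ Q h) (hQR : ∀ h, R ≤ ‖h‖ → Q h = M)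
    (hQ : ∀ ω : E, ∀ ρ : ι → ℝ, (∀ i, 0 ≤ ρ i) → (∀ i, 0 < F i (ρ i • ω)) →
      ∀ s : ℝ, 0 ≤ s → s ≤ 1 →
      (1 - s) * γ + s * ∑ i, θ i * F i (ρ i • ω) ≤ Q ((s * ∑ i, θ i * ρ i) • ω))
    (hFpv : ∀ i, Tendsto (fun ε : ℝ => ∫ h in {h : E | ε < ‖h‖},
      (γ - F i h) / ‖h‖ ^ (Module.finrank ℝ E + 1)) (𝓝[>] (0:ℝ)) (𝓝 1))
    (hQpv : Tendsto (fun ε : ℝ => ∫ h in {h : E | ε < ‖h‖},
      (γ - Q h) / ‖h‖ ^ (Module.finrank ℝ E + 1)) (𝓝[>] (0:ℝ)) (𝓝 1)) : False := by
  obtain ⟨a, ha⟩ := A_const hγ p hR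
  set b : ℝ := ∫ h in {h : E | R ≤ ‖h‖}, 1 / ‖h‖ ^ (Module.finrank ℝ E + 1) with hb
  -- bounds
  have hbd : ∀ (G : E → ℝ) (c : ℝ), Continuous G → (∀ h, R ≤ ‖h‖ → G h = c) →
      ∃ C, ∀ h, |G h| ≤ C := by
    intro G c hG hGR
    obtain ⟨C, hC⟩ := (isCompact_closedBall (0:E) R).exists_bound_of_continuousOn hG.continuousOn
    refine ⟨max C |c|, fun h => ?_⟩
    rcases le_or_gt R ‖h‖ with h1 | h1
    · rw [hGR h h1]; exact le_max_right _ _
    · exact (hC h (by rw [mem_closedBall_zero_iff]; exact h1.le)).trans (le_max_left _ _)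
  have hevR : ∀ᶠ ε in 𝓝[>] (0:ℝ), ε ∈ Ioo (0:ℝ) R := Ioo_mem_nhdsGT hR
  -- limits on annuli
  have hX : ∀ i, Tendsto (fun ε : ℝ => ∫ h in {h : E | ε < ‖h‖ ∧ ‖h‖ < R},
        (max (γ + inner ℝ p h) 0 - F i h) / ‖h‖ ^ (Module.finrank ℝ E + 1)) (𝓝[>] (0:ℝ))
        (𝓝 (1 - a - γ * b)) := by
    intro i
    obtain ⟨C, hC⟩ := hbd (F i) 0 (hFc i) (hFR i)
    have h1 := (hFpv i).sub (tendsto_const_nhds (x := a + γ * b))
    have h2 : (1:ℝ) - (a + γ * b) = 1 - a - γ * b := by ring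
    rw [h2] at h1
    apply h1.congr'
    filter_upwards [ha, hevR] with ε hε1 hε2
    rw [pv_split p hε2.1 hε2.2 (F i) (hFc i).measurable (hFR i) C hC, hε1]
    ring
  have hY : Tendsto (fun ε : ℝ => ∫ h in {h : E | ε < ‖h‖ ∧ ‖h‖ < R},
        (max (γ + inner ℝ p h) 0 - Q h) / ‖h‖ ^ (Module.finrank ℝ E + 1)) (𝓝[>] (0:ℝ))
        (𝓝 (1 - a - (γ - M) * b)) := by
    obtain ⟨C, hC⟩ := hbd Q M hQc hQR
    have h1 := hQpv.sub (tendsto_const_nhds (x := a + (γ - M) * b))
    have h2 : (1:ℝ) - (a + (γ - M) * b) = 1 - a - (γ - M) * b := by ring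
    rw [h2] at h1
    apply h1.congr'
    filter_upwards [ha, hevR] with ε hε1 hε2
    rw [pv_split p hε2.1 hε2.2 Q hQc.measurable hQR C hC, hε1]
    ring
  -- lintegrals
  have hcover : AECover ((volume : Measure E).restrict (ball (0:E) R)) (𝓝[>] (0:ℝ))
      (fun ε : ℝ => {h : E | ε < ‖h‖}) := by
    constructor
    · have h0 : ∀ᵐ x ∂((volume : Measure E).restrict (ball (0:E) R)), x ≠ 0 := by
        apply ae_restrict_of_ae
        rw [ae_iff]
        simp
      filter_upwards [h0] with x hx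
      have : 0 < ‖x‖ := norm_pos_iff.2 hx
      filter_upwards [Ioo_mem_nhdsGT this] with ε hε using hε.2
    · intro ε
      exact measurableSet_lt measurable_const measurable_norm
  have hrestr : ∀ ε : ℝ, ((volume : Measure E).restrict (ball (0:E) R)).restrict {h : E | ε < ‖h‖} =
      (volume : Measure E).restrict {h : E | ε < ‖h‖ ∧ ‖h‖ < R} := by
    intro ε
    rw [Measure.restrict_restrict (measurableSet_lt measurable_const measurable_norm)]
    congr 1
    ext h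
    simp only [mem_inter_iff, mem_ofPred_eq, mem_ball_zero_iff]
  have hFint : ∀ i, ∫⁻ h in ball (0:E) R, ENNReal.ofReal
        ((max (γ + inner ℝ p h) 0 - F i h) / ‖h‖ ^ (Module.finrank ℝ E + 1)) =
        ENNReal.ofReal (1 - a - γ * b) := by
    intro i
    obtain ⟨C, hC⟩ := hbd (F i) 0 (hFc i) (hFR i)
    apply hcover.lintegral_eq_of_tendsto
    · apply Measurable.aemeasurable
      have := (hFc i).measurable
      fun_prop
    · have h1 := (ENNReal.continuous_ofReal.tendsto _).comp (hX i)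
      apply h1.congr'
      filter_upwards [hevR] with ε hε
      rw [hrestr]
      simp only [Function.comp_apply]
      rw [ofReal_integral_eq_lintegral_ofReal]
      · apply integrable_annulus hε.1 R (fun h => max (γ + inner ℝ p h) 0 - F i h)
          (by have := (hFc i).measurable; fun_prop) (|γ| + ‖p‖ * R + C)
        intro h hh
        have h1 : |(inner ℝ p h : ℝ)| ≤ ‖p‖ * R := by
          refine (abs_real_inner_le_norm p h).trans ?_
          gcongr
        have h2 : |max (γ + inner ℝ p h) 0| ≤ |γ + inner ℝ p h| := by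
          rw [abs_of_nonneg (le_max_right _ _)]
          exact max_le (le_abs_self _) (abs_nonneg _)
        have h3 : |max (γ + inner ℝ p h) 0| ≤ |γ| + ‖p‖ * R :=
          h2.trans ((abs_add_le _ _).trans (by linarith))
        exact (abs_sub _ _).trans (add_le_add h3 (hC h))
      · filter_upwards with h
        have := hFl i h
        have h4 : 0 ≤ max (γ + inner ℝ p h) 0 - F i h := by linarith
        positivity
  have hX0 : 0 ≤ 1 - a - γ * b := by
    obtain ⟨i⟩ : Nonempty ι := by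
      by_contra h
      rw [not_nonempty_iff] at h
      simp at hθ1
    apply ge_of_tendsto (hX i)
    filter_upwards with ε
    apply setIntegral_nonneg (meas_ann ε R)
    intro h _
    have := hFl i h
    have h4 : 0 ≤ max (γ + inner ℝ p h) 0 - F i h := by linarith
    positivity
  have hmain := space_lemma θ hθ hθ1 p hγ hR F hFc hFγ hFl Q hQc.measurable hQ0 hQ
  simp_rw [hFint] at hmain
  have hsum1 : ∑ i, ENNReal.ofReal (θ i) * ENNReal.ofReal (1 - a - γ * b) =
      ENNReal.ofReal (1 - a - γ * b) := by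
    rw [← Finset.sum_mul, ← ENNReal.ofReal_sum_of_nonneg (fun i _ => (hθ i).le), hθ1]
    simp
  rw [hsum1] at hmain
  -- Y ≤ X
  have hYle : ∀ᶠ ε in 𝓝[>] (0:ℝ), ∫ h in {h : E | ε < ‖h‖ ∧ ‖h‖ < R},
        (max (γ + inner ℝ p h) 0 - Q h) / ‖h‖ ^ (Module.finrank ℝ E + 1) ≤ 1 - a - γ * b := by
    filter_upwards [hevR] with ε hε
    obtain ⟨C, hC⟩ := hbd Q M hQc hQR
    have hint : IntegrableOn (fun h : E => (max (γ + inner ℝ p h) 0 - Q h) /
        ‖h‖ ^ (Module.finrank ℝ E + 1)) {h : E | ε < ‖h‖ ∧ ‖h‖ < R} := by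
      apply integrable_annulus hε.1 R (fun h => max (γ + inner ℝ p h) 0 - Q h)
          (by have := hQc.measurable; fun_prop) (|γ| + ‖p‖ * R + C)
      intro h hh
      have h1 : |(inner ℝ p h : ℝ)| ≤ ‖p‖ * R := by
        refine (abs_real_inner_le_norm p h).trans ?_
        gcongr
      have h2 : |max (γ + inner ℝ p h) 0| ≤ |γ + inner ℝ p h| := by
        rw [abs_of_nonneg (le_max_right _ _)]
        exact max_le (le_abs_self _) (abs_nonneg _)
      have h3 : |max (γ + inner ℝ p h) 0| ≤ |γ| + ‖p‖ * R :=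
        h2.trans ((abs_add_le _ _).trans (by linarith))
      exact (abs_sub _ _).trans (add_le_add h3 (hC h))
    rw [integral_eq_lintegral_pos_part_sub_lintegral_neg_part hint]
    have h5 : ∫⁻ h in {h : E | ε < ‖h‖ ∧ ‖h‖ < R}, ENNReal.ofReal ((max (γ + inner ℝ p h) 0 - Q h) /
        ‖h‖ ^ (Module.finrank ℝ E + 1)) ≤ ENNReal.ofReal (1 - a - γ * b) := by
      refine le_trans (lintegral_mono_set ?_) hmain
      intro h hh
      rw [mem_ball_zero_iff]; exact hh.2
    have h6 := ENNReal.toReal_mono ENNReal.ofReal_ne_top h5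
    rw [ENNReal.toReal_ofReal hX0] at h6
    have h7 : 0 ≤ ENNReal.toReal (∫⁻ h in {h : E | ε < ‖h‖ ∧ ‖h‖ < R},
      ENNReal.ofReal (-((max (γ + inner ℝ p h) 0 - Q h) / ‖h‖ ^ (Module.finrank ℝ E + 1)))) :=
      ENNReal.toReal_nonneg
    linarith
  have hlim := le_of_tendsto hY hYle
  -- positivity of b
  have hbpos : 0 < b := by
    have hint : IntegrableOn (fun h : E => 1 / ‖h‖ ^ (Module.finrank ℝ E + 1))
        {h : E | R ≤ ‖h‖} := by
      apply (integrable_far (show 0 < R / 2 by linarith)).mono_set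
      intro h hh
      have : R ≤ ‖h‖ := hh
      show R / 2 < ‖h‖
      linarith
    rw [hb, setIntegral_pos_iff_support_of_nonneg_ae]
    · have hsub : {h : E | R < ‖h‖} ⊆
          (Function.support fun h : E => 1 / ‖h‖ ^ (Module.finrank ℝ E + 1)) ∩ {h : E | R ≤ ‖h‖} := by
        intro h hh
        have hh' : R < ‖h‖ := hh
        have : 0 < ‖h‖ := lt_trans hR hh'
        refine ⟨?_, hh'.le⟩
        rw [Function.mem_support]
        positivity
      refine lt_of_lt_of_le ?_ (measure_mono hsub)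
      have hopen : IsOpen {h : E | R < ‖h‖} := isOpen_lt continuous_const continuous_norm
      refine hopen.measure_pos (volume : Measure E) ?_
      obtain ⟨x, hx⟩ := exists_ne (0:E)
      refine ⟨((R + 1) / ‖x‖) • x, ?_⟩
      show R < ‖((R + 1) / ‖x‖) • x‖
      have hx0 : 0 < ‖x‖ := norm_pos_iff.2 hx
      rw [norm_smul, norm_div, norm_norm, div_mul_cancel₀ _ hx0.ne', Real.norm_of_nonneg (by linarith)]
      linarith
    · filter_upwards with h
      simp only [Pi.zero_apply]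
      positivity
    · exact hint
  nlinarith [mul_pos hM hbpos]

end Pool.Agent.H3.HalfLap
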