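import Mathlib
import Pool.Agent.H3.HalfLapPV

set_option autoImplicit false
open Filter Topology MeasureTheory Set Metric

namespace Pool.Agent.H3.HalfLap

/-- The convex hull of a compact set in a finite-dimensional space is compact. -/
theorem isCompact_convexHull' {F : Type*} [NormedAddCommGroup F] [NormedSpace ℝ F]
    [FiniteDimensional ℝ F] {S : Set F} (hS : IsCompact S) : IsCompact (convexHull ℝ S) := by
  have h : convexHull ℝ S = ⋃ n ∈ Finset.range (Module.finrank ℝ F + 2),
      (fun q : (Fin n → ℝ) × (Fin n → F) => ∑ i, q.1 i • q.2 i) ''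
        (stdSimplex ℝ (Fin n) ×ˢ Set.pi univ (fun _ => S)) := by
    ext x
    constructor
    · intro hx
      obtain ⟨ι, hι, z, w, hz, hai, hw, hw1, hx⟩ := eq_pos_convex_span_of_mem_convexHull hx
      have hcard : Fintype.card ι ≤ Module.finrank ℝ F + 1 := by
        refine hai.card_le_finrank_succ.trans ?_
        gcongr
        exact Submodule.finrank_le _
      simp only [mem_iUnion, mem_image]
      refine ⟨Fintype.card ι, Finset.mem_range.2 (by omega), ?_⟩
      let e := (Fintype.equivFin ι).symm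
      refine ⟨(fun j => w (e j), fun j => z (e j)), ⟨⟨fun j => (hw _).le, ?_⟩, ?_⟩, ?_⟩
      · simp only
        rw [Equiv.sum_comp e w]; exact hw1
      · intro j _
        exact hz ⟨_, rfl⟩
      · simp only
        rw [Equiv.sum_comp e (fun i => w i • z i)]; exact hx
    · intro hx
      simp only [mem_iUnion, mem_image] at hx
      obtain ⟨n, _, ⟨w, z⟩, ⟨⟨hw, hz⟩, hx⟩⟩ := hx
      rw [← hx]
      apply (convex_convexHull ℝ S).sum_mem (fun i _ => hw.1 i) hw.2
      intro i _
      exact subset_convexHull ℝ S (hz i (mem_univ i))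
  rw [h]
  apply Finset.isCompact_biUnion
  intro n _
  apply IsCompact.image
  · exact (isCompact_stdSimplex ℝ (Fin n)).prod (isCompact_univ_pi fun _ => hS)
  · fun_prop

theorem split_sum {ι A : Type*} [Fintype ι] [AddCommMonoid A] (P : ι → Prop) [DecidablePred P]
    (g : ι → A) (hg : ∀ i, ¬ P i → g i = 0) : ∑ i, g i = ∑ j : {i // P i}, g j := by
  rw [← Finset.sum_filter_add_sum_filter_not Finset.univ P g]
  rw [Finset.sum_eq_zero (s := Finset.univ.filter fun i => ¬ P i)]
  · rw [add_zero]
    exact Finset.sum_subtype (Finset.univ.filter P) (by simp) g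
  · intro i hi
    exact hg i (Finset.mem_filter.1 hi).2

variable {E : Type*} [NormedAddCommGroup E] [InnerProductSpace ℝ E] [FiniteDimensional ℝ E]
  [MeasurableSpace E] [BorelSpace E]

/-- The principal value equation forbids interior minima. -/
lemma no_min {φ : E → ℝ} {x : E} (hpv : Tendsto
          (fun ε : ℝ => ∫ y in {y : E | ε < ‖x - y‖},
              (φ x - φ y) / ‖x - y‖ ^ (Module.finrank ℝ E + 1))
          (𝓝[>] (0 : ℝ)) (𝓝 1)) : ¬ (∀ y, φ x ≤ φ y) := by
  intro h
  have h1 : ∀ ε : ℝ, ∫ y in {y : E | ε < ‖x - y‖},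
              (φ x - φ y) / ‖x - y‖ ^ (Module.finrank ℝ E + 1) ≤ 0 := by
    intro ε
    apply integral_nonpos
    intro y
    apply div_nonpos_of_nonpos_of_nonneg
    · linarith [h y]
    · positivity
  have h2 := le_of_tendsto hpv (Eventually.of_forall h1)
  linarith

omit [MeasurableSpace E] [BorelSpace E] in
/-- Supporting affine function for the top of a compact convex set over an interior point. -/
lemma exists_support {C : Set (E × ℝ)} (hC : Convex ℝ C) {D : Set E} (hD : IsOpen D)
    {z : E} {γ : ℝ} (hz : z ∈ D) (hzC : (z, γ) ∈ C) (hDC : ∀ x ∈ D, ∃ t : ℝ, 0 ≤ t ∧ (x, t) ∈ C)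
    (htop : ∀ t, (z, t) ∈ C → t ≤ γ) :
    ∃ p : E, ∀ x t, (x, t) ∈ C → t ≤ γ + inner ℝ p (x - z) := by
  set CC : Set (E × ℝ) := {q | ∃ s, q.2 ≤ s ∧ (q.1, s) ∈ C} with hCC
  have hCCconv : Convex ℝ CC := by
    rintro ⟨x, t⟩ ⟨s, hs, hsC⟩ ⟨y, u⟩ ⟨v, hv, hvC⟩ a b ha hb hab
    refine ⟨a * s + b * v, ?_, ?_⟩
    · simp only [Prod.smul_mk, smul_eq_mul, Prod.mk_add_mk]
      exact add_le_add (mul_le_mul_of_nonneg_left hs ha) (mul_le_mul_of_nonneg_left hv hb)
    · have := hC hsC hvC ha hb hab
      simpa only [Prod.smul_mk, smul_eq_mul, Prod.mk_add_mk] using this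
  have hsub : D ×ˢ Iio (0:ℝ) ⊆ interior CC := by
    apply interior_maximal
    · rintro ⟨x, t⟩ ⟨hx, ht⟩
      obtain ⟨s, hs0, hs⟩ := hDC x hx
      exact ⟨s, (le_of_lt (lt_of_lt_of_le ht hs0)), hs⟩
    · exact hD.prod isOpen_Iio
  have hne : (interior CC).Nonempty := ⟨(z, -1), hsub ⟨hz, by simp⟩⟩
  have hnot : (z, γ) ∉ interior CC := by
    intro h
    have h1 : ∀ᶠ t in 𝓝 γ, (z, t) ∈ CC := by
      have hc : Tendsto (fun t : ℝ => (z, t)) (𝓝 γ) (𝓝 (z, γ)) := by
        have : Continuous fun t : ℝ => (z, t) := by fun_prop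
        exact this.tendsto γ
      exact hc.eventually (mem_interior_iff_mem_nhds.1 h)
    rw [Metric.eventually_nhds_iff] at h1
    obtain ⟨ε, hε, h2⟩ := h1
    obtain ⟨s, hs, hsC⟩ := h2 (show dist (γ + ε / 2) γ < ε by
      rw [Real.dist_eq, add_sub_cancel_left, abs_of_pos (by linarith)]; linarith)
    have := htop s hsC
    simp only at hs
    linarith
  obtain ⟨f, hf⟩ := geometric_hahn_banach_open_point hCCconv.interior isOpen_interior hnot
  have hfle : ∀ q ∈ CC, f q ≤ f (z, γ) := by
    intro q hq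
    have h1 : q ∈ closure (interior CC) := by
      rw [hCCconv.closure_interior_eq_closure_of_nonempty_interior hne]
      exact subset_closure hq
    have h2 : closure (interior CC) ⊆ {q | f q ≤ f (z, γ)} := by
      apply closure_minimal
      · intro q hq; exact (hf q hq).le
      · exact isClosed_le f.continuous continuous_const
    exact h2 h1
  have hdec : ∀ x t, f (x, t) = f (x, 0) + t * f (0, 1) := by
    intro x t
    have : (x, t) = (x, (0:ℝ)) + t • ((0:E), (1:ℝ)) := by simp
    rw [this, map_add, map_smul, smul_eq_mul]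
  have hc0 : 0 ≤ f (0, 1) := by
    have h1 := hfle (z, γ - 1) ⟨γ, by simp, hzC⟩
    rw [hdec, hdec z γ] at h1
    linarith
  have hc : 0 < f (0, 1) := by
    rcases hc0.eq_or_lt with h0 | h0
    · exfalso
      have h1 := hf (z, -1) (hsub ⟨hz, by simp⟩)
      rw [hdec, hdec z γ, ← h0] at h1
      linarith
    · exact h0
  set c := f (0, 1) with hcdef
  -- the linear functional
  let u : E →L[ℝ] ℝ := (-(c⁻¹)) • (f.comp (ContinuousLinearMap.inl ℝ E ℝ))
  refine ⟨(InnerProductSpace.toDual ℝ E).symm u, fun x t hxt => ?_⟩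
  rw [InnerProductSpace.toDual_symm_apply]
  have h1 := hfle (x, t) ⟨t, le_refl _, hxt⟩
  rw [hdec, hdec z γ] at h1
  have h2 : u (x - z) = -(c⁻¹) * (f (x, 0) - f (z, 0)) := by
    have h3 : f (x - z, 0) = f (x, 0) - f (z, 0) := by
      rw [← map_sub]; simp
    simp only [u, smul_apply, ContinuousLinearMap.comp_apply,
      ContinuousLinearMap.inl_apply, smul_eq_mul]
    rw [h3]
  rw [h2]
  have h4 : t - γ ≤ c⁻¹ * (f (z, 0) - f (x, 0)) := by
    rw [inv_mul_eq_div, le_div_iff₀ hc]
    linarith
  linarith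

theorem main_concave [Nontrivial E] (D : Set E) (hDo : IsOpen D) (hDc : Convex ℝ D)
    (hDb : Bornology.IsBounded D) (φ : E → ℝ) (hφc : Continuous φ) (hφ0 : ∀ x, x ∉ D → φ x = 0)
    (hpv : ∀ x ∈ D, Tendsto
          (fun ε : ℝ => ∫ y in {y : E | ε < ‖x - y‖},
              (φ x - φ y) / ‖x - y‖ ^ (Module.finrank ℝ E + 1))
          (𝓝[>] (0 : ℝ)) (𝓝 1)) : ConcaveOn ℝ D φ := by
  classical
  rcases D.eq_empty_or_nonempty with hDe | hDne
  · subst hDe; exact ⟨convex_empty, fun x hx => absurd hx (notMem_empty x)⟩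
  set K := closure D with hK
  have hKcomp : IsCompact K := hDb.isCompact_closure
  have hKne : K.Nonempty := hDne.closure
  have hKconv : Convex ℝ K := hDc.closure
  have hDK : D ⊆ K := subset_closure
  -- nonnegativity
  have hnn : ∀ x, 0 ≤ φ x := by
    obtain ⟨m, hm, hmin⟩ := hKcomp.exists_isMinOn hKne hφc.continuousOn
    have hm0 : 0 ≤ φ m := by
      by_contra hneg
      push Not at hneg
      have hmD : m ∈ D := by
        by_contra h
        rw [hφ0 m h] at hneg; exact lt_irrefl _ hneg
      apply no_min (hpv m hmD)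
      intro y
      by_cases hy : y ∈ K
      · exact hmin hy
      · rw [hφ0 y (fun h => hy (hDK h))]; exact hneg.le
    intro x
    by_cases hx : x ∈ K
    · exact hm0.trans (hmin hx)
    · rw [hφ0 x (fun h => hx (hDK h))]
  have hpos : ∀ x ∈ D, 0 < φ x := by
    intro x hx
    rcases (hnn x).eq_or_lt with h | h
    · exfalso
      apply no_min (hpv x hx)
      intro y; rw [← h]; exact hnn y
    · exact h
  -- graph and convex hull
  set S : Set (E × ℝ) := (fun x => (x, φ x)) '' K with hS
  have hScomp : IsCompact S := hKcomp.image (by fun_prop)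
  set C := convexHull ℝ S with hCdef
  have hCcomp : IsCompact C := isCompact_convexHull' hScomp
  have hSC : S ⊆ C := subset_convexHull ℝ S
  have hCconv : Convex ℝ C := convex_convexHull ℝ S
  have hgraph : ∀ x ∈ K, (x, φ x) ∈ C := fun x hx => hSC ⟨x, hx, rfl⟩
  have hCK : ∀ q ∈ C, q.1 ∈ K := by
    have : C ⊆ {q : E × ℝ | q.1 ∈ K} := by
      apply convexHull_min
      · rintro _ ⟨x, hx, rfl⟩; exact hx
      · exact hKconv.linear_preimage (LinearMap.fst ℝ E ℝ)
    exact this
  have hCne : C.Nonempty := by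
    obtain ⟨x, hx⟩ := hKne
    exact ⟨_, hgraph x hx⟩
  obtain ⟨⟨z, γ⟩, hzC, hmax⟩ := hCcomp.exists_isMaxOn hCne
    (f := fun q : E × ℝ => q.2 - φ q.1) (by fun_prop)
  have hmax' : ∀ x t, (x, t) ∈ C → t - φ x ≤ γ - φ z := fun x t h => hmax h
  set M := γ - φ z with hM
  rcases le_or_gt M 0 with hM0 | hM0
  · -- concave
    refine ⟨hDc, fun x hx y hy a b ha hb hab => ?_⟩
    have h1 := hCconv (hgraph x (hDK hx)) (hgraph y (hDK hy)) ha hb hab
    rw [Prod.smul_mk, Prod.smul_mk, Prod.mk_add_mk] at h1
    have := hmax' _ _ h1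
    linarith
  exfalso
  have hγ : 0 < γ := by have := hnn z; linarith
  -- representation
  obtain ⟨ι, hι, w, q, hw, hw1, hq, hsum⟩ := mem_convexHull_iff_exists_fintype.1 hzC
  set x : ι → E := fun i => (q i).1 with hx
  have hqx : ∀ i, q i = (x i, φ (x i)) ∧ x i ∈ K := by
    intro i
    obtain ⟨y, hy, hyq⟩ := hq i
    have h1 : x i = y := by
      simp only [hx]; rw [← hyq]
    rw [h1]; exact ⟨hyq.symm, hy⟩
  have hsum1 : ∑ i, w i • x i = z := by
    have := congrArg Prod.fst hsum
    rw [Prod.fst_sum] at this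
    simpa using this
  have hsum2 : ∑ i, w i * φ (x i) = γ := by
    have := congrArg Prod.snd hsum
    rw [Prod.snd_sum] at this
    refine Eq.trans ?_ this
    apply Finset.sum_congr rfl
    intro i _
    rw [(hqx i).1]
    simp
  -- z ∈ D
  have hzD : z ∈ D := by
    by_contra hzD
    obtain ⟨f, hf⟩ := geometric_hahn_banach_open_point hDc hDo hzD
    have hfK : ∀ y ∈ K, f y ≤ f z := by
      have : K ⊆ {y | f y ≤ f z} := by
        apply closure_minimal
        · intro y hy; exact (hf y hy).le
        · exact isClosed_le f.continuous continuous_const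
      exact this
    have h1 : ∑ i, w i * (f z - f (x i)) = 0 := by
      have h2 : f z = ∑ i, w i * f (x i) := by
        rw [← hsum1, map_sum]
        apply Finset.sum_congr rfl
        intro i _
        rw [map_smul, smul_eq_mul]
      simp_rw [mul_sub]
      rw [Finset.sum_sub_distrib, ← Finset.sum_mul, hw1, one_mul, ← h2, sub_self]
    have h3 : ∀ i, w i * (f z - f (x i)) = 0 := by
      have := (Finset.sum_eq_zero_iff_of_nonneg (s := Finset.univ)
        (f := fun i => w i * (f z - f (x i))) (by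
          intro i _
          exact mul_nonneg (hw i) (by linarith [hfK (x i) (hqx i).2]))).1 h1
      intro i; exact this i (Finset.mem_univ i)
    have h4 : ∑ i, w i * φ (x i) = 0 := by
      apply Finset.sum_eq_zero
      intro i _
      rcases mul_eq_zero.1 (h3 i) with h5 | h5
      · rw [h5, zero_mul]
      · have : x i ∉ D := by
          intro h6
          have := hf _ h6
          linarith
        rw [hφ0 _ this, mul_zero]
    linarith
  -- supporting function
  obtain ⟨p, hp⟩ := exists_support hCconv hDo hzD hzC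
    (fun y hy => ⟨φ y, hnn y, hgraph y (hDK hy)⟩)
    (fun t ht => by have := hmax' z t ht; linarith)
  have hpφ : ∀ y ∈ K, φ y ≤ γ + inner ℝ p (y - z) := fun y hy => hp y (φ y) (hgraph y hy)
  -- contact
  have hcontact : ∀ i, 0 < w i → φ (x i) = γ + inner ℝ p (x i - z) := by
    have h1 : ∑ i, w i * (γ + inner ℝ p (x i - z) - φ (x i)) = 0 := by
      have h2 : ∑ i, w i * inner ℝ p (x i - z) = 0 := by
        have h3 : ∑ i, w i * inner ℝ p (x i - z) = inner ℝ p (∑ i, w i • (x i - z)) := by
          rw [inner_sum]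
          apply Finset.sum_congr rfl
          intro i _
          rw [inner_smul_right]
        rw [h3]
        simp_rw [smul_sub]
        rw [Finset.sum_sub_distrib, hsum1, ← Finset.sum_smul, hw1, one_smul, sub_self,
          inner_zero_right]
      have h4 : ∀ i, w i * (γ + inner ℝ p (x i - z) - φ (x i)) =
          w i * γ + w i * inner ℝ p (x i - z) - w i * φ (x i) := by intro i; ring
      simp_rw [h4]
      rw [Finset.sum_sub_distrib, Finset.sum_add_distrib, h2, ← Finset.sum_mul, hw1, hsum2]
      ring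
    have h3 := (Finset.sum_eq_zero_iff_of_nonneg (s := Finset.univ)
        (f := fun i => w i * (γ + inner ℝ p (x i - z) - φ (x i))) (by
          intro i _
          exact mul_nonneg (hw i) (by linarith [hpφ (x i) (hqx i).2]))).1 h1
    intro i hi
    rcases mul_eq_zero.1 (h3 i (Finset.mem_univ i)) with h5 | h5
    · exact absurd h5 hi.ne'
    · linarith
  -- active indices
  let P : ι → Prop := fun i => 0 < w i ∧ 0 < φ (x i)
  let J := {i : ι // P i}
  have hinactive : ∀ i, ¬ P i → w i * φ (x i) = 0 := by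
    intro i hi
    rcases (hw i).eq_or_lt with h | h
    · rw [← h, zero_mul]
    · rcases (hnn (x i)).eq_or_lt with h' | h'
      · rw [← h', mul_zero]
      · exact absurd ⟨h, h'⟩ hi
  have hsplit : ∀ g : ι → ℝ, (∀ i, ¬ P i → g i = 0) → ∑ i, g i = ∑ j : J, g j :=
    fun g hg => split_sum P g hg
  have hsplitE : ∀ g : ι → E, (∀ i, ¬ P i → g i = 0) → ∑ i, g i = ∑ j : J, g j :=
    fun g hg => split_sum P g hg
  let κ : J → ℝ := fun j => φ (x j) / γ
  have hκ : ∀ j : J, 0 < κ j := fun j => div_pos j.2.2 hγ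
  let θ : J → ℝ := fun j => w j * κ j
  have hθ : ∀ j : J, 0 < θ j := fun j => mul_pos j.2.1 (hκ j)
  have hθ1 : ∑ j, θ j = 1 := by
    have h1 : ∑ i, w i * (φ (x i) / γ) = ∑ j : J, w j * (φ (x j) / γ) := by
      apply hsplit
      intro i hi
      rw [← mul_div_assoc, hinactive i hi, zero_div]
    have h2 : ∑ i, w i * (φ (x i) / γ) = 1 := by
      simp_rw [← mul_div_assoc]
      rw [← Finset.sum_div, hsum2, div_self hγ.ne']
    rw [h2] at h1
    exact h1.symm
  let F : J → E → ℝ := fun j h => (κ j)⁻¹ * φ (x j + κ j • h)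
  have hJK : ∀ j : J, x j ∈ K := fun j => (hqx j).2
  have hJD : ∀ j : J, x j ∈ D := by
    intro j
    by_contra h
    have := j.2.2
    rw [hφ0 _ h] at this
    exact lt_irrefl _ this
  -- radius
  obtain ⟨B, hB⟩ := hDb.exists_norm_le
  have hB0 : 0 ≤ B := (norm_nonneg _).trans (hB z hzD)
  set R : ℝ := B + ‖z‖ + 1 + ∑ j : J, (B + 1 + ‖x j‖) / κ j with hRdef
  have hterm : ∀ j : J, 0 ≤ (B + 1 + ‖x j‖) / κ j := fun j => by
    have := hκ j
    positivity
  have hsumnn : 0 ≤ ∑ j : J, (B + 1 + ‖x j‖) / κ j := Finset.sum_nonneg fun j _ => hterm j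
  have hR : 0 < R := by rw [hRdef]; positivity
  have hRz : ∀ h : E, R ≤ ‖h‖ → z + h ∉ D := by
    intro h hh hD
    have h1 := hB _ hD
    have h2 : ‖h‖ ≤ ‖z + h‖ + ‖z‖ := by
      have : h = (z + h) - z := by abel
      calc ‖h‖ = ‖(z + h) - z‖ := by rw [← this]
        _ ≤ _ := norm_sub_le _ _
    linarith
  have hRx : ∀ (j : J) (h : E), R ≤ ‖h‖ → x j + κ j • h ∉ D := by
    intro j h hh hD
    have h1 := hB _ hD
    have h2 : κ j * ‖h‖ ≤ ‖x j + κ j • h‖ + ‖x j‖ := by
      have : κ j • h = (x j + κ j • h) - x j := by abel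
      calc κ j * ‖h‖ = ‖κ j • h‖ := by rw [norm_smul, Real.norm_of_nonneg (hκ j).le]
        _ = ‖(x j + κ j • h) - x j‖ := by rw [← this]
        _ ≤ _ := norm_sub_le _ _
    have h3 : (B + 1 + ‖x j‖) / κ j ≤ R := by
      have := Finset.single_le_sum (fun j _ => hterm j) (Finset.mem_univ j)
      have hz0 := norm_nonneg z
      linarith
    have h4 : B + 1 + ‖x j‖ ≤ κ j * ‖h‖ := by
      have := h3.trans hh
      rw [div_le_iff₀ (hκ j)] at this
      linarith
    linarith
  let Q : E → ℝ := fun h => φ (z + h) + M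
  apply final_contra (E := E) (ι := J) θ hθ hθ1 (γ := γ) (R := R) (M := M) p hγ hR hM0 F
    (Q := Q)
  · -- continuity
    intro j
    simp only [F]
    fun_prop
  · intro j h
    simp only [F]
    exact mul_nonneg (inv_nonneg.2 (hκ j).le) (hnn _)
  · intro j
    simp only [F, smul_zero, add_zero, κ]
    have := j.2.2
    field_simp
  · intro j h hh
    simp only [F]
    rw [hφ0 _ (hRx j h hh), mul_zero]
  · intro j h
    simp only [F]
    by_cases hin : x j + κ j • h ∈ K
    · refine le_trans ?_ (le_max_left _ _)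
      rw [inv_mul_le_iff₀ (hκ j)]
      have h1 := hpφ _ hin
      have h2 : (inner ℝ p (x j + κ j • h - z) : ℝ) = inner ℝ p (x j - z) + κ j * inner ℝ p h := by
        rw [← inner_smul_right, ← inner_add_right]
        congr 1; abel
      rw [h2] at h1
      have h3 := hcontact j j.2.1
      have h4 : κ j * γ = φ (x j) := by simp only [κ]; field_simp
      nlinarith
    · rw [hφ0 _ (fun h' => hin (hDK h')), mul_zero]
      exact le_max_right _ _
  · simp only [Q]; fun_prop
  · intro h; simp only [Q]; linarith [hnn (z + h)]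
  · intro h hh
    simp only [Q]
    rw [hφ0 _ (hRz h hh), zero_add]
  · -- convexity condition
    intro ω ρ hρ hFρ s hs0 hs1
    -- second point
    let y : ι → E := fun i => if hi : P i then x i + (κ ⟨i, hi⟩ * ρ ⟨i, hi⟩) • ω else x i
    have hyJ : ∀ j : J, y j = x j + (κ j * ρ j) • ω := by
      intro j
      simp only [y]
      rw [dif_pos j.2]
    have hyN : ∀ i, ¬ P i → y i = x i := by
      intro i hi
      simp only [y]
      rw [dif_neg hi]
    have hyK : ∀ i, y i ∈ K := by
      intro i
      by_cases hi : P i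
      · have h1 := hFρ ⟨i, hi⟩
        simp only [F] at h1
        rw [smul_smul] at h1
        have h2 : 0 < φ (y i) := by
          rw [hyJ ⟨i, hi⟩]
          exact (pos_iff_pos_of_mul_pos h1).1 (inv_pos.2 (hκ _))
        by_contra h3
        rw [hφ0 _ (fun h' => h3 (hDK h'))] at h2
        exact lt_irrefl _ h2
      · rw [hyN i hi]; exact (hqx i).2
    have hmem : (∑ i, w i • y i, ∑ i, w i * φ (y i)) ∈ C := by
      have h1 : ∑ i, w i • (y i, φ (y i)) ∈ C :=
        hCconv.sum_mem (fun i _ => hw i) hw1 (fun i _ => hgraph _ (hyK i))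
      have h2 : ∑ i, w i • (y i, φ (y i)) = (∑ i, w i • y i, ∑ i, w i * φ (y i)) := by
        apply Prod.ext
        · rw [Prod.fst_sum]; simp
        · rw [Prod.snd_sum]; simp
      rw [← h2]; exact h1
    have hs1' : ∑ i, w i • y i = z + (∑ j, θ j * ρ j) • ω := by
      have h1 : ∑ i, w i • (y i - x i) = ∑ j : J, w j • (y j - x j) := by
        apply hsplitE
        intro i hi
        rw [hyN i hi, sub_self, smul_zero]
      have h2 : ∑ j : J, w j • (y j - x j) = (∑ j, θ j * ρ j) • ω := by
        rw [Finset.sum_smul]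
        apply Finset.sum_congr rfl
        intro j _
        rw [hyJ j, add_sub_cancel_left, smul_smul]
        congr 1
        simp only [θ]; ring
      have h3 : ∑ i, w i • (y i - x i) = ∑ i, w i • y i - z := by
        simp_rw [smul_sub]
        rw [Finset.sum_sub_distrib, hsum1]
      rw [← h2, ← h1, h3]; abel
    have hs2' : ∑ i, w i * φ (y i) = ∑ j, θ j * F j (ρ j • ω) := by
      have h1 : ∑ i, w i * φ (y i) = ∑ j : J, w j * φ (y j) := by
        apply hsplit
        intro i hi
        rw [hyN i hi]; exact hinactive i hi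
      rw [h1]
      apply Finset.sum_congr rfl
      intro j _
      simp only [F, θ]
      rw [hyJ j, smul_smul]
      have := (hκ j).ne'
      field_simp
    rw [hs1', hs2'] at hmem
    have h5 := hCconv hzC hmem (show 0 ≤ 1 - s by linarith) hs0 (by ring)
    rw [Prod.smul_mk, Prod.smul_mk, Prod.mk_add_mk] at h5
    have h6 := hmax' _ _ h5
    have h7 : (1 - s) • z + s • (z + (∑ j, θ j * ρ j) • ω) = z + (s * ∑ j, θ j * ρ j) • ω := by
      rw [smul_add, smul_smul, ← add_assoc, ← add_smul]
      simp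
    rw [h7] at h6
    simp only [smul_eq_mul] at h6
    simp only [Q]
    linarith
  · -- pv for F
    intro j
    have h1 := hpv (x j) (hJD j)
    have h2 : Tendsto (fun ε : ℝ => κ j * ε) (𝓝[>] (0:ℝ)) (𝓝[>] (0:ℝ)) := by
      apply tendsto_nhdsWithin_of_tendsto_nhds_of_eventually_within
      · have : Tendsto (fun ε : ℝ => κ j * ε) (𝓝 0) (𝓝 (κ j * 0)) :=
          (continuous_const.mul continuous_id).tendsto 0
        rw [mul_zero] at this
        exact this.mono_left nhdsWithin_le_nhds
      · filter_upwards [self_mem_nhdsWithin] with ε hε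
        exact mul_pos (hκ j) hε
    have h3 := h1.comp h2
    apply h3.congr
    intro ε
    simp only [Function.comp_apply]
    rw [pv_scale φ (x j) (hκ j)]
    simp only [F]
    have h4 : (κ j)⁻¹ * φ (x j) = γ := by
      simp only [κ]
      have := j.2.2
      field_simp
    rw [h4]
  · -- pv for Q
    have h1 := hpv z hzD
    apply h1.congr
    intro ε
    have h2 := pv_scale (ε := ε) φ z (one_pos)
    rw [one_mul] at h2
    rw [h2]
    simp only [inv_one, one_mul, one_smul, Q, M]
    apply integral_congr_ae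
    filter_upwards with h
    congr 1; ring

end Pool.Agent.H3.HalfLap
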