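import Mathlib

/-! Analytic functions in the strip `0 ≤ Re z ≤ π` which are nearly `π`-antiperiodic are nearly
`c1 exp(iz) + c2 exp(-iz)`  (helper3; lemma (5.1) of G2A.md, MP_fe58d8). -/

namespace H3.Strip
open Complex MeasureTheory Set

/-- contour integral over the boundary of `[0,π] × [-Y,Y]` -/
noncomputable def bd (Y : ℝ) (F : ℂ → ℂ) : ℂ :=
  (∫ x : ℝ in (0 : ℝ)..Real.pi, F (x + ((-Y : ℝ) : ℂ) * I)) -
    (∫ x : ℝ in (0 : ℝ)..Real.pi, F (x + (Y : ℂ) * I)) +
    I * (∫ y : ℝ in (-Y)..Y, F ((Real.pi : ℂ) + y * I)) -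
    I * (∫ y : ℝ in (-Y)..Y, F (((0 : ℝ) : ℂ) + y * I))

/-- the closed rectangle -/
def R (Y : ℝ) : Set ℂ := {z | 0 ≤ z.re ∧ z.re ≤ Real.pi ∧ -Y ≤ z.im ∧ z.im ≤ Y}

theorem sin_ne {u : ℂ} (h : |u.re| < Real.pi) (h0 : u ≠ 0) : sin u ≠ 0 := by
  intro hs
  rw [Complex.sin_eq_zero_iff] at hs
  obtain ⟨k, hk⟩ := hs
  have hre : u.re = k * Real.pi := by
    rw [hk]; simp
  rw [hre, abs_mul, abs_of_pos Real.pi_pos] at h
  have h1 : |(k : ℝ)| < 1 := by
    by_contra h2
    push Not at h2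
    nlinarith [Real.pi_pos]
  have h2 : |k| < 1 := by exact_mod_cast h1
  have h3 : k = 0 := Int.abs_lt_one_iff.1 h2
  apply h0
  rw [hk, h3]; simp

theorem bd_zero {Y : ℝ} (hY : 0 ≤ Y) (F : ℂ → ℂ) (φ : ℂ) (hc : ContinuousOn F (R Y))
    (hd : ∀ z, 0 < z.re → z.re < Real.pi → -Y < z.im → z.im < Y → z ≠ φ → DifferentiableAt ℂ F z) :
    bd Y F = 0 := by
  have h := integral_boundary_rect_eq_zero_of_differentiable_on_off_countable F
    (⟨0, -Y⟩ : ℂ) (⟨Real.pi, Y⟩ : ℂ) {φ} (countable_singleton φ) ?_ ?_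
  · unfold bd
    simpa only [smul_eq_mul] using h
  · have : (uIcc (0 : ℝ) Real.pi ×ℂ uIcc (-Y) Y) = R Y := by
      rw [uIcc_of_le Real.pi_pos.le, uIcc_of_le (by linarith)]
      ext z
      simp only [mem_reProdIm, mem_Icc, R, mem_ofPred_eq]
      tauto
    simp only
    rw [this]
    exact hc
  · intro x hx
    obtain ⟨hx1, hx2⟩ := hx
    rw [mem_reProdIm] at hx1
    simp only [min_eq_left Real.pi_pos.le, max_eq_right Real.pi_pos.le,
      min_eq_left (by linarith : -Y ≤ Y), max_eq_right (by linarith : -Y ≤ Y), mem_Ioo] at hx1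
    exact hd x hx1.1.1 hx1.1.2 hx1.2.1 hx1.2.2 (by simpa using hx2)

/-- integrability of the four sides -/
def Good (Y : ℝ) (F : ℂ → ℂ) : Prop :=
  IntervalIntegrable (fun x : ℝ => F (x + ((-Y : ℝ) : ℂ) * I)) volume 0 Real.pi ∧
  IntervalIntegrable (fun x : ℝ => F (x + (Y : ℂ) * I)) volume 0 Real.pi ∧
  IntervalIntegrable (fun y : ℝ => F ((Real.pi : ℂ) + y * I)) volume (-Y) Y ∧
  IntervalIntegrable (fun y : ℝ => F (((0 : ℝ) : ℂ) + y * I)) volume (-Y) Y

/-- the boundary of the rectangle -/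
def Bd (Y : ℝ) : Set ℂ := {z | z ∈ R Y ∧ (z.re = 0 ∨ z.re = Real.pi ∨ z.im = -Y ∨ z.im = Y)}

theorem good_of {Y : ℝ} (hY : 0 ≤ Y) {F : ℂ → ℂ} (hc : ContinuousOn F (Bd Y)) : Good Y F := by
  have hpi := Real.pi_pos.le
  have hYY : -Y ≤ Y := by linarith
  refine ⟨?_, ?_, ?_, ?_⟩ <;> apply ContinuousOn.intervalIntegrable
  · rw [uIcc_of_le hpi]
    refine hc.comp (by fun_prop) fun x hx => ?_
    simp only [Bd, R, mem_ofPred_eq, add_re, ofReal_re, mul_re, I_re, mul_zero, ofReal_im, I_im,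
      mul_one, sub_self, add_zero, add_im, mul_im, zero_add, mem_Icc] at hx ⊢
    exact ⟨⟨hx.1, hx.2, by linarith, by linarith⟩, by tauto⟩
  · rw [uIcc_of_le hpi]
    refine hc.comp (by fun_prop) fun x hx => ?_
    simp only [Bd, R, mem_ofPred_eq, add_re, ofReal_re, mul_re, I_re, mul_zero, ofReal_im, I_im,
      mul_one, sub_self, add_zero, add_im, mul_im, zero_add, mem_Icc] at hx ⊢
    exact ⟨⟨hx.1, hx.2, by linarith, by linarith⟩, by tauto⟩
  · rw [uIcc_of_le hYY]
    refine hc.comp (by fun_prop) fun x hx => ?_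
    simp only [Bd, R, mem_ofPred_eq, add_re, ofReal_re, mul_re, I_re, mul_zero, ofReal_im, I_im,
      mul_one, sub_self, add_zero, add_im, mul_im, zero_add, mem_Icc] at hx ⊢
    exact ⟨⟨hpi, le_rfl, hx.1, hx.2⟩, by tauto⟩
  · rw [uIcc_of_le hYY]
    refine hc.comp (by fun_prop) fun x hx => ?_
    simp only [Bd, R, mem_ofPred_eq, add_re, ofReal_re, mul_re, I_re, mul_zero, ofReal_im, I_im,
      mul_one, sub_self, add_zero, add_im, mul_im, zero_add, mem_Icc] at hx ⊢
    exact ⟨⟨le_rfl, hpi, hx.1, hx.2⟩, by tauto⟩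

theorem bd_sub {Y : ℝ} {F G : ℂ → ℂ} (hF : Good Y F) (hG : Good Y G) :
    bd Y (fun z => F z - G z) = bd Y F - bd Y G := by
  unfold bd
  rw [intervalIntegral.integral_sub hF.1 hG.1, intervalIntegral.integral_sub hF.2.1 hG.2.1,
    intervalIntegral.integral_sub hF.2.2.1 hG.2.2.1, intervalIntegral.integral_sub hF.2.2.2 hG.2.2.2]
  ring

theorem bd_const_mul {Y : ℝ} (c : ℂ) (F : ℂ → ℂ) : bd Y (fun z => c * F z) = c * bd Y F := by
  unfold bd
  simp only [intervalIntegral.integral_const_mul]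
  ring

theorem bd_congr {Y : ℝ} (hY : 0 ≤ Y) {F G : ℂ → ℂ} (h : ∀ z ∈ Bd Y, F z = G z) :
    bd Y F = bd Y G := by
  have hpi := Real.pi_pos.le
  have hYY : -Y ≤ Y := by linarith
  unfold bd
  congr 1
  · congr 1
    · congr 1
      · apply intervalIntegral.integral_congr
        intro x hx
        rw [uIcc_of_le hpi] at hx
        apply h
        simp only [Bd, R, mem_ofPred_eq, add_re, ofReal_re, mul_re, I_re, mul_zero, ofReal_im, I_im,
          mul_one, sub_self, add_zero, add_im, mul_im, zero_add, mem_Icc] at hx ⊢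
        exact ⟨⟨hx.1, hx.2, by linarith, by linarith⟩, by tauto⟩
      · apply intervalIntegral.integral_congr
        intro x hx
        rw [uIcc_of_le hpi] at hx
        apply h
        simp only [Bd, R, mem_ofPred_eq, add_re, ofReal_re, mul_re, I_re, mul_zero, ofReal_im, I_im,
          mul_one, sub_self, add_zero, add_im, mul_im, zero_add, mem_Icc] at hx ⊢
        exact ⟨⟨hx.1, hx.2, by linarith, by linarith⟩, by tauto⟩
    · congr 1
      apply intervalIntegral.integral_congr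
      intro x hx
      rw [uIcc_of_le hYY] at hx
      apply h
      simp only [Bd, R, mem_ofPred_eq, add_re, ofReal_re, mul_re, I_re, mul_zero, ofReal_im, I_im,
        mul_one, sub_self, add_zero, add_im, mul_im, zero_add, mem_Icc] at hx ⊢
      exact ⟨⟨hpi, le_rfl, hx.1, hx.2⟩, by tauto⟩
  · congr 1
    apply intervalIntegral.integral_congr
    intro x hx
    rw [uIcc_of_le hYY] at hx
    apply h
    simp only [Bd, R, mem_ofPred_eq, add_re, ofReal_re, mul_re, I_re, mul_zero, ofReal_im, I_im,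
      mul_one, sub_self, add_zero, add_im, mul_im, zero_add, mem_Icc] at hx ⊢
    exact ⟨⟨le_rfl, hpi, hx.1, hx.2⟩, by tauto⟩

/-- interior point -/
structure Inn (Y : ℝ) (φ : ℂ) : Prop where
  re0 : 0 < φ.re
  re1 : φ.re < Real.pi
  im0 : -Y < φ.im
  im1 : φ.im < Y

theorem Inn.ne {Y : ℝ} {φ z : ℂ} (h : Inn Y φ) (hz : z ∈ Bd Y) : z ≠ φ := by
  rintro rfl
  obtain ⟨-, hz⟩ := hz
  have h0 := h.re0; have h1 := h.re1; have h2 := h.im0; have h3 := h.im1
  rcases hz with h' | h' | h' | h' <;> linarith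

theorem Inn.sin_ne {Y : ℝ} {φ z : ℂ} (h : Inn Y φ) (hz : z ∈ R Y) (hne : z ≠ φ) :
    sin (z - φ) ≠ 0 := by
  apply Strip.sin_ne
  · rw [sub_re, abs_lt]
    have h0 := h.re0; have h1 := h.re1
    obtain ⟨h2, h3, -, -⟩ := hz
    constructor <;> linarith
  · exact sub_ne_zero.2 hne

theorem cauchy_sin {Y : ℝ} (hY : 0 ≤ Y) {X : ℂ → ℂ} {φ : ℂ} (hφ : Inn Y φ)
    (hX : ∀ z ∈ R Y, DifferentiableAt ℂ X z) :
    bd Y (fun z => X z / sin (z - φ)) = X φ * bd Y (fun z => 1 / sin (z - φ)) := by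
  have hφR : φ ∈ R Y := ⟨hφ.re0.le, hφ.re1.le, hφ.im0.le, hφ.im1.le⟩
  set S : ℂ → ℂ := fun z => dslope sin 0 (z - φ) with hS
  have hSne : ∀ z ∈ R Y, S z ≠ 0 := by
    intro z hz
    by_cases h : z = φ
    · rw [hS]; simp only [h, sub_self, dslope_same]
      rw [Complex.deriv_sin]; simp
    · have h1 : z - φ ≠ 0 := sub_ne_zero.2 h
      rw [hS]; simp only
      rw [dslope_of_ne _ h1, slope_def_field]
      simp only [sin_zero, sub_zero]
      exact div_ne_zero (hφ.sin_ne hz h) h1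
  have hScont : ∀ z, ContinuousAt S z := by
    intro z
    rw [hS]
    have h1 : ContinuousAt (dslope sin 0) (z - φ) := by
      by_cases h : z - φ = 0
      · rw [h]; exact continuousAt_dslope_same.2 Complex.differentiable_sin.differentiableAt
      · exact (continuousAt_dslope_of_ne h).2 Complex.continuous_sin.continuousAt
    exact ContinuousAt.comp (f := fun z => z - φ) (g := dslope sin 0) h1 (by fun_prop)
  have h0 : bd Y (fun z => dslope X φ z / S z) = 0 := by
    apply bd_zero hY _ φ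
    · intro z hz
      apply ContinuousAt.continuousWithinAt
      refine ContinuousAt.div ?_ (hScont z) (hSne z hz)
      by_cases h : z = φ
      · rw [h]; exact continuousAt_dslope_same.2 (hX φ hφR)
      · exact (continuousAt_dslope_of_ne h).2 (hX z hz).continuousAt
    · intro z h1 h2 h3 h4 hne
      have hz : z ∈ R Y := ⟨h1.le, h2.le, h3.le, h4.le⟩
      refine DifferentiableAt.div ?_ ?_ (hSne z hz)
      · exact (differentiableAt_dslope_of_ne hne).2 (hX z hz)
      · rw [hS]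
        have h5 : DifferentiableAt ℂ (dslope sin 0) (z - φ) :=
          (differentiableAt_dslope_of_ne (sub_ne_zero.2 hne)).2
            Complex.differentiable_sin.differentiableAt
        exact DifferentiableAt.comp z h5 (by fun_prop)
  have h1 : bd Y (fun z => dslope X φ z / S z)
      = bd Y (fun z => X z / sin (z - φ) - X φ * (1 / sin (z - φ))) := by
    apply bd_congr hY
    intro z hz
    have hne := hφ.ne hz
    have hs := hφ.sin_ne hz.1 hne
    have h2 : z - φ ≠ 0 := sub_ne_zero.2 hne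
    rw [hS]
    simp only
    rw [dslope_of_ne _ hne, dslope_of_ne _ h2, slope_def_field, slope_def_field]
    simp only [sin_zero, sub_zero]
    field_simp
  have hsin : ContinuousOn (fun z => 1 / sin (z - φ)) (Bd Y) := by
    intro z hz
    apply ContinuousAt.continuousWithinAt
    refine ContinuousAt.div (by fun_prop) (by fun_prop) (hφ.sin_ne hz.1 (hφ.ne hz))
  have hXc : ContinuousOn (fun z => X z / sin (z - φ)) (Bd Y) := by
    intro z hz
    apply ContinuousAt.continuousWithinAt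
    exact ContinuousAt.div (hX z hz.1).continuousAt (by fun_prop) (hφ.sin_ne hz.1 (hφ.ne hz))
  have h2 := bd_sub (good_of hY hXc) (G := fun z => X φ * (1 / sin (z - φ)))
    (good_of hY (continuousOn_const.mul hsin))
  rw [h1, h2, bd_const_mul] at h0
  exact sub_eq_zero.1 h0

theorem int_cot_pos {c : ℂ} (hc : 0 < c.im) :
    ∫ x : ℝ in (0 : ℝ)..Real.pi, cos (x + c) / sin (x + c) = -(Real.pi * I) := by
  have hn : ∀ x : ℝ, ‖cexp (2 * I * (x + c))‖ < 1 := by
    intro x
    rw [Complex.norm_exp]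
    have : (2 * I * (x + c)).re = -2 * c.im := by simp
    rw [this, Real.exp_lt_one_iff]
    linarith
  have hre : ∀ x : ℝ, (1 - cexp (2 * I * (x + c))) ∈ slitPlane := by
    intro x
    left
    rw [sub_re, one_re]
    have := (abs_re_le_norm (cexp (2 * I * (x + c)))).trans_lt (hn x)
    have := (abs_lt.1 this).2
    linarith
  have hsin : ∀ x : ℝ, sin (x + c) ≠ 0 := by
    intro x h
    have h1 : (1 - cexp (2 * I * (x + c))) = 0 := by
      have h2 : cexp (2 * I * (x + c)) = cexp (I * (x + c)) * cexp (I * (x + c)) := by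
        rw [← Complex.exp_add]; ring_nf
      have h3 : sin (x + c) = (cexp (-(x + c) * I) - cexp ((x + c) * I)) * I / 2 := by
        rw [Complex.sin]
      rw [h] at h3
      have h4 : cexp (-(x + c) * I) - cexp ((x + c) * I) = 0 := by
        have : (cexp (-(x + c) * I) - cexp ((x + c) * I)) * I = 0 := by
          linear_combination (-2) * h3
        rcases mul_eq_zero.1 this with h | h
        · exact h
        · exact absurd h I_ne_zero
      have h5 : cexp (-(x + c) * I) = cexp ((x + c) * I) := sub_eq_zero.1 h4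
      have h6 : cexp (I * (x + c)) = cexp ((x + c) * I) := by ring_nf
      rw [h2, h6]
      have h7 : cexp (-(x + c) * I) * cexp ((x + c) * I) = 1 := by
        rw [← Complex.exp_add]; ring_nf; exact Complex.exp_zero
      rw [h5] at h7
      rw [h7, sub_self]
    exact slitPlane_ne_zero (hre x) h1
  have hder : ∀ x : ℝ, HasDerivAt (fun x : ℝ => -I * x + log (1 - cexp (2 * I * (x + c))))
      (cos (x + c) / sin (x + c)) x := by
    intro x
    have h1 : HasDerivAt (fun z : ℂ => -I * z + log (1 - cexp (2 * I * (z + c))))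
        (-I + -(cexp (2 * I * ((x : ℂ) + c)) * (2 * I)) / (1 - cexp (2 * I * ((x : ℂ) + c)))) (x : ℂ) := by
      have h2 : HasDerivAt (fun z : ℂ => 1 - cexp (2 * I * (z + c)))
          (-(cexp (2 * I * ((x : ℂ) + c)) * (2 * I))) (x : ℂ) := by
        have h3 : HasDerivAt (fun z : ℂ => 2 * I * (z + c)) (2 * I) (x : ℂ) := by
          simpa using ((hasDerivAt_id (x : ℂ)).add_const c).const_mul (2 * I)
        exact (h3.cexp).const_sub 1
      have h4 : HasDerivAt (fun z : ℂ => -I * z) (-I) (x : ℂ) := by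
        simpa using (hasDerivAt_id (x : ℂ)).const_mul (-I)
      exact h4.add (h2.clog (hre x))
    have h5 : (-I + -(cexp (2 * I * ((x : ℂ) + c)) * (2 * I)) / (1 - cexp (2 * I * ((x : ℂ) + c))))
        = cos (x + c) / sin (x + c) := by
      have hne := slitPlane_ne_zero (hre x)
      have hs := hsin x
      set u : ℂ := (x : ℂ) + c with hu
      set a : ℂ := cexp (u * I) with ha
      set b : ℂ := cexp (-u * I) with hb
      have hab : a * b = 1 := by
        rw [ha, hb, ← Complex.exp_add]; ring_nf; exact Complex.exp_zero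
      have he : cexp (2 * I * u) = a ^ 2 := by
        rw [ha, ← Complex.exp_nat_mul]; congr 1; push_cast; ring
      have hcos : cos u = (a + b) / 2 := by rw [Complex.cos]
      have hsn : sin u = (b - a) * I / 2 := by rw [Complex.sin]
      rw [he] at hne ⊢
      rw [hsn] at hs
      rw [hcos, hsn, eq_div_iff hs, add_mul, div_mul_eq_mul_div, ← mul_left_inj' hne, add_mul,
        div_mul_cancel₀ _ hne]
      linear_combination a * hab + (-(1 : ℂ) / 2 * (1 + a ^ 2) * (b - a)) * I_sq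
    rw [← h5]
    exact h1.comp_ofReal
  rw [intervalIntegral.integral_eq_sub_of_hasDerivAt (fun x _ => hder x)]
  · have hp : cexp (2 * I * ((Real.pi : ℂ) + c)) = cexp (2 * I * (((0 : ℝ) : ℂ) + c)) := by
      have : 2 * I * ((Real.pi : ℂ) + c) = 2 * I * (((0 : ℝ) : ℂ) + c) + 2 * Real.pi * I := by
        push_cast; ring
      rw [this, Complex.exp_periodic]
    rw [hp]
    push_cast
    ring
  · apply Continuous.intervalIntegrable
    refine Continuous.div (by fun_prop) (by fun_prop) hsin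

theorem int_cot_neg {c : ℂ} (hc : c.im < 0) :
    ∫ x : ℝ in (0 : ℝ)..Real.pi, cos (x + c) / sin (x + c) = Real.pi * I := by
  have h := int_cot_pos (c := -c) (by simpa using hc)
  have h2 : ∫ x : ℝ in (0 : ℝ)..Real.pi, cos (x + c) / sin (x + c)
      = ∫ x : ℝ in (0 : ℝ)..Real.pi, -(cos (x + -c) / sin (x + -c)) := by
    have h3 := intervalIntegral.integral_comp_sub_left
      (fun x : ℝ => cos (x + c) / sin (x + c)) (a := 0) (b := Real.pi) Real.pi
    rw [sub_self, sub_zero] at h3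
    rw [← h3]
    apply intervalIntegral.integral_congr
    intro x _
    simp only
    have h4 : (((Real.pi - x : ℝ)) : ℂ) + c = Real.pi - (x + -c) := by push_cast; ring
    rw [h4, Complex.cos_pi_sub, Complex.sin_pi_sub, neg_div]
  rw [h2, intervalIntegral.integral_neg, h]
  ring

theorem bd_one_div {Y : ℝ} (hY : 0 ≤ Y) {φ : ℂ} (hφ : Inn Y φ) :
    bd Y (fun z => 1 / sin (z - φ)) = 2 * Real.pi * I := by
  have h := cauchy_sin hY hφ (X := fun z => cos (z - φ)) (fun z _ => by fun_prop)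
  simp only [sub_self, Complex.cos_zero, one_mul] at h
  rw [← h]
  unfold bd
  have e1 : ∫ x : ℝ in (0 : ℝ)..Real.pi, cos (((x : ℂ) + ((-Y : ℝ) : ℂ) * I) - φ) /
      sin (((x : ℂ) + ((-Y : ℝ) : ℂ) * I) - φ) = Real.pi * I := by
    have := int_cot_neg (c := ((-Y : ℝ) : ℂ) * I - φ) (by
      simp only [sub_im, mul_im, ofReal_re, I_im, mul_one, ofReal_im, I_re, mul_zero, add_zero]
      have := hφ.im0; linarith)
    rw [← this]
    apply intervalIntegral.integral_congr
    intro x _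
    simp only [add_sub_assoc]
  have e2 : ∫ x : ℝ in (0 : ℝ)..Real.pi, cos (((x : ℂ) + (Y : ℂ) * I) - φ) /
      sin (((x : ℂ) + (Y : ℂ) * I) - φ) = -(Real.pi * I) := by
    have := int_cot_pos (c := (Y : ℂ) * I - φ) (by
      simp only [sub_im, mul_im, ofReal_re, I_im, mul_one, ofReal_im, I_re, mul_zero, add_zero]
      have := hφ.im1; linarith)
    rw [← this]
    apply intervalIntegral.integral_congr
    intro x _
    simp only [add_sub_assoc]
  have e3 : ∫ y : ℝ in (-Y)..Y, cos (((Real.pi : ℂ) + y * I) - φ) / sin (((Real.pi : ℂ) + y * I) - φ)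
      = ∫ y : ℝ in (-Y)..Y, cos ((((0 : ℝ) : ℂ) + y * I) - φ) / sin ((((0 : ℝ) : ℂ) + y * I) - φ) := by
    apply intervalIntegral.integral_congr
    intro y _
    simp only
    have h4 : ((Real.pi : ℂ) + y * I) - φ = ((((0 : ℝ) : ℂ) + y * I) - φ) + Real.pi := by
      push_cast; ring
    rw [h4, Complex.cos_add_pi, Complex.sin_add_pi, neg_div_neg_eq]
  rw [e1, e2, e3]
  ring

/-- Cauchy formula with the kernel `1 / sin` -/
theorem cauchy {Y : ℝ} (hY : 0 ≤ Y) {X : ℂ → ℂ} {φ : ℂ} (hφ : Inn Y φ)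
    (hX : ∀ z ∈ R Y, DifferentiableAt ℂ X z) :
    2 * Real.pi * I * X φ =
      (∫ x : ℝ in (0 : ℝ)..Real.pi, X (x + ((-Y : ℝ) : ℂ) * I) / sin (x + ((-Y : ℝ) : ℂ) * I - φ)) -
      (∫ x : ℝ in (0 : ℝ)..Real.pi, X (x + (Y : ℂ) * I) / sin (x + (Y : ℂ) * I - φ)) -
      I * (∫ y : ℝ in (-Y)..Y, (X (y * I) + X (Real.pi + y * I)) / sin (y * I - φ)) := by
  have h := cauchy_sin hY hφ hX
  rw [bd_one_div hY hφ] at h
  have hXc : ContinuousOn (fun z => X z / sin (z - φ)) (Bd Y) := by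
    intro z hz
    apply ContinuousAt.continuousWithinAt
    exact ContinuousAt.div (hX z hz.1).continuousAt (by fun_prop) (hφ.sin_ne hz.1 (hφ.ne hz))
  obtain ⟨-, -, g3, g4⟩ := good_of hY hXc
  have hJ : (∫ y : ℝ in (-Y)..Y, X ((Real.pi : ℂ) + y * I) / sin ((Real.pi : ℂ) + y * I - φ)) -
      (∫ y : ℝ in (-Y)..Y, X (((0 : ℝ) : ℂ) + y * I) / sin (((0 : ℝ) : ℂ) + y * I - φ)) =
      -(∫ y : ℝ in (-Y)..Y, (X (y * I) + X (Real.pi + y * I)) / sin (y * I - φ)) := by
    rw [← intervalIntegral.integral_sub g3 g4, ← intervalIntegral.integral_neg]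
    apply intervalIntegral.integral_congr
    intro y _
    simp only
    have h4 : ((Real.pi : ℂ) + y * I) - φ = ((y * I) - φ) + Real.pi := by ring
    have h5 : ((((0 : ℝ) : ℂ) + y * I)) = y * I := by push_cast; ring
    rw [h4, h5, Complex.sin_add_pi]
    ring
  unfold bd at h
  linear_combination (-1 : ℂ) * h + I * hJ

theorem exp_I_eq (u : ℂ) : cexp (I * u) * cexp (-(I * u)) = 1 := by
  rw [← Complex.exp_add, add_neg_cancel, Complex.exp_zero]

theorem two_I_sin (u : ℂ) : 2 * I * sin u = cexp (I * u) - cexp (-(I * u)) := by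
  rw [Complex.sin]
  have h1 : cexp (-u * I) = cexp (-(I * u)) := by congr 1; ring
  have h2 : cexp (u * I) = cexp (I * u) := by congr 1; ring
  rw [h1, h2]
  linear_combination (cexp (-(I * u)) - cexp (I * u)) * I_sq

theorem ker_pos {u : ℂ} (hs : sin u ≠ 0) :
    1 / sin u - (-(2 * I) * cexp (I * u)) = cexp (2 * I * u) / sin u := by
  have h1 : cexp (2 * I * u) = cexp (I * u) * cexp (I * u) := by
    rw [← Complex.exp_add]; congr 1; ring
  rw [h1, eq_div_iff hs, sub_mul, div_mul_cancel₀ _ hs]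
  linear_combination cexp (I * u) * two_I_sin u - exp_I_eq u

theorem ker_neg {u : ℂ} (hs : sin u ≠ 0) :
    1 / sin u - 2 * I * cexp (-(I * u)) = cexp (-(2 * I * u)) / sin u := by
  have h1 : cexp (-(2 * I * u)) = cexp (-(I * u)) * cexp (-(I * u)) := by
    rw [← Complex.exp_add]; congr 1; ring
  rw [h1, eq_div_iff hs, sub_mul, div_mul_cancel₀ _ hs]
  linear_combination (-cexp (-(I * u))) * two_I_sin u - exp_I_eq u

theorem side_neg {a b : ℝ} {z D : ℝ → ℂ} {φ : ℂ} (hz : Continuous z)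
    (hD : ContinuousOn D (uIcc a b)) (hs : ∀ x ∈ uIcc a b, sin (z x - φ) ≠ 0) :
    (∫ x in a..b, D x / sin (z x - φ)) -
      (∫ x in a..b, D x * (2 * I * cexp (-(I * z x)))) * cexp (I * φ) =
    ∫ x in a..b, D x * (cexp (-(2 * I * (z x - φ))) / sin (z x - φ)) := by
  rw [← intervalIntegral.integral_mul_const, ← intervalIntegral.integral_sub]
  · apply intervalIntegral.integral_congr
    intro x hx
    simp only
    rw [← ker_neg (hs x hx)]
    have h1 : cexp (-(I * (z x - φ))) = cexp (-(I * z x)) * cexp (I * φ) := by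
      rw [← Complex.exp_add]; congr 1; ring
    rw [h1]
    ring
  · apply ContinuousOn.intervalIntegrable
    exact hD.div (by fun_prop) hs
  · apply ContinuousOn.intervalIntegrable
    exact (hD.mul (by fun_prop)).mul (by fun_prop)

theorem side_pos {a b : ℝ} {z D : ℝ → ℂ} {φ : ℂ} (hz : Continuous z)
    (hD : ContinuousOn D (uIcc a b)) (hs : ∀ x ∈ uIcc a b, sin (z x - φ) ≠ 0) :
    (∫ x in a..b, D x / sin (z x - φ)) -
      (∫ x in a..b, D x * (-(2 * I) * cexp (I * z x))) * cexp (-(I * φ)) =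
    ∫ x in a..b, D x * (cexp (2 * I * (z x - φ)) / sin (z x - φ)) := by
  rw [← intervalIntegral.integral_mul_const, ← intervalIntegral.integral_sub]
  · apply intervalIntegral.integral_congr
    intro x hx
    simp only
    rw [← ker_pos (hs x hx)]
    have h1 : cexp (I * (z x - φ)) = cexp (I * z x) * cexp (-(I * φ)) := by
      rw [← Complex.exp_add]; congr 1; ring
    rw [h1]
    ring
  · apply ContinuousOn.intervalIntegrable
    exact hD.div (by fun_prop) hs
  · apply ContinuousOn.intervalIntegrable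
    exact (hD.mul (by fun_prop)).mul (by fun_prop)

theorem norm_sin_ge (u : ℂ) : |Real.sin u.re| * (Real.exp |u.im| / 2) ≤ ‖sin u‖ := by
  have h1 : (sin u).re = Real.sin u.re * Real.cosh u.im := by
    rw [Complex.sin_eq u]
    simp [Complex.sin_ofReal_re, Complex.cosh_ofReal_re, Complex.sin_ofReal_im,
      Complex.cosh_ofReal_im, Complex.cos_ofReal_im, Complex.sinh_ofReal_im,
      Complex.sinh_ofReal_re, Complex.cos_ofReal_re]
  have h2 := abs_re_le_norm (sin u)
  rw [h1, abs_mul, abs_of_pos (Real.cosh_pos _)] at h2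
  refine le_trans (mul_le_mul_of_nonneg_left ?_ (abs_nonneg _)) h2
  rw [← Real.cosh_abs, Real.cosh_eq]
  have := Real.exp_pos (-|u.im|)
  linarith

theorem norm_sin_ge' {u : ℂ} (hu : 1 ≤ |u.im|) : Real.exp |u.im| / 4 ≤ ‖sin u‖ := by
  have h1 : (sin u).re = Real.sin u.re * Real.cosh u.im := by
    rw [Complex.sin_eq u]
    simp [Complex.sin_ofReal_re, Complex.cosh_ofReal_re, Complex.sin_ofReal_im,
      Complex.cosh_ofReal_im, Complex.cos_ofReal_im, Complex.sinh_ofReal_im,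
      Complex.sinh_ofReal_re, Complex.cos_ofReal_re]
  have h2 : (sin u).im = Real.cos u.re * Real.sinh u.im := by
    rw [Complex.sin_eq u]
    simp [Complex.sin_ofReal_re, Complex.cosh_ofReal_re, Complex.sin_ofReal_im,
      Complex.cosh_ofReal_im, Complex.cos_ofReal_im, Complex.sinh_ofReal_im,
      Complex.sinh_ofReal_re, Complex.cos_ofReal_re]
  have h3 : Real.sinh u.im ^ 2 ≤ ‖sin u‖ ^ 2 := by
    rw [← Complex.normSq_eq_norm_sq, Complex.normSq_apply, h1, h2]
    have h4 := Real.sin_sq_add_cos_sq u.re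
    have h5 := Real.cosh_sq u.im
    nlinarith [sq_nonneg (Real.sin u.re), sq_nonneg (Real.sinh u.im)]
  have h4 : |Real.sinh u.im| ≤ ‖sin u‖ := by
    have := sq_le_sq.1 h3
    rwa [abs_of_nonneg (norm_nonneg _)] at this
  refine le_trans ?_ h4
  rw [Real.abs_sinh, Real.sinh_eq]
  have h5 : Real.exp (-|u.im|) ≤ Real.exp |u.im| / 2 := by
    have h6 : Real.exp (-|u.im|) ≤ 1 := Real.exp_le_one_iff.2 (by linarith)
    have h7 : (2 : ℝ) ≤ Real.exp |u.im| := by
      have := Real.add_one_le_exp |u.im|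
      linarith
    linarith
  linarith

/-- `∫ exp(-q|y-y0|) ≤ 2/q` -/
theorem int_exp_abs {q a b y0 : ℝ} (hq : 0 < q) (h1 : a ≤ y0) (h2 : y0 ≤ b) :
    ∫ y in a..b, Real.exp (-q * |y - y0|) ≤ 2 / q := by
  have hc : Continuous fun y : ℝ => Real.exp (-q * |y - y0|) := by fun_prop
  rw [← intervalIntegral.integral_add_adjacent_intervals (hc.intervalIntegrable a y0)
    (hc.intervalIntegrable y0 b)]
  have e1 : ∫ y in a..y0, Real.exp (-q * |y - y0|) = (1 - Real.exp (q * (a - y0))) / q := by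
    have h3 : ∫ y in a..y0, Real.exp (-q * |y - y0|) = ∫ y in a..y0, Real.exp (q * (y - y0)) := by
      apply intervalIntegral.integral_congr
      intro y hy
      rw [uIcc_of_le h1] at hy
      simp only
      rw [abs_of_nonpos (by linarith [hy.2])]
      congr 1; ring
    have hd : ∀ y ∈ uIcc a y0, HasDerivAt (fun y => Real.exp (q * (y - y0)) / q)
        (Real.exp (q * (y - y0))) y := by
      intro y _
      have h4 : HasDerivAt (fun y : ℝ => q * (y - y0)) q y := by
        simpa using ((hasDerivAt_id y).sub_const y0).const_mul q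
      have h5 := h4.exp.div_const q
      rwa [mul_div_assoc, div_self hq.ne', mul_one] at h5
    rw [h3, intervalIntegral.integral_eq_sub_of_hasDerivAt hd
      (Continuous.intervalIntegrable (by fun_prop) _ _)]
    simp only [sub_self, mul_zero, Real.exp_zero]
    ring
  have e2 : ∫ y in y0..b, Real.exp (-q * |y - y0|) = (1 - Real.exp (-q * (b - y0))) / q := by
    have h3 : ∫ y in y0..b, Real.exp (-q * |y - y0|) = ∫ y in y0..b, Real.exp (-q * (y - y0)) := by
      apply intervalIntegral.integral_congr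
      intro y hy
      rw [uIcc_of_le h2] at hy
      simp only
      rw [abs_of_nonneg (by linarith [hy.1])]
    have hd : ∀ y ∈ uIcc y0 b, HasDerivAt (fun y => -(Real.exp (-q * (y - y0)) / q))
        (Real.exp (-q * (y - y0))) y := by
      intro y _
      have h4 : HasDerivAt (fun y : ℝ => -q * (y - y0)) (-q) y := by
        simpa using ((hasDerivAt_id y).sub_const y0).const_mul (-q)
      have h5 := (h4.exp.div_const q).neg
      have h6 : -(Real.exp (-q * (y - y0)) * -q / q) = Real.exp (-q * (y - y0)) := by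
        rw [mul_neg, neg_div, neg_neg, mul_div_assoc, div_self hq.ne', mul_one]
      rw [h6] at h5
      exact h5
    rw [h3, intervalIntegral.integral_eq_sub_of_hasDerivAt hd
      (Continuous.intervalIntegrable (by fun_prop) _ _)]
    simp only [sub_self, mul_zero, Real.exp_zero]
    ring
  rw [e1, e2, ← add_div]
  gcongr
  have := Real.exp_pos (q * (a - y0))
  have := Real.exp_pos (-q * (b - y0))
  linarith

theorem norm_exp_2I (u : ℂ) : ‖cexp (2 * I * u)‖ = Real.exp (-2 * u.im) := by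
  rw [Complex.norm_exp]; congr 1; simp
theorem norm_exp_2I' (u : ℂ) : ‖cexp (-(2 * I * u))‖ = Real.exp (2 * u.im) := by
  rw [Complex.norm_exp]; congr 1; simp

/-- exponent bookkeeping -/
theorem expo_pos {p q y y0 : ℝ} (hq1 : q ≤ p - 1) (hq2 : q ≤ 3 - p) (hp : 0 < p) (hy : 0 ≤ y) :
    p * y - 2 * (y - y0) - |y - y0| ≤ p * |y0| - q * |y - y0| := by
  rcases le_total y0 y with h | h
  · rw [abs_of_nonneg (by linarith : 0 ≤ y - y0)]
    have h1 : y0 ≤ |y0| := le_abs_self y0
    nlinarith [mul_nonneg (sub_nonneg.2 hq2) (sub_nonneg.2 h), mul_le_mul_of_nonneg_left h1 hp.le]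
  · rw [abs_of_nonpos (by linarith : y - y0 ≤ 0), abs_of_nonneg (by linarith : 0 ≤ y0)]
    nlinarith [mul_nonneg (sub_nonneg.2 hq1) (sub_nonneg.2 h)]

theorem expo_neg {p q y y0 : ℝ} (hq1 : q ≤ p - 1) (hq2 : q ≤ 3 - p) (hp : 0 < p) (hy : y ≤ 0) :
    p * (-y) + 2 * (y - y0) - |y - y0| ≤ p * |y0| - q * |y - y0| := by
  have := expo_pos (p := p) (q := q) (y := -y) (y0 := -y0) hq1 hq2 hp (by linarith)
  rw [abs_neg] at this
  have h2 : |-y - -y0| = |y - y0| := by rw [← abs_neg]; congr 1; ring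
  rw [h2] at this
  linarith

/-- **Main estimate**, interior points. -/
theorem strip {p q ε Y M A : ℝ} (hp : 0 < p) (hq : 0 < q) (hq1 : q ≤ p - 1) (hq2 : q ≤ 3 - p)
    (hε : 0 < ε) (hε2 : ε ≤ Real.pi / 2) (hY : 1 ≤ Y) (hM : 0 ≤ M) (hA : 0 ≤ A) {X : ℂ → ℂ}
    (hX : ∀ z : ℂ, 0 ≤ z.re → z.re ≤ Real.pi → |z.im| ≤ Y → DifferentiableAt ℂ X z)
    (hXM : ∀ z : ℂ, 0 ≤ z.re → z.re ≤ Real.pi → |z.im| ≤ Y → ‖X z‖ ≤ M)
    (hJ : ∀ y : ℝ, |y| ≤ Y → ‖X (y * I) + X (Real.pi + y * I)‖ ≤ A * Real.exp (p * (|y| - Y))) :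
    ∃ c1 c2 : ℂ, ∀ z : ℂ, ε ≤ z.re → z.re ≤ Real.pi - ε → |z.im| ≤ Y - 1 →
      ‖X z - c1 * cexp (I * z) - c2 * cexp (-(I * z))‖ ≤
        (4 * M + 2 * A / (q * Real.sin ε)) * Real.exp (p * (|z.im| - Y)) := by
  have hpi := Real.pi_pos
  have hY0 : 0 ≤ Y := by linarith
  have hYY : -Y ≤ Y := by linarith
  have hsε : 0 < Real.sin ε := Real.sin_pos_of_pos_of_lt_pi hε (by linarith)
  set D : ℝ → ℂ := fun y => X (y * I) + X (Real.pi + y * I) with hD
  set b : ℂ := ∫ x in (0 : ℝ)..Real.pi, X (x + ((-Y : ℝ) : ℂ) * I) *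
    (2 * I * cexp (-(I * (x + ((-Y : ℝ) : ℂ) * I)))) with hb
  set t : ℂ := ∫ x in (0 : ℝ)..Real.pi, X (x + (Y : ℂ) * I) *
    (-(2 * I) * cexp (I * (x + (Y : ℂ) * I))) with ht
  set j1 : ℂ := ∫ y in (-Y)..0, D y * (2 * I * cexp (-(I * (y * I)))) with hj1
  set j2 : ℂ := ∫ y in (0 : ℝ)..Y, D y * (-(2 * I) * cexp (I * (y * I))) with hj2
  have h2pi : (2 * Real.pi * I : ℂ) ≠ 0 := by
    simp [Real.pi_ne_zero]
  refine ⟨(b - I * j1) / (2 * Real.pi * I), (-t - I * j2) / (2 * Real.pi * I), ?_⟩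
  intro φ hφ1 hφ2 hφ3
  have him := abs_le.1 hφ3
  have hφ : Inn Y φ := ⟨by linarith, by linarith, by linarith, by linarith⟩
  have hXR : ∀ z ∈ R Y, DifferentiableAt ℂ X z := fun z hz =>
    hX z hz.1 hz.2.1 (abs_le.2 ⟨hz.2.2.1, hz.2.2.2⟩)
  have hcau := cauchy hY0 hφ hXR
  -- continuity of D
  have hDc : ContinuousOn D (Icc (-Y) Y) := by
    intro y hy
    apply ContinuousAt.continuousWithinAt
    have hc1 : ContinuousAt X ((y : ℂ) * I) :=
      (hX _ (by simp) (by simpa using hpi.le) (by simpa using abs_le.2 ⟨hy.1, hy.2⟩)).continuousAt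
    have hc2 : ContinuousAt X ((Real.pi : ℂ) + y * I) :=
      (hX _ (by simpa using hpi.le) (by simp) (by simpa using abs_le.2 ⟨hy.1, hy.2⟩)).continuousAt
    have hc3 : ContinuousAt (fun y : ℝ => X ((y : ℂ) * I)) y :=
      ContinuousAt.comp (f := fun y : ℝ => ((y : ℂ) * I)) hc1 (by fun_prop)
    have hc4 : ContinuousAt (fun y : ℝ => X ((Real.pi : ℂ) + (y : ℂ) * I)) y :=
      ContinuousAt.comp (f := fun y : ℝ => ((Real.pi : ℂ) + (y : ℂ) * I)) hc2 (by fun_prop)
    exact hc3.add hc4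
  have hsJ : ∀ y ∈ Icc (-Y) Y, sin ((y : ℂ) * I - φ) ≠ 0 := by
    intro y hy
    apply hφ.sin_ne
    · refine ⟨by simp, by simpa using hpi.le, by simpa using hy.1, by simpa using hy.2⟩
    · intro h
      have := congrArg re h
      simp at this
      linarith [hφ.re0]
  have hsT : ∀ x ∈ uIcc (0 : ℝ) Real.pi, sin ((x : ℂ) + (Y : ℂ) * I - φ) ≠ 0 := by
    intro x hx
    rw [uIcc_of_le hpi.le] at hx
    apply hφ.sin_ne
    · refine ⟨by simpa using hx.1, by simpa using hx.2, by simpa using hYY, by simp⟩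
    · intro h
      have := congrArg im h
      simp at this
      linarith [hφ.im1]
  have hsB : ∀ x ∈ uIcc (0 : ℝ) Real.pi, sin ((x : ℂ) + ((-Y : ℝ) : ℂ) * I - φ) ≠ 0 := by
    intro x hx
    rw [uIcc_of_le hpi.le] at hx
    apply hφ.sin_ne
    · refine ⟨by simpa using hx.1, by simpa using hx.2, by simp, by simpa using hYY⟩
    · intro h
      have := congrArg im h
      simp at this
      linarith [hφ.im0]
  have hXB : ContinuousOn (fun x : ℝ => X ((x : ℂ) + ((-Y : ℝ) : ℂ) * I)) (uIcc (0 : ℝ) Real.pi) := by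
    intro x hx
    rw [uIcc_of_le hpi.le] at hx
    apply ContinuousAt.continuousWithinAt
    have hc1 : ContinuousAt X ((x : ℂ) + ((-Y : ℝ) : ℂ) * I) :=
      (hX _ (by simpa using hx.1) (by simpa using hx.2)
        (by simp [abs_of_nonneg hY0])).continuousAt
    exact ContinuousAt.comp (f := fun x : ℝ => ((x : ℂ) + ((-Y : ℝ) : ℂ) * I)) hc1 (by fun_prop)
  have hXT : ContinuousOn (fun x : ℝ => X ((x : ℂ) + (Y : ℂ) * I)) (uIcc (0 : ℝ) Real.pi) := by
    intro x hx
    rw [uIcc_of_le hpi.le] at hx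
    apply ContinuousAt.continuousWithinAt
    have hc1 : ContinuousAt X ((x : ℂ) + (Y : ℂ) * I) :=
      (hX _ (by simpa using hx.1) (by simpa using hx.2)
        (by simp [abs_of_nonneg hY0])).continuousAt
    exact ContinuousAt.comp (f := fun x : ℝ => ((x : ℂ) + (Y : ℂ) * I)) hc1 (by fun_prop)
  have hB := side_neg (φ := φ) (z := fun x : ℝ => (x : ℂ) + ((-Y : ℝ) : ℂ) * I) (by fun_prop) hXB hsB
  have hT := side_pos (φ := φ) (z := fun x : ℝ => (x : ℂ) + (Y : ℂ) * I) (by fun_prop) hXT hsT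
  have hsub1 : uIcc (-Y) 0 ⊆ Icc (-Y) Y := by
    rw [uIcc_of_le (by linarith)]; exact Icc_subset_Icc le_rfl hY0
  have hsub2 : uIcc 0 Y ⊆ Icc (-Y) Y := by
    rw [uIcc_of_le hY0]; exact Icc_subset_Icc (by linarith) le_rfl
  have hJ1 := side_neg (φ := φ) (z := fun y : ℝ => (y : ℂ) * I) (by fun_prop) (hDc.mono hsub1)
    (fun y hy => hsJ y (hsub1 hy))
  have hJ2 := side_pos (φ := φ) (z := fun y : ℝ => (y : ℂ) * I) (by fun_prop) (hDc.mono hsub2)
    (fun y hy => hsJ y (hsub2 hy))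
  have hDs : ContinuousOn (fun y : ℝ => D y / sin ((y : ℂ) * I - φ)) (Icc (-Y) Y) :=
    hDc.div (by fun_prop) hsJ
  have hsplit : (∫ y : ℝ in (-Y)..Y, (X (y * I) + X (Real.pi + y * I)) / sin (y * I - φ)) =
      (∫ y : ℝ in (-Y)..0, D y / sin (y * I - φ)) + ∫ y : ℝ in (0 : ℝ)..Y, D y / sin (y * I - φ) := by
    rw [intervalIntegral.integral_add_adjacent_intervals]
    · exact (hDs.mono hsub1).intervalIntegrable
    · exact (hDs.mono hsub2).intervalIntegrable
  rw [← hb] at hB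
  rw [← ht] at hT
  rw [← hj1] at hJ1
  rw [← hj2] at hJ2
  rw [hsplit] at hcau
  set B' := ∫ x in (0 : ℝ)..Real.pi, X ((x : ℂ) + ((-Y : ℝ) : ℂ) * I) *
    (cexp (-(2 * I * ((x : ℂ) + ((-Y : ℝ) : ℂ) * I - φ))) / sin ((x : ℂ) + ((-Y : ℝ) : ℂ) * I - φ))
    with hB'
  set T' := ∫ x in (0 : ℝ)..Real.pi, X ((x : ℂ) + (Y : ℂ) * I) *
    (cexp (2 * I * ((x : ℂ) + (Y : ℂ) * I - φ)) / sin ((x : ℂ) + (Y : ℂ) * I - φ)) with hT'
  set J1' := ∫ y in (-Y)..0, D y * (cexp (-(2 * I * ((y : ℂ) * I - φ))) / sin ((y : ℂ) * I - φ))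
    with hJ1'
  set J2' := ∫ y in (0 : ℝ)..Y, D y * (cexp (2 * I * ((y : ℂ) * I - φ)) / sin ((y : ℂ) * I - φ))
    with hJ2'
  have hmain : X φ - (b - I * j1) / (2 * Real.pi * I) * cexp (I * φ) -
      (-t - I * j2) / (2 * Real.pi * I) * cexp (-(I * φ)) =
      (B' - T' - I * (J1' + J2')) / (2 * Real.pi * I) := by
    rw [eq_div_iff h2pi, sub_mul, sub_mul]
    have e1 : (b - I * j1) / (2 * Real.pi * I) * cexp (I * φ) * (2 * Real.pi * I) =
        (b - I * j1) * cexp (I * φ) := by field_simp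
    have e2 : (-t - I * j2) / (2 * Real.pi * I) * cexp (-(I * φ)) * (2 * Real.pi * I) =
        (-t - I * j2) * cexp (-(I * φ)) := by field_simp
    rw [e1, e2, ← hB, ← hT, ← hJ1, ← hJ2]
    linear_combination hcau
  -- bounds
  set E := Real.exp (p * (|φ.im| - Y)) with hE
  have hEpos : 0 < E := Real.exp_pos _
  have hkey : ∀ u : ℂ, 1 ≤ |u.im| → Y - |φ.im| ≤ |u.im| →
      Real.exp (-2 * |u.im|) / ‖sin u‖ ≤ 4 * E := by
    intro u hu1 hu2
    have h1 := norm_sin_ge' hu1
    have h2 : 0 < Real.exp |u.im| / 4 := by positivity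
    have h3 : Real.exp (-2 * |u.im|) / ‖sin u‖ ≤ Real.exp (-2 * |u.im|) / (Real.exp |u.im| / 4) := by
      gcongr
    refine h3.trans ?_
    have h4 : Real.exp (-2 * |u.im|) / (Real.exp |u.im| / 4) = 4 * Real.exp (-3 * |u.im|) := by
      rw [show -3 * |u.im| = -2 * |u.im| - |u.im| by ring, Real.exp_sub]
      have := (Real.exp_pos |u.im|).ne'
      field_simp
    rw [h4, hE]
    have h5 : -3 * |u.im| ≤ p * (|φ.im| - Y) := by nlinarith
    have := Real.exp_le_exp.2 h5
    linarith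
  have bB : ‖B'‖ ≤ 4 * M * E * Real.pi := by
    rw [hB']
    have h1 : ∀ x ∈ uIoc (0 : ℝ) Real.pi, ‖X ((x : ℂ) + ((-Y : ℝ) : ℂ) * I) *
        (cexp (-(2 * I * ((x : ℂ) + ((-Y : ℝ) : ℂ) * I - φ))) /
          sin ((x : ℂ) + ((-Y : ℝ) : ℂ) * I - φ))‖ ≤ 4 * M * E := by
      intro x hx
      rw [uIoc_of_le hpi.le] at hx
      rw [norm_mul, norm_div, norm_exp_2I']
      have hu : ((x : ℂ) + ((-Y : ℝ) : ℂ) * I - φ).im = -Y - φ.im := by simp
      have h2 := hkey ((x : ℂ) + ((-Y : ℝ) : ℂ) * I - φ) (by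
        rw [hu, abs_of_nonpos (by linarith : -Y - φ.im ≤ 0)]; linarith) (by
        rw [hu, abs_of_nonpos (by linarith : -Y - φ.im ≤ 0)]
        have := neg_le_abs φ.im
        linarith)
      rw [hu, abs_of_nonpos (by linarith : -Y - φ.im ≤ 0)] at h2
      rw [hu]
      rw [show -2 * -(-Y - φ.im) = 2 * (-Y - φ.im) by ring] at h2
      have h3 := hXM ((x : ℂ) + ((-Y : ℝ) : ℂ) * I) (by simpa using hx.1.le) (by simpa using hx.2)
        (by simp [abs_of_nonneg hY0])
      calc _ ≤ M * (4 * E) := mul_le_mul h3 h2 (by positivity) hM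
        _ = _ := by ring
    have h2 := intervalIntegral.norm_integral_le_of_norm_le_const h1
    rwa [sub_zero, abs_of_pos hpi] at h2
  have bT : ‖T'‖ ≤ 4 * M * E * Real.pi := by
    rw [hT']
    have h1 : ∀ x ∈ uIoc (0 : ℝ) Real.pi, ‖X ((x : ℂ) + (Y : ℂ) * I) *
        (cexp (2 * I * ((x : ℂ) + (Y : ℂ) * I - φ)) /
          sin ((x : ℂ) + (Y : ℂ) * I - φ))‖ ≤ 4 * M * E := by
      intro x hx
      rw [uIoc_of_le hpi.le] at hx
      rw [norm_mul, norm_div, norm_exp_2I]
      have hu : ((x : ℂ) + (Y : ℂ) * I - φ).im = Y - φ.im := by simp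
      have h2 := hkey ((x : ℂ) + (Y : ℂ) * I - φ) (by
        rw [hu, abs_of_nonneg (by linarith : 0 ≤ Y - φ.im)]; linarith) (by
        rw [hu, abs_of_nonneg (by linarith : 0 ≤ Y - φ.im)]
        have := le_abs_self φ.im
        linarith)
      rw [hu, abs_of_nonneg (by linarith : 0 ≤ Y - φ.im)] at h2
      rw [hu]
      have h3 := hXM ((x : ℂ) + (Y : ℂ) * I) (by simpa using hx.1.le) (by simpa using hx.2)
        (by simp [abs_of_nonneg hY0])
      calc _ ≤ M * (4 * E) := mul_le_mul h3 h2 (by positivity) hM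
        _ = _ := by ring
    have h2 := intervalIntegral.norm_integral_le_of_norm_le_const h1
    rwa [sub_zero, abs_of_pos hpi] at h2
  -- the jump
  have hsφ : Real.sin ε ≤ Real.sin φ.re := by
    rcases le_total φ.re (Real.pi / 2) with h | h
    · exact Real.sin_le_sin_of_le_of_le_pi_div_two (by linarith) h hφ1
    · rw [← Real.sin_pi_sub φ.re]
      exact Real.sin_le_sin_of_le_of_le_pi_div_two (by linarith) (by linarith) (by linarith)
  have hsu : ∀ y : ℝ, Real.sin ε * (Real.exp |y - φ.im| / 2) ≤ ‖sin ((y : ℂ) * I - φ)‖ := by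
    intro y
    have h1 := norm_sin_ge ((y : ℂ) * I - φ)
    have hre : ((y : ℂ) * I - φ).re = -φ.re := by simp
    have him' : ((y : ℂ) * I - φ).im = y - φ.im := by simp
    rw [hre, him', Real.sin_neg, abs_neg] at h1
    refine le_trans ?_ h1
    have := le_abs_self (Real.sin φ.re)
    gcongr
    linarith
  set G : ℝ → ℝ := fun y => 2 * A / Real.sin ε * E * Real.exp (-q * |y - φ.im|) with hG
  have hGc : Continuous G := by rw [hG]; fun_prop
  have hJb : ∀ y ∈ Icc (-Y) Y, ∀ e : ℝ, e - |y - φ.im| + p * |y| ≤ p * |φ.im| - q * |y - φ.im| →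
      ‖D y‖ * (Real.exp e / ‖sin ((y : ℂ) * I - φ)‖) ≤ G y := by
    intro y hy e he
    have h1 := hJ y (abs_le.2 hy)
    have h2 := hsu y
    have h3 : 0 < Real.sin ε * (Real.exp |y - φ.im| / 2) := by positivity
    have h4 : Real.exp e / ‖sin ((y : ℂ) * I - φ)‖ ≤
        Real.exp e / (Real.sin ε * (Real.exp |y - φ.im| / 2)) := by gcongr
    have h5 : ‖D y‖ * (Real.exp e / ‖sin ((y : ℂ) * I - φ)‖) ≤
        A * Real.exp (p * (|y| - Y)) * (Real.exp e / (Real.sin ε * (Real.exp |y - φ.im| / 2))) :=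
      mul_le_mul h1 h4 (by positivity) (by positivity)
    refine h5.trans ?_
    have h6 : A * Real.exp (p * (|y| - Y)) * (Real.exp e / (Real.sin ε * (Real.exp |y - φ.im| / 2)))
        = 2 * A / Real.sin ε * Real.exp (p * (|y| - Y) + e - |y - φ.im|) := by
      rw [Real.exp_sub, Real.exp_add]
      have := (Real.exp_pos |y - φ.im|).ne'
      field_simp
    rw [h6, hG]
    simp only
    rw [mul_assoc (2 * A / Real.sin ε), hE, ← Real.exp_add]
    apply mul_le_mul_of_nonneg_left _ (by positivity)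
    apply Real.exp_le_exp.2
    nlinarith
  have bJ1 : ‖J1'‖ ≤ ∫ y in (-Y)..0, G y := by
    rw [hJ1']
    apply intervalIntegral.norm_integral_le_of_norm_le (by linarith) _
      (hGc.intervalIntegrable _ _)
    refine Filter.Eventually.of_forall fun y hy => ?_
    rw [norm_mul, norm_div, norm_exp_2I']
    have him' : ((y : ℂ) * I - φ).im = y - φ.im := by simp
    rw [him']
    apply hJb y ⟨hy.1.le, by linarith [hy.2]⟩
    have := expo_neg (p := p) (q := q) (y := y) (y0 := φ.im) hq1 hq2 hp hy.2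
    rw [abs_of_nonpos hy.2]
    linarith
  have bJ2 : ‖J2'‖ ≤ ∫ y in (0 : ℝ)..Y, G y := by
    rw [hJ2']
    apply intervalIntegral.norm_integral_le_of_norm_le (by linarith) _
      (hGc.intervalIntegrable _ _)
    refine Filter.Eventually.of_forall fun y hy => ?_
    rw [norm_mul, norm_div, norm_exp_2I]
    have him' : ((y : ℂ) * I - φ).im = y - φ.im := by simp
    rw [him']
    apply hJb y ⟨by linarith [hy.1], hy.2⟩
    have := expo_pos (p := p) (q := q) (y := y) (y0 := φ.im) hq1 hq2 hp hy.1.le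
    rw [abs_of_nonneg hy.1.le]
    linarith
  have bJ : ‖J1'‖ + ‖J2'‖ ≤ 2 * A / Real.sin ε * E * (2 / q) := by
    have h1 : (∫ y in (-Y)..0, G y) + ∫ y in (0 : ℝ)..Y, G y = ∫ y in (-Y)..Y, G y :=
      intervalIntegral.integral_add_adjacent_intervals (hGc.intervalIntegrable _ _)
        (hGc.intervalIntegrable _ _)
    have h2 : ∫ y in (-Y)..Y, G y =
        2 * A / Real.sin ε * E * ∫ y in (-Y)..Y, Real.exp (-q * |y - φ.im|) := by
      rw [hG, intervalIntegral.integral_const_mul]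
    have h3 := int_exp_abs hq (a := -Y) (b := Y) (y0 := φ.im) (by linarith) (by linarith)
    calc _ ≤ ∫ y in (-Y)..Y, G y := by rw [← h1]; linarith
      _ ≤ _ := by rw [h2]; gcongr
  rw [hmain, norm_div]
  have hn : ‖(2 * Real.pi * I : ℂ)‖ = 2 * Real.pi := by
    simp [abs_of_pos hpi]
  rw [hn, div_le_iff₀ (by positivity)]
  have h1 : ‖B' - T' - I * (J1' + J2')‖ ≤ ‖B'‖ + ‖T'‖ + (‖J1'‖ + ‖J2'‖) := by
    have h2 := norm_sub_le (B' - T') (I * (J1' + J2'))
    have h3 := norm_sub_le B' T'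
    have h4 : ‖I * (J1' + J2')‖ ≤ ‖J1'‖ + ‖J2'‖ := by
      rw [norm_mul, norm_I, one_mul]; exact norm_add_le _ _
    linarith
  have h5 : 2 * A / Real.sin ε * E * (2 / q) ≤ 2 * A / (q * Real.sin ε) * E * (2 * Real.pi) := by
    have h6 : 2 * A / Real.sin ε * E * (2 / q) = 2 * A / (q * Real.sin ε) * E * 2 := by
      field_simp
    rw [h6]
    have : (2 : ℝ) ≤ 2 * Real.pi := by linarith [Real.pi_gt_three]
    gcongr
  calc _ ≤ 4 * M * E * Real.pi + 4 * M * E * Real.pi + 2 * A / Real.sin ε * E * (2 / q) := by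
        linarith
    _ ≤ _ := by nlinarith

theorem norm_sin_le (z : ℂ) : ‖sin z‖ ≤ Real.exp |z.im| := by
  have h := two_I_sin z
  have h1 : ‖2 * I * sin z‖ = 2 * ‖sin z‖ := by simp
  have h2 : ‖cexp (I * z)‖ ≤ Real.exp |z.im| := by
    rw [Complex.norm_exp]
    apply Real.exp_le_exp.2
    have := neg_le_abs z.im
    simpa using this
  have h3 : ‖cexp (-(I * z))‖ ≤ Real.exp |z.im| := by
    rw [Complex.norm_exp]
    apply Real.exp_le_exp.2
    have := le_abs_self z.im
    simpa using this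
  have h4 := norm_sub_le (cexp (I * z)) (cexp (-(I * z)))
  rw [← h, h1] at h4
  linarith

/-- **Main estimate for functions symmetric under `z ↦ π - z`** (rows next to an unmarked flat
wall): the function is `sin z` times its value at `π/2`, up to the error. -/
theorem strip_sym {p q ε Y M A : ℝ} (hp : 1 ≤ p) (hq : 0 < q) (hq1 : q ≤ p - 1) (hq2 : q ≤ 3 - p)
    (hε : 0 < ε) (hε2 : ε ≤ Real.pi / 2) (hY : 1 ≤ Y) (hM : 0 ≤ M) (hA : 0 ≤ A) {X : ℂ → ℂ}
    (hX : ∀ z : ℂ, 0 ≤ z.re → z.re ≤ Real.pi → |z.im| ≤ Y → DifferentiableAt ℂ X z)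
    (hXM : ∀ z : ℂ, 0 ≤ z.re → z.re ≤ Real.pi → |z.im| ≤ Y → ‖X z‖ ≤ M)
    (hJ : ∀ y : ℝ, |y| ≤ Y → ‖X (y * I) + X (Real.pi + y * I)‖ ≤ A * Real.exp (p * (|y| - Y)))
    (hS : ∀ z : ℂ, 0 ≤ z.re → z.re ≤ Real.pi → |z.im| ≤ Y → X (Real.pi - z) = X z)
    {z : ℂ} (hz1 : ε ≤ z.re) (hz2 : z.re ≤ Real.pi - ε) (hz3 : |z.im| ≤ Y - 1) :
    ‖X z - sin z * X ((Real.pi / 2 : ℝ) : ℂ)‖ ≤
      2 * (4 * M + 2 * A / (q * Real.sin ε)) * Real.exp (p * (|z.im| - Y)) := by
  have hpi := Real.pi_pos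
  obtain ⟨c1, c2, h⟩ := strip (by linarith) hq hq1 hq2 hε hε2 hY hM hA hX hXM hJ
  set C0 := 4 * M + 2 * A / (q * Real.sin ε) with hC0
  have hsε : 0 < Real.sin ε := Real.sin_pos_of_pos_of_lt_pi hε (by linarith)
  have hC0' : 0 ≤ C0 := by positivity
  have h1 := h z hz1 hz2 hz3
  have h2 := h (Real.pi - z) (by simp; linarith) (by simp; linarith) (by simpa using hz3)
  have h3 := h ((Real.pi / 2 : ℝ) : ℂ) (by simpa using hε2) (by simp; linarith)
    (by simpa using hY)
  rw [hS z (by linarith) (by linarith) (by linarith)] at h2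
  have him2 : (Real.pi - z : ℂ).im = -z.im := by simp
  rw [him2, abs_neg] at h2
  have him3 : (((Real.pi / 2 : ℝ) : ℂ)).im = 0 := ofReal_im _
  rw [him3, abs_zero, zero_sub] at h3
  have e1 : cexp (I * (Real.pi - z)) = -cexp (-(I * z)) := by
    rw [show I * (Real.pi - z) = Real.pi * I + -(I * z) by ring, Complex.exp_add, Complex.exp_pi_mul_I]
    ring
  have e2 : cexp (-(I * (Real.pi - z))) = -cexp (I * z) := by
    rw [show -(I * (Real.pi - z)) = I * z + -(Real.pi * I) by ring, Complex.exp_add, Complex.exp_neg,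
      Complex.exp_pi_mul_I]
    norm_num
  have e3 : cexp (I * ((Real.pi / 2 : ℝ) : ℂ)) = I := by
    have : I * ((Real.pi / 2 : ℝ) : ℂ) = Real.pi / 2 * I := by push_cast; ring
    rw [this, Complex.exp_pi_div_two_mul_I]
  have e4 : cexp (-(I * ((Real.pi / 2 : ℝ) : ℂ))) = -I := by
    rw [Complex.exp_neg, e3, Complex.inv_I]
  rw [e1, e2] at h2
  rw [e3, e4] at h3
  set r1 := X z - c1 * cexp (I * z) - c2 * cexp (-(I * z)) with hr1
  set r2 := X z - c1 * -cexp (-(I * z)) - c2 * -cexp (I * z) with hr2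
  set r3 := X ((Real.pi / 2 : ℝ) : ℂ) - c1 * I - c2 * -I with hr3
  have key : X z - sin z * X ((Real.pi / 2 : ℝ) : ℂ) = (r1 + r2) / 2 - sin z * r3 := by
    have h5 := two_I_sin z
    rw [hr1, hr2, hr3]
    linear_combination ((c2 - c1) / 2) * h5
  rw [key]
  have h6 : ‖(r1 + r2) / 2‖ ≤ C0 * Real.exp (p * (|z.im| - Y)) := by
    rw [norm_div]
    have := norm_add_le r1 r2
    have h8 : ‖(2 : ℂ)‖ = 2 := by simp
    rw [h8]
    linarith
  have h7 : ‖sin z * r3‖ ≤ C0 * Real.exp (p * (|z.im| - Y)) := by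
    rw [norm_mul]
    have h8 := norm_sin_le z
    calc ‖sin z‖ * ‖r3‖ ≤ Real.exp |z.im| * (C0 * Real.exp (p * -Y)) :=
          mul_le_mul h8 h3 (norm_nonneg _) (Real.exp_pos _).le
      _ = C0 * Real.exp (|z.im| + p * -Y) := by rw [Real.exp_add]; ring
      _ ≤ _ := by
          apply mul_le_mul_of_nonneg_left _ hC0'
          apply Real.exp_le_exp.2
          nlinarith [abs_nonneg z.im]
  have h8 := norm_sub_le ((r1 + r2) / 2) (sin z * r3)
  linarith

end H3.Strip
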