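import Mathlib

/-!
Algebraically independent elements over small subfields.
-/

namespace Pool.Agent.H3.Wild

open Cardinal

universe u

variable {F : Type u} [Field F]

lemma cardinal_bot : #(⊥ : Subfield F) ≤ ℵ₀ := by
  have h := Subfield.cardinalMk_closure_le_max (∅ : Set F)
  rw [Subfield.closure_empty] at h
  simpa using h

lemma cardinal_eq_trdeg (hF : ∃ x : ℕ → F, AlgebraicIndependent (⊥ : Subfield F) x) :
    #F = Algebra.trdeg (⊥ : Subfield F) F ∧ ℵ₀ ≤ #F := by
  obtain ⟨x0, hx0⟩ := hF
  have h1 : ℵ₀ ≤ Algebra.trdeg (⊥ : Subfield F) F := by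
    have := hx0.lift_cardinalMk_le_trdeg
    simpa using this
  obtain ⟨ι, x, hx⟩ := exists_isTranscendenceBasis' (⊥ : Subfield F) F
  have h2 : Algebra.IsAlgebraic (IntermediateField.adjoin (⊥ : Subfield F) (Set.range x)) F :=
    hx.isAlgebraic_field
  have h3 : #F ≤ #(IntermediateField.adjoin (⊥ : Subfield F) (Set.range x)) ⊔ ℵ₀ :=
    Algebra.IsAlgebraic.cardinalMk_le_max _ _
  have h4 := IntermediateField.cardinalMk_adjoin_le (⊥ : Subfield F) (Set.range x)
  have h5 : #(Set.range x) = #ι := mk_range_eq x hx.1.injective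
  have h6 : #ι = Algebra.trdeg (⊥ : Subfield F) F := hx.cardinalMk_eq_trdeg
  have h7 : Algebra.trdeg (⊥ : Subfield F) F ≤ #F := by
    rw [← h6]
    exact mk_le_of_injective hx.1.injective
  have h8 : #F ≤ Algebra.trdeg (⊥ : Subfield F) F := by
    refine h3.trans (sup_le (h4.trans (sup_le (sup_le ?_ ?_) h1)) h1)
    · exact cardinal_bot.trans h1
    · rw [h5, h6]
  exact ⟨le_antisymm h8 h7, h1.trans h7⟩

/-- over a small subfield there are finite algebraically independent families of any size -/
lemma exists_algebraicIndependent (hF : ∃ x : ℕ → F, AlgebraicIndependent (⊥ : Subfield F) x)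
    (s : Set F) (hs : #s < #F) (σ : Type) [Finite σ] :
    ∃ z : σ → F, AlgebraicIndependent (IntermediateField.adjoin (⊥ : Subfield F) s) z := by
  obtain ⟨hcard, hinf⟩ := cardinal_eq_trdeg hF
  obtain ⟨ι, x, hx⟩ := exists_isTranscendenceBasis'
    (IntermediateField.adjoin (⊥ : Subfield F) s) F
  cases finite_or_infinite ι with
  | inr hι =>
    obtain ⟨m, ⟨e⟩⟩ := Finite.exists_equiv_fin σ
    let emb : σ ↪ ι := e.toEmbedding.trans (Fin.valEmbedding.trans (Infinite.natEmbedding ι))
    exact ⟨x ∘ emb, hx.1.comp emb emb.injective⟩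
  | inl hι =>
    exfalso
    have h1 : Algebra.IsAlgebraic (IntermediateField.adjoin
        (IntermediateField.adjoin (⊥ : Subfield F) s) (Set.range x)) F := hx.isAlgebraic_field
    have h2 : Algebra.IsAlgebraic ((IntermediateField.adjoin
        (IntermediateField.adjoin (⊥ : Subfield F) s) (Set.range x)).restrictScalars
          (⊥ : Subfield F)) F := h1
    rw [IntermediateField.adjoin_adjoin_left, IntermediateField.isAlgebraic_adjoin_iff_top] at h2
    have h3 := Algebra.IsAlgebraic.trdeg_le_cardinalMk (⊥ : Subfield F) (s ∪ Set.range x)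
    rw [← hcard] at h3
    have h4 : #(s ∪ Set.range x : Set F) < #F := by
      refine (mk_union_le _ _).trans_lt (add_lt_of_lt hinf hs ?_)
      refine lt_of_lt_of_le ?_ hinf
      rw [lt_aleph0_iff_set_finite]
      exact Set.finite_range x
    exact absurd h3 (not_le.mpr h4)

end Pool.Agent.H3.Wild
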