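import Pool.Agent.H3.WildGen2

/-!
The extension step: adding one generic element with prescribed values on two points.
-/

namespace Pool.Agent.H3.Wild

open Module Matrix IsLocalRing

variable {F : Type*} [Field F] {n : ℕ}

section val

/-- a valuation ring containing a subfield and having a transcendental element as a pole -/
lemma exists_valuation {K : Type*} [Field K] [Algebra K F] {t : F} (ht : Transcendental K t) :
    ∃ A : ValuationSubring F, (∀ x : K, algebraMap K F x ∈ A) ∧
      ∃ τ : A, (τ : F) = t⁻¹ ∧ residue A τ = 0 := by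
  have ht0 : t ≠ 0 := by
    rintro rfl
    exact ht isAlgebraic_zero
  let R := Algebra.adjoin K {t⁻¹}
  let r : R.toSubring := ⟨t⁻¹, Algebra.subset_adjoin rfl⟩
  have hI : Ideal.span {r} ≠ ⊤ := by
    intro h
    rw [Ideal.eq_top_iff_one, Ideal.mem_span_singleton'] at h
    obtain ⟨⟨a, ha⟩, hr⟩ := h
    have hr' : a * t⁻¹ = 1 := congrArg Subtype.val hr
    have ha' : a ∈ Algebra.adjoin K {t⁻¹} := ha
    rw [Algebra.adjoin_singleton_eq_range_aeval] at ha'
    obtain ⟨p, hp⟩ := ha'
    have hp' : Polynomial.aeval t⁻¹ p = a := hp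
    have halg : IsAlgebraic K t⁻¹ := by
      refine ⟨1 - p * Polynomial.X, ?_, ?_⟩
      · intro h0
        have := congrArg (fun q => Polynomial.eval 0 q) h0
        simp at this
      · simp [hp', hr']
    exact ht (IsAlgebraic.inv_iff.mp halg)
  obtain ⟨A, hA1, hA2⟩ := Ideal.image_subset_nonunits_valuationSubring _ hI
  have hr : t⁻¹ ∈ A.nonunits := hA2 ⟨r, Ideal.subset_span rfl, rfl⟩
  refine ⟨A, fun x => hA1 (R.algebraMap_mem x), ⟨t⁻¹, A.nonunits_subset hr⟩, rfl, ?_⟩
  rw [residue_eq_zero_iff]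
  have hr2 : t⁻¹ ∈ (A.nonunits : Set F) := hr
  rw [← A.image_maximalIdeal] at hr2
  obtain ⟨z, hz, hz'⟩ := hr2
  have : z = ⟨t⁻¹, A.nonunits_subset (hA2 ⟨r, Ideal.subset_span rfl, rfl⟩)⟩ := Subtype.ext hz'
  rw [← this]
  exact hz

end val

section generic

variable (K : Type*) [Field K] [Algebra K F] (i0 : Fin 2 → Fin n)

/-- the generic matrix with two standard columns -/
noncomputable def Xg : Matrix (Fin n) (Fin n) (MvPolynomial (Fin n × Fin n) K) := by
  classical
  exact fun a b => if ∃ j, i0 j = b then (if a = b then 1 else 0) else MvPolynomial.X (a, b)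

/-- the specialisation of the generic matrix -/
noncomputable def Xs (s : Fin n × Fin n → F) : Matrix (Fin n) (Fin n) F := by
  classical
  exact fun a b => if ∃ j, i0 j = b then (if a = b then 1 else 0) else s (a, b)

lemma Xg_map (s : Fin n × Fin n → F) :
    (Xg K i0).map (MvPolynomial.aeval s : MvPolynomial (Fin n × Fin n) K →ₐ[K] F) = Xs i0 s := by
  ext a b
  unfold Xg Xs
  rw [Matrix.map_apply]
  split_ifs <;> simp

variable {K} in
lemma Xs_of_gl {X : GL (Fin n) F} (hX : ∀ a, X.val *ᵥ Pi.single (i0 a) 1 = Pi.single (i0 a) 1) :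
    Xs i0 (fun p => X.val p.1 p.2) = X.val := by
  classical
  ext a b
  unfold Xs
  split_ifs with h1 h2
  · obtain ⟨j, rfl⟩ := h1
    subst h2
    have := congrFun (hX j) (i0 j)
    rw [mulVec_single_apply] at this
    simp [this]
  · obtain ⟨j, rfl⟩ := h1
    have := congrFun (hX j) a
    rw [mulVec_single_apply] at this
    rw [this, Pi.single_eq_of_ne h2]
  · rfl

variable {K} in
lemma Xs_mulVec (s : Fin n × Fin n → F) (a : Fin 2) :
    Xs i0 s *ᵥ Pi.single (i0 a) 1 = Pi.single (i0 a) 1 := by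
  classical
  ext b
  rw [mulVec_single_apply]
  unfold Xs
  rw [if_pos ⟨a, rfl⟩]
  by_cases h : b = i0 a
  · subst h; simp
  · rw [if_neg h, Pi.single_eq_of_ne h]

variable {K}

/-- the test polynomial -/
noncomputable def Q (h : GL (Fin n) K) (c c' : Fin 2 → Fin n) :
    MvPolynomial (Fin n × Fin n) K :=
  (((Xg K i0).adjugate * (h.val.map (MvPolynomial.C : K →+* MvPolynomial (Fin n × Fin n) K)) *
    Xg K i0).submatrix c c').det * (Xg K i0).det

lemma Q_eval (h : GL (Fin n) K) (c c' : Fin 2 → Fin n) (s : Fin n × Fin n → F) :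
    (MvPolynomial.aeval s : MvPolynomial (Fin n × Fin n) K →ₐ[K] F) (Q i0 h c c') =
      (((Xs i0 s).adjugate * (h.val.map (algebraMap K F)) * Xs i0 s).submatrix c c').det *
        (Xs i0 s).det := by
  unfold Q
  rw [map_mul, ← Xg_map K i0 s]
  have key : ∀ {m : ℕ} (M : Matrix (Fin m) (Fin m) (MvPolynomial (Fin n × Fin n) K)),
      (MvPolynomial.aeval s : MvPolynomial (Fin n × Fin n) K →ₐ[K] F) M.det =
        (M.map (MvPolynomial.aeval s : MvPolynomial (Fin n × Fin n) K →ₐ[K] F)).det := by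
    intro m M
    exact AlgHom.map_det _ M
  rw [key, key]
  congr 2
  rw [← Matrix.submatrix_map, Matrix.map_mul, Matrix.map_mul]
  congr 2
  congr 1
  · exact (AlgHom.map_adjugate (MvPolynomial.aeval s : MvPolynomial (Fin n × Fin n) K →ₐ[K] F)
      (Xg K i0))
  · ext a b
    simp

lemma adj_ne_zero_iff (X : GL (Fin n) F) (h : GL (Fin n) F) (c c' : Fin 2 → Fin n) :
    ((X.val.adjugate * h.val * X.val).submatrix c c').det ≠ 0 ↔
      ((X⁻¹ * h * X : GL (Fin n) F).val.submatrix c c').det ≠ 0 := by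
  have hdet : X.val.det ≠ 0 := X.isUnit.map (Matrix.detMonoidHom) |>.ne_zero
  have h1 : X.val.adjugate = X.val.det • (X⁻¹).val := by
    rw [Matrix.coe_units_inv, Matrix.inv_def, smul_smul]
    rw [Ring.inverse_eq_inv', mul_inv_cancel₀ hdet, one_smul]
  have h2 : (X.val.adjugate * h.val * X.val).submatrix c c' =
      X.val.det • ((X⁻¹ * h * X : GL (Fin n) F).val.submatrix c c') := by
    rw [h1, Matrix.smul_mul, Matrix.smul_mul]
    rfl
  rw [h2, Matrix.det_smul]
  simp [hdet]

lemma generic_frame {y : Fin n × Fin n → F} (hy : AlgebraicIndependent K y) (h : GL (Fin n) K)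
    (c c' : Fin 2 → Fin n)
    (hex : ∃ X : GL (Fin n) F, (∀ a, X.val *ᵥ Pi.single (i0 a) 1 = Pi.single (i0 a) 1) ∧
      ((X⁻¹ * (GeneralLinearGroup.map (algebraMap K F) h) * X : GL (Fin n) F).val.submatrix
        c c').det ≠ 0) :
    (((Xs i0 y).adjugate * (h.val.map (algebraMap K F)) * Xs i0 y).submatrix c c').det ≠ 0 ∧
        (Xs i0 y).det ≠ 0 := by
  obtain ⟨X, hX, hdet⟩ := hex
  have hQ : Q i0 h c c' ≠ 0 := by
    intro h0
    have h1 := Q_eval i0 h c c' (fun p => X.val p.1 p.2)
    rw [h0, map_zero, Xs_of_gl i0 hX] at h1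
    have h2 := (adj_ne_zero_iff X (GeneralLinearGroup.map (algebraMap K F) h) c c').mpr hdet
    have h3 : X.val.det ≠ 0 := X.isUnit.map (Matrix.detMonoidHom) |>.ne_zero
    exact mul_ne_zero h2 h3 h1.symm
  have h4 := Q_eval i0 h c c' y
  have h5 : (MvPolynomial.aeval y : MvPolynomial (Fin n × Fin n) K →ₐ[K] F) (Q i0 h c c') ≠ 0 := by
    intro h0
    apply hQ
    exact hy (by rw [h0, map_zero])
  rw [h4] at h5
  exact ⟨left_ne_zero_of_mul h5, right_ne_zero_of_mul h5⟩

end generic

end Pool.Agent.H3.Wild
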