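import Mathlib

/-!
Products of degenerate matrices in general position.
-/

namespace Pool.Agent.H3.Wild

open Module Matrix

variable {k : Type*} [Field k] {n : ℕ}

/-- the coordinate projection to the coordinates in the range of `c e` -/
def dg (k : Type*) [Field k] {n : ℕ} (c : Bool → Fin 2 → Fin n) (e : Bool) :
    Matrix (Fin n) (Fin n) k :=
  Matrix.diagonal (fun i => if ∃ a, c e a = i then 1 else 0)

/-- the junction condition -/
def J (c : Bool → Fin 2 → Fin n) (y : Bool → GL (Fin n) k) (e : Bool) (g : GL (Fin n) k)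
    (e' : Bool) : Prop :=
  ((((y e)⁻¹ * g * y (!e') : GL (Fin n) k) : Matrix (Fin n) (Fin n) k).submatrix
    (c e) (c e')).det ≠ 0

/-- the degenerate matrices -/
def L (c : Bool → Fin 2 → Fin n) (y : Bool → GL (Fin n) k) (e : Bool) :
    Matrix (Fin n) (Fin n) k :=
  (y (!e) : Matrix (Fin n) (Fin n) k) * dg k c e * ((y e)⁻¹ : GL (Fin n) k)

lemma gl_inj (g : GL (Fin n) k) {v w : Fin n → k}
    (h : (g : Matrix (Fin n) (Fin n) k) *ᵥ v = (g : Matrix (Fin n) (Fin n) k) *ᵥ w) : v = w := by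
  have := congrArg (fun u => ((g⁻¹ : GL (Fin n) k) : Matrix (Fin n) (Fin n) k) *ᵥ u) h
  simpa [Matrix.mulVec_mulVec] using this

lemma gl_eq_zero (g : GL (Fin n) k) {v : Fin n → k}
    (h : (g : Matrix (Fin n) (Fin n) k) *ᵥ v = 0) : v = 0 :=
  gl_inj g (by rw [h, Matrix.mulVec_zero])

lemma dg_mulVec (c : Bool → Fin 2 → Fin n) (e : Bool) (v : Fin n → k) (i : Fin n) :
    (dg k c e *ᵥ v) i = if ∃ a, c e a = i then v i else 0 := by
  unfold dg
  rw [Matrix.mulVec_diagonal]
  split_ifs <;> simp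

lemma L_mulVec_eq_zero {c : Bool → Fin 2 → Fin n} {y : Bool → GL (Fin n) k} {e : Bool}
    {v : Fin n → k} :
    L c y e *ᵥ v = 0 ↔
      dg k c e *ᵥ (((y e)⁻¹ : GL (Fin n) k) *ᵥ v : Fin n → k) = 0 := by
  unfold L
  rw [← Matrix.mulVec_mulVec, ← Matrix.mulVec_mulVec]
  constructor
  · intro h
    exact gl_eq_zero _ h
  · intro h
    rw [h, Matrix.mulVec_zero]

lemma mulVec_dg_apply {c : Bool → Fin 2 → Fin n} {e : Bool} (hc : Function.Injective (c e))
    (M : Matrix (Fin n) (Fin n) k) (v : Fin n → k) (i : Fin n) :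
    (M *ᵥ (dg k c e *ᵥ v)) i = ∑ a, M i (c e a) * v (c e a) := by
  classical
  rw [Matrix.mulVec, dotProduct]
  simp_rw [dg_mulVec]
  have : ∀ j, M i j * (if ∃ a, c e a = j then v j else 0) =
      if j ∈ Finset.univ.image (c e) then M i j * v j else 0 := by
    intro j
    by_cases h : ∃ a, c e a = j
    · have h' : j ∈ Finset.univ.image (c e) := by simpa using h
      rw [if_pos h, if_pos h']
    · have h' : j ∉ Finset.univ.image (c e) := by simpa using h
      rw [if_neg h, if_neg h', mul_zero]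
  simp_rw [this]
  rw [Finset.sum_ite_mem, Finset.univ_inter, Finset.sum_image (fun a _ b _ h => hc h)]

lemma J.inj {c : Bool → Fin 2 → Fin n} (hc : ∀ e, Function.Injective (c e))
    {y : Bool → GL (Fin n) k} {e : Bool} {g : GL (Fin n) k} {e' : Bool} (h : J c y e g e')
    {v : Fin n → k}
    (hv : L c y e *ᵥ ((g : Matrix (Fin n) (Fin n) k) *ᵥ (L c y e' *ᵥ v)) = 0) :
    L c y e' *ᵥ v = 0 := by
  rw [L_mulVec_eq_zero] at hv ⊢
  unfold L at hv
  set w := (((y e')⁻¹ : GL (Fin n) k) : Matrix (Fin n) (Fin n) k) *ᵥ v with hw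
  have h1 : dg k c e *ᵥ ((((y e)⁻¹ * g * y (!e') : GL (Fin n) k) : Matrix (Fin n) (Fin n) k) *ᵥ
      (dg k c e' *ᵥ w)) = 0 := by
    rw [← hv]
    simp only [Units.val_mul, Matrix.mulVec_mulVec, Matrix.mul_assoc, hw]
  set M := (((y e)⁻¹ * g * y (!e') : GL (Fin n) k) : Matrix (Fin n) (Fin n) k) with hM
  have h2 : (M.submatrix (c e) (c e')) *ᵥ (fun a => w (c e' a)) = 0 := by
    ext a
    have h3 := congrFun h1 (c e a)
    rw [dg_mulVec, if_pos ⟨a, rfl⟩, mulVec_dg_apply (hc e')] at h3
    simpa [Matrix.mulVec, dotProduct] using h3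
  have h4 : (fun a => w (c e' a)) = 0 := by
    by_contra hne
    have := (Matrix.exists_mulVec_eq_zero_iff (M := M.submatrix (c e) (c e'))).mp ⟨_, hne, h2⟩
    exact h this
  ext i
  rw [dg_mulVec]
  split_ifs with hi
  · obtain ⟨a, rfl⟩ := hi
    exact congrFun h4 a
  · rfl

/-- product of the degenerate letters along a word -/
def P (c : Bool → Fin 2 → Fin n) (y : Bool → GL (Fin n) k) :
    List (GL (Fin n) k × Bool) → Matrix (Fin n) (Fin n) k
  | [] => 1
  | a :: l => (a.1 : Matrix (Fin n) (Fin n) k) * L c y a.2 * P c y l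

/-- product of the degenerate letters along the inverse word -/
def P' (c : Bool → Fin 2 → Fin n) (y : Bool → GL (Fin n) k) :
    List (GL (Fin n) k × Bool) → Matrix (Fin n) (Fin n) k
  | [] => 1
  | a :: l => P' c y l * (L c y (!a.2) * ((a.1⁻¹ : GL (Fin n) k) : Matrix (Fin n) (Fin n) k))

lemma ker_P {c : Bool → Fin 2 → Fin n} (hc : ∀ e, Function.Injective (c e))
    {y : Bool → GL (Fin n) k} :
    ∀ (l : List (GL (Fin n) k × Bool)) (hl : l ≠ []),
      l.IsChain (fun a b => J c y a.2 b.1 b.2) →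
      ∀ v : Fin n → k, P c y l *ᵥ v = 0 → L c y (l.getLast hl).2 *ᵥ v = 0 := by
  intro l
  induction l with
  | nil => intro hl; exact absurd rfl hl
  | cons a l ih =>
    intro hl hch v hv
    cases l with
    | nil =>
      simp only [P, Matrix.mul_one, List.getLast_singleton] at hv ⊢
      rw [← Matrix.mulVec_mulVec] at hv
      exact gl_eq_zero _ hv
    | cons b l =>
      rw [List.isChain_cons_cons] at hch
      rw [List.getLast_cons (List.cons_ne_nil b l)]
      apply ih (List.cons_ne_nil b l) hch.2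
      rw [P, ← Matrix.mulVec_mulVec, ← Matrix.mulVec_mulVec] at hv
      have h1 := gl_eq_zero _ hv
      rw [P, ← Matrix.mulVec_mulVec, ← Matrix.mulVec_mulVec] at h1 ⊢
      rw [hch.1.inj hc h1, Matrix.mulVec_zero]

lemma ker_P' {c : Bool → Fin 2 → Fin n} (hc : ∀ e, Function.Injective (c e))
    {y : Bool → GL (Fin n) k} :
    ∀ (l : List (GL (Fin n) k × Bool)) (hl : l ≠ []),
      l.IsChain (fun a b => J c y (!b.2) b.1⁻¹ (!a.2)) →
      ∀ v : Fin n → k, P' c y l *ᵥ v = 0 →
        L c y (!(l.head hl).2) *ᵥ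
          ((((l.head hl).1⁻¹ : GL (Fin n) k) : Matrix (Fin n) (Fin n) k) *ᵥ v) = 0 := by
  intro l
  induction l with
  | nil => intro hl; exact absurd rfl hl
  | cons a l ih =>
    intro hl hch v hv
    cases l with
    | nil =>
      simp only [P', Matrix.one_mul, List.head_cons] at hv ⊢
      rw [← Matrix.mulVec_mulVec] at hv
      exact hv
    | cons b l =>
      rw [List.isChain_cons_cons] at hch
      rw [P', ← Matrix.mulVec_mulVec] at hv
      have h1 := ih (List.cons_ne_nil b l) hch.2 _ hv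
      rw [List.head_cons] at h1 ⊢
      rw [← Matrix.mulVec_mulVec] at h1
      exact hch.1.inj hc h1

/-- the intersection of two kernels in general position has codimension at least four -/
lemma finrank_inter {c : Bool → Fin 2 → Fin n} (hc : ∀ e, Function.Injective (c e))
    (hd : ∀ e a b, c e a ≠ c (!e) b)
    {y : Bool → GL (Fin n) k} {e : Bool} {g : GL (Fin n) k} {e' : Bool} (h : J c y e g e')
    (W : Submodule k (Fin n → k))
    (hW : ∀ v ∈ W, L c y e *ᵥ v = 0 ∧ L c y (!e') *ᵥ
      (((g⁻¹ : GL (Fin n) k) : Matrix (Fin n) (Fin n) k) *ᵥ v) = 0) :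
    finrank k W + 4 ≤ n := by
  classical
  let Φ : (Fin n → k) →ₗ[k] (Fin 2 → k) × (Fin 2 → k) :=
    LinearMap.prod
      ((LinearMap.funLeft k k (c e)) ∘ₗ
        (Matrix.mulVecLin (((y e)⁻¹ : GL (Fin n) k) : Matrix (Fin n) (Fin n) k)))
      ((LinearMap.funLeft k k (c (!e'))) ∘ₗ
        (Matrix.mulVecLin (((y (!e'))⁻¹ * g⁻¹ : GL (Fin n) k) : Matrix (Fin n) (Fin n) k)))
  have hΦ1 : ∀ v a, (Φ v).1 a =
      ((((y e)⁻¹ : GL (Fin n) k) : Matrix (Fin n) (Fin n) k) *ᵥ v) (c e a) := fun v a => rfl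
  have hΦ2 : ∀ v a, (Φ v).2 a =
      ((((y (!e'))⁻¹ * g⁻¹ : GL (Fin n) k) : Matrix (Fin n) (Fin n) k) *ᵥ v) (c (!e') a) :=
    fun v a => rfl
  have hker : W ≤ LinearMap.ker Φ := by
    intro v hv
    obtain ⟨h1, h2⟩ := hW v hv
    rw [L_mulVec_eq_zero] at h1 h2
    rw [LinearMap.mem_ker]
    apply Prod.ext
    · ext a
      have := congrFun h1 (c e a)
      rw [dg_mulVec, if_pos ⟨a, rfl⟩] at this
      simpa [Φ, LinearMap.funLeft_apply] using this
    · ext a
      have := congrFun h2 (c (!e') a)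
      rw [dg_mulVec, if_pos ⟨a, rfl⟩, Matrix.mulVec_mulVec] at this
      simpa [Φ, LinearMap.funLeft_apply] using this
  have hsurj : Function.Surjective Φ := by
    rintro ⟨p, q⟩
    set N := (((y e)⁻¹ * g * y (!e') : GL (Fin n) k) : Matrix (Fin n) (Fin n) k) with hN
    let M := N.submatrix (c e) (c e')
    have hM : IsUnit M.det := isUnit_iff_ne_zero.mpr h
    let r : Fin 2 → k := p - (N.submatrix (c e) (c (!e'))) *ᵥ q
    let s : Fin 2 → k := M⁻¹ *ᵥ r
    have hs : M *ᵥ s = r := by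
      simp only [s, Matrix.mulVec_mulVec, Matrix.mul_nonsing_inv M hM, Matrix.one_mulVec]
    let u : Fin n → k := (∑ a, s a • (Pi.single (c e' a) 1 : Fin n → k)) +
      ∑ a, q a • (Pi.single (c (!e') a) 1 : Fin n → k)
    have hu1 : ∀ (T : Matrix (Fin n) (Fin n) k) (i : Fin n), (T *ᵥ u) i =
        (∑ a, T i (c e' a) * s a) + ∑ a, T i (c (!e') a) * q a := by
      intro T i
      simp only [u, Matrix.mulVec_add, Matrix.mulVec_sum, Matrix.mulVec_smul,
        Matrix.mulVec_single_one, Pi.add_apply, Finset.sum_apply, Pi.smul_apply, smul_eq_mul,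
        Matrix.col_apply]
      congr 1 <;> exact Finset.sum_congr rfl fun a _ => mul_comm _ _
    refine ⟨((g * y (!e') : GL (Fin n) k) : Matrix (Fin n) (Fin n) k) *ᵥ u, ?_⟩
    apply Prod.ext
    · ext a
      have h1 : (Φ (((g * y (!e') : GL (Fin n) k) : Matrix (Fin n) (Fin n) k) *ᵥ u)).1 a =
          (N *ᵥ u) (c e a) := by
        rw [hΦ1, Matrix.mulVec_mulVec, ← Units.val_mul, hN, mul_assoc]
      rw [h1, hu1]
      have h2 := congrFun hs a
      simp only [M, r, Matrix.mulVec, dotProduct, Matrix.submatrix_apply, Pi.sub_apply] at h2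
      rw [h2]
      simp
    · ext a
      have h1 : (Φ (((g * y (!e') : GL (Fin n) k) : Matrix (Fin n) (Fin n) k) *ᵥ u)).2 a =
          ((1 : Matrix (Fin n) (Fin n) k) *ᵥ u) (c (!e') a) := by
        rw [hΦ2, Matrix.mulVec_mulVec, ← Units.val_mul]
        congr 2
        rw [← Units.val_one]
        congr 1
        group
      rw [h1, hu1]
      have h2 : ∀ b, (1 : Matrix (Fin n) (Fin n) k) (c (!e') a) (c e' b) * s b = 0 := by
        intro b
        rw [Matrix.one_apply_ne, zero_mul]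
        intro h
        exact hd e' b a h.symm
      have h3 : ∀ b, (1 : Matrix (Fin n) (Fin n) k) (c (!e') a) (c (!e') b) * q b =
          if a = b then q b else 0 := by
        intro b
        by_cases hab : a = b
        · subst hab; simp
        · rw [Matrix.one_apply_ne (fun h => hab (hc _ h)), zero_mul, if_neg hab]
      simp only [h2, h3, Finset.sum_const_zero, zero_add, Finset.sum_ite_eq, Finset.mem_univ,
        if_true]
  have h1 := LinearMap.finrank_range_add_finrank_ker Φ
  rw [LinearMap.range_eq_top.mpr hsurj, finrank_top, Module.finrank_prod] at h1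
  simp only [Module.finrank_fintype_fun_eq_card, Fintype.card_fin] at h1
  have h2 := Submodule.finrank_mono hker
  omega

lemma rank_L (c : Bool → Fin 2 → Fin n) (y : Bool → GL (Fin n) k) (e : Bool) :
    (L c y e).rank ≤ 2 := by
  classical
  unfold L
  refine (Matrix.rank_mul_le_left _ _).trans ((Matrix.rank_mul_le_right _ _).trans ?_)
  unfold dg
  rw [Matrix.rank_diagonal]
  have : Function.Surjective (fun a : Fin 2 => (⟨c e a, by simp⟩ :
      {i // (if ∃ a, c e a = i then (1 : k) else 0) ≠ 0})) := by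
    rintro ⟨i, hi⟩
    by_cases h : ∃ a, c e a = i
    · obtain ⟨a, rfl⟩ := h
      exact ⟨a, rfl⟩
    · simp [h] at hi
  simpa using Fintype.card_le_of_surjective _ this

lemma rank_P (c : Bool → Fin 2 → Fin n) (y : Bool → GL (Fin n) k)
    (l : List (GL (Fin n) k × Bool)) (hl : l ≠ []) : (P c y l).rank ≤ 2 := by
  cases l with
  | nil => exact absurd rfl hl
  | cons a l =>
    rw [P]
    exact (Matrix.rank_mul_le_left _ _).trans ((Matrix.rank_mul_le_right _ _).trans (rank_L c y _))

lemma rank_P' (c : Bool → Fin 2 → Fin n) (y : Bool → GL (Fin n) k)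
    (l : List (GL (Fin n) k × Bool)) (hl : l ≠ []) : (P' c y l).rank ≤ 2 := by
  cases l with
  | nil => exact absurd rfl hl
  | cons a l =>
    rw [P']
    exact (Matrix.rank_mul_le_right _ _).trans ((Matrix.rank_mul_le_left _ _).trans (rank_L c y _))

end Pool.Agent.H3.Wild
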