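import Pool.Agent.H3.WildWord

/-!
Existence of frames in general position.
-/

namespace Pool.Agent.H3.Wild

open Module Matrix

variable {F : Type*} [Field F] {n : ℕ}

lemma exists_avoid {V : Type*} [AddCommGroup V] [Module F V] [Infinite F]
    (Z : Finset (Submodule F V)) (hZ : ∀ R ∈ Z, R ≠ ⊤) : ∃ v, ∀ R ∈ Z, v ∉ R := by
  have h := Subspace.biUnion_ne_univ_of_top_notMem (s := Z) (fun h => hZ _ h rfl)
  by_contra hcon
  push Not at hcon
  apply h
  ext v
  simp only [Set.mem_iUnion, SetLike.mem_coe, exists_prop, Set.mem_univ, iff_true]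
  exact hcon v

/-- a map which is locally a multiple of the identity modulo `E` is so globally -/
lemma local_dep {V : Type*} [AddCommGroup V] [Module F V] [Infinite F] (h : V →ₗ[F] V)
    (E : Submodule F V) (hE : ∀ b, E ⊔ Submodule.span F {b} ≠ ⊤) (Z : Finset (Submodule F V))
    (hZ : ∀ R ∈ Z, R ≠ ⊤) (H : ∀ b, (∀ R ∈ Z, b ∉ R) → h b ∈ E ⊔ Submodule.span F {b}) :
    ∃ μ : F, ∀ v, h v - μ • v ∈ E := by
  classical
  have hE0 : E ≠ ⊤ := by
    intro h0
    apply hE 0
    rw [h0, top_sup_eq]
  have mem_iff : ∀ b x, x ∈ E ⊔ Submodule.span F {b} ↔ ∃ μ : F, x - μ • b ∈ E := by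
    intro b x
    rw [Submodule.mem_sup]
    constructor
    · rintro ⟨e, he, z, hz, rfl⟩
      obtain ⟨μ, rfl⟩ := Submodule.mem_span_singleton.mp hz
      exact ⟨μ, by simpa using he⟩
    · rintro ⟨μ, hμ⟩
      exact ⟨_, hμ, μ • b, Submodule.mem_span_singleton.mpr ⟨μ, rfl⟩, by abel⟩
  obtain ⟨b1, hb1⟩ := exists_avoid (insert E Z) (by
    intro R hR
    rw [Finset.mem_insert] at hR
    rcases hR with rfl | hR
    · exact hE0
    · exact hZ R hR)
  obtain ⟨μ, hμ⟩ := (mem_iff b1 _).mp (H b1 fun R hR => hb1 R (Finset.mem_insert_of_mem hR))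
  refine ⟨μ, ?_⟩
  let T : Submodule F V := E.comap (h - μ • LinearMap.id)
  by_contra hcon
  have hT : T ≠ ⊤ := by
    intro hT
    apply hcon
    intro v
    have : v ∈ T := by rw [hT]; trivial
    simpa [T] using this
  obtain ⟨b2, hb2⟩ := exists_avoid (insert T (insert (E ⊔ Submodule.span F {b1}) Z)) (by
    intro R hR
    rw [Finset.mem_insert, Finset.mem_insert] at hR
    rcases hR with rfl | rfl | hR
    · exact hT
    · exact hE b1
    · exact hZ R hR)
  have hb2T : b2 ∉ T := hb2 T (Finset.mem_insert_self _ _)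
  have hb2E : b2 ∉ E ⊔ Submodule.span F {b1} :=
    hb2 _ (Finset.mem_insert_of_mem (Finset.mem_insert_self _ _))
  have hb2Z : ∀ R ∈ Z, b2 ∉ R := fun R hR =>
    hb2 R (Finset.mem_insert_of_mem (Finset.mem_insert_of_mem hR))
  -- choose s
  have hs : ∃ s : F, s ≠ 0 ∧ ∀ R ∈ Z, b1 + s • b2 ∉ R := by
    have hfin : ∀ R ∈ Z, Set.Subsingleton {s : F | b1 + s • b2 ∈ R} := by
      intro R hR s hs s' hs'
      by_contra hne
      apply hb2Z R hR
      have h1 : (b1 + s • b2) - (b1 + s' • b2) ∈ R := R.sub_mem hs hs'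
      have h2 : (b1 + s • b2) - (b1 + s' • b2) = (s - s') • b2 := by
        rw [sub_smul]; abel
      rw [h2] at h1
      exact (R.smul_mem_iff (sub_ne_zero.mpr hne)).mp h1
    have hbad : (({0} : Set F) ∪ ⋃ R ∈ Z, {s : F | b1 + s • b2 ∈ R}).Finite := by
      apply Set.Finite.union (Set.finite_singleton 0)
      apply Set.Finite.biUnion Z.finite_toSet
      intro R hR
      exact (hfin R hR).finite
    obtain ⟨s, hs⟩ := hbad.exists_notMem
    simp only [Set.mem_union, Set.mem_singleton_iff, Set.mem_iUnion, Set.mem_ofPred_eq,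
      not_or, not_exists] at hs
    exact ⟨s, hs.1, fun R hR => hs.2 R hR⟩
  obtain ⟨s, hs0, hs⟩ := hs
  obtain ⟨ν, hν⟩ := (mem_iff _ _).mp (H _ hs)
  obtain ⟨μ2, hμ2⟩ := (mem_iff _ _).mp (H b2 hb2Z)
  -- (μ - ν) b1 + s (μ2 - ν) b2 ∈ E
  have h1 : (μ - ν) • b1 + (s * (μ2 - ν)) • b2 ∈ E := by
    have h2 := E.sub_mem hν (E.add_mem hμ (E.smul_mem s hμ2))
    have h3 : h (b1 + s • b2) - ν • (b1 + s • b2) - (h b1 - μ • b1 + s • (h b2 - μ2 • b2)) =
        (μ - ν) • b1 + (s * (μ2 - ν)) • b2 := by
      rw [map_add, map_smul]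
      module
    rwa [h3] at h2
  have h4 : μ2 = ν := by
    by_contra hne
    apply hb2E
    rw [mem_iff]
    have h5 : s * (μ2 - ν) ≠ 0 := mul_ne_zero hs0 (sub_ne_zero.mpr hne)
    refine ⟨-(s * (μ2 - ν))⁻¹ * (μ - ν), ?_⟩
    have h6 := E.smul_mem (s * (μ2 - ν))⁻¹ h1
    have h7 : (s * (μ2 - ν))⁻¹ • ((μ - ν) • b1 + (s * (μ2 - ν)) • b2) =
        b2 - (-(s * (μ2 - ν))⁻¹ * (μ - ν)) • b1 := by
      rw [smul_add, smul_smul, smul_smul, inv_mul_cancel₀ h5, one_smul]
      module
    rwa [h7] at h6
  subst h4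
  rw [sub_self, mul_zero, zero_smul, add_zero] at h1
  have h8 : μ = μ2 := by
    by_contra hne
    exact hb1 E (Finset.mem_insert_self _ _)
      ((E.smul_mem_iff (sub_ne_zero.mpr hne)).mp h1)
  subst h8
  apply hb2T
  simpa [T] using hμ2

lemma finrank_sup_span_le {V : Type*} [AddCommGroup V] [Module F V] [FiniteDimensional F V]
    (E : Submodule F V) (b : V) : finrank F (E ⊔ Submodule.span F {b} : Submodule F V) ≤
      finrank F E + 1 := by
  refine (Submodule.finrank_add_le_finrank_add_finrank _ _).trans ?_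
  have h1 : finrank F (Submodule.span F {b}) ≤ 1 := by
    have := finrank_span_le_card (R := F) ({b} : Set V)
    simpa using this
  omega

lemma range_finrank_of_good {h : Matrix (Fin n) (Fin n) F} (hh : Good h) (μ : F) :
    4 ≤ finrank F (LinearMap.range (h.mulVecLin - μ • LinearMap.id)) := by
  have h1 := LinearMap.finrank_range_add_finrank_ker (h.mulVecLin - μ • LinearMap.id)
  have h2 := hh μ (LinearMap.ker (h.mulVecLin - μ • LinearMap.id)) (by
    intro v hv
    simpa [sub_eq_zero] using hv)
  rw [Module.finrank_fintype_fun_eq_card, Fintype.card_fin] at h1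
  omega

/-- six independent vectors -/
lemma exists_six [Infinite F] (hn : 6 ≤ n) {h : Matrix (Fin n) (Fin n) F} (hh : Good h)
    {v0 v1 : Fin n → F} (hv : LinearIndependent F ![v0, v1]) :
    ∃ b b' : Fin n → F, LinearIndependent F ![h *ᵥ b', b', h *ᵥ b, b, v0, v1] := by
  classical
  set E : Submodule F (Fin n → F) := Submodule.span F (Set.range ![v0, v1]) with hE
  have hEr : finrank F E = 2 := by
    rw [hE, finrank_span_eq_card hv]
    rfl
  have ne_top : ∀ S : Submodule F (Fin n → F), finrank F S < n → S ≠ ⊤ := by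
    rintro S hS rfl
    rw [finrank_top, Module.finrank_fintype_fun_eq_card, Fintype.card_fin] at hS
    exact lt_irrefl _ hS
  set f : (Fin n → F) →ₗ[F] (Fin n → F) := h.mulVecLin with hf
  set R : F → Submodule F (Fin n → F) := fun μ => LinearMap.range (f - μ • LinearMap.id) with hR
  let Λ : Finset F := (Module.End.finite_hasEigenvalue f).toFinset
  let Z : Finset (Submodule F (Fin n → F)) := insert E (Λ.image R)
  have hRne : ∀ μ ∈ Λ, R μ ≠ ⊤ := by
    intro μ hμ hcon
    have hμ' : Module.End.HasEigenvalue f μ := by simpa [Λ] using hμ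
    obtain ⟨v, hv1, hv2⟩ := hμ'.exists_hasEigenvector
    have hker : LinearMap.ker (f - μ • LinearMap.id) = ⊥ := by
      rw [LinearMap.ker_eq_bot]
      exact LinearMap.injective_iff_surjective.mpr (LinearMap.range_eq_top.mp hcon)
    have : v ∈ LinearMap.ker (f - μ • LinearMap.id) := by
      have := Module.End.mem_eigenspace_iff.mp hv1
      simp [this]
    rw [hker, Submodule.mem_bot] at this
    exact hv2 this
  have hZ : ∀ S ∈ Z, S ≠ ⊤ := by
    intro S hS
    rw [Finset.mem_insert, Finset.mem_image] at hS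
    rcases hS with rfl | ⟨μ, hμ, rfl⟩
    · exact ne_top _ (by omega)
    · exact hRne μ hμ
  -- the first vector
  obtain ⟨b, hbZ, hb⟩ : ∃ b, (∀ S ∈ Z, b ∉ S) ∧ f b ∉ E ⊔ Submodule.span F {b} := by
    by_contra hcon
    push Not at hcon
    obtain ⟨μ, hμ⟩ := local_dep f E (fun b => ne_top _ (by
      have := finrank_sup_span_le E b
      omega)) Z hZ hcon
    have h1 : R μ ≤ E := by
      rintro _ ⟨v, rfl⟩
      simpa using hμ v
    have h2 := Submodule.finrank_mono h1
    have h3 := range_finrank_of_good hh μ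
    have h4 : finrank F (R μ) = finrank F (LinearMap.range (h.mulVecLin - μ • LinearMap.id)) := rfl
    omega
  set S : Submodule F (Fin n → F) := Submodule.span F (Set.range ![f b, b, v0, v1]) with hS
  have hli3 : LinearIndependent F ![b, v0, v1] := by
    have := linearIndependent_finCons.mpr ⟨hv, hbZ E (Finset.mem_insert_self _ _)⟩
    exact this
  have hspan3 : Submodule.span F (Set.range ![b, v0, v1]) = E ⊔ Submodule.span F {b} := by
    rw [hE, ← Submodule.span_union]
    congr 1
    simp [Matrix.range_cons, Set.union_comm]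
  have hli4 : LinearIndependent F ![f b, b, v0, v1] := by
    have := linearIndependent_finCons.mpr ⟨hli3, by rw [hspan3]; exact hb⟩
    exact this
  have hSr : finrank F S = 4 := by
    rw [hS, finrank_span_eq_card hli4]
    rfl
  obtain ⟨b', hb'S, hb'⟩ : ∃ b', b' ∉ S ∧ f b' ∉ S ⊔ Submodule.span F {b'} := by
    by_contra hcon
    push Not at hcon
    obtain ⟨μ, hμ⟩ := local_dep f S (fun b => ne_top _ (by
      have := finrank_sup_span_le S b
      omega)) {S} (by
        intro T hT
        rw [Finset.mem_singleton] at hT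
        subst hT
        exact ne_top _ (by omega)) (by
        intro b' hb'
        exact hcon b' (hb' S (Finset.mem_singleton_self _)))
    have h1 : R μ ≤ S := by
      rintro _ ⟨v, rfl⟩
      simpa using hμ v
    have h3 := range_finrank_of_good hh μ
    have h4 : R μ = S := by
      apply Submodule.eq_of_le_of_finrank_le h1
      rw [hSr]
      exact h3
    have hbR : b ∈ R μ := by
      rw [h4]
      exact Submodule.subset_span ⟨1, rfl⟩
    have hμΛ : μ ∈ Λ := by
      by_contra hcon2
      have hne : ¬ Module.End.HasEigenvalue f μ := by simpa [Λ] using hcon2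
      have hker : LinearMap.ker (f - μ • LinearMap.id) = ⊥ := by
        rw [Submodule.eq_bot_iff]
        intro v hv
        by_contra hv0
        apply hne
        apply Module.End.hasEigenvalue_of_hasEigenvector (x := v)
        refine ⟨?_, hv0⟩
        rw [Module.End.mem_eigenspace_iff]
        simpa [sub_eq_zero] using hv
      have : R μ = ⊤ := by
        rw [hR]
        simp only
        rw [LinearMap.range_eq_top]
        exact LinearMap.injective_iff_surjective.mp (LinearMap.ker_eq_bot.mp hker)
      rw [h4] at this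
      exact ne_top S (by omega) this
    exact hbZ (R μ) (Finset.mem_insert_of_mem (Finset.mem_image_of_mem R hμΛ)) hbR
  have hli5 : LinearIndependent F ![b', f b, b, v0, v1] := by
    have := linearIndependent_finCons.mpr ⟨hli4, hb'S⟩
    exact this
  have hspan5 : Submodule.span F (Set.range ![b', f b, b, v0, v1]) =
      S ⊔ Submodule.span F {b'} := by
    rw [hS, ← Submodule.span_union]
    congr 1
    rw [Matrix.range_cons, Set.union_comm]
  have hli6 : LinearIndependent F ![f b', b', f b, b, v0, v1] := by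
    have := linearIndependent_finCons.mpr ⟨hli5, by rw [hspan5]; exact hb'⟩
    exact this
  exact ⟨b, b', hli6⟩

/-- completion to an invertible matrix -/
lemma exists_gl_of_li {m : ℕ} (s : Fin m → Fin n) (hs : Function.Injective s)
    (v : Fin m → Fin n → F) (hv : LinearIndependent F v) :
    ∃ X : GL (Fin n) F, ∀ a, X.val *ᵥ Pi.single (s a) 1 = v a := by
  classical
  have hE : LinearIndependent F (fun a => (Pi.single (s a) 1 : Fin n → F)) := by
    have := (Pi.basisFun F (Fin n)).linearIndependent.comp s hs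
    convert! this using 1
    ext a
    simp
  let f := hE.linearCombinationEquiv.symm ≪≫ₗ hv.linearCombinationEquiv
  have : FiniteDimensional F
      (Submodule.span F (Set.range (fun a => (Pi.single (s a) 1 : Fin n → F)))) :=
    FiniteDimensional.span_of_finite F (Set.finite_range _)
  obtain ⟨g, hg⟩ := Submodule.exists_linearEquiv_restrict_eq f
  have hg' : ∀ a, g (Pi.single (s a) 1) = v a := by
    intro a
    have h1 : ((hE.linearCombinationEquiv (Finsupp.single a 1) :
        Submodule.span F (Set.range (fun a => (Pi.single (s a) 1 : Fin n → F)))) : Fin n → F) =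
          Pi.single (s a) 1 := by simp
    have h2 := hg (hE.linearCombinationEquiv (Finsupp.single a 1))
    rw [h1] at h2
    rw [← h2]
    simp [f]
  refine ⟨⟨LinearMap.toMatrix' (g : (Fin n → F) →ₗ[F] (Fin n → F)),
    LinearMap.toMatrix' (g.symm : (Fin n → F) →ₗ[F] (Fin n → F)), ?_, ?_⟩, ?_⟩
  · rw [← LinearMap.toMatrix'_comp]
    simp
  · rw [← LinearMap.toMatrix'_comp]
    simp
  · intro a
    simp only
    rw [← Matrix.toLin'_apply, Matrix.toLin'_toMatrix']
    exact hg' a

end Pool.Agent.H3.Wild
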