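import Pool.Agent.H3.WildGen

/-!
Existence of frames in general position with respect to one element.
-/

namespace Pool.Agent.H3.Wild

open Module Matrix

variable {F : Type*} [Field F] {n : ℕ}

lemma inv_mulVec_of {X : GL (Fin n) F} {v w : Fin n → F} (h : X.val *ᵥ v = w) :
    (X⁻¹).val *ᵥ w = v := by
  rw [← h, Matrix.mulVec_mulVec, ← Units.val_mul]
  simp

lemma mulVec_single_apply (M : Matrix (Fin n) (Fin n) F) (i j : Fin n) :
    (M *ᵥ Pi.single j 1) i = M i j := by
  simp

/-- a frame for a good element, mixed indices -/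
lemma exists_frame_mixed [Infinite F] (hn : 6 ≤ n) {h : GL (Fin n) F} (hh : Good h.val)
    (i c c' : Fin 2 → Fin n) (hi : Function.Injective i) (hc : Function.Injective c)
    (hc' : Function.Injective c') (hic : ∀ a b, i a ≠ c b) (hic' : ∀ a b, i a ≠ c' b)
    (hcc' : ∀ a b, c a ≠ c' b) :
    ∃ X : GL (Fin n) F, (∀ a, X.val *ᵥ Pi.single (i a) 1 = Pi.single (i a) 1) ∧
      ((X⁻¹ * h * X : GL (Fin n) F).val.submatrix c c').det ≠ 0 := by
  classical
  have hli : LinearIndependent F
      ![(Pi.single (i 0) 1 : Fin n → F), Pi.single (i 1) 1] := by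
    have := (Pi.basisFun F (Fin n)).linearIndependent.comp i hi
    convert! this using 1
    ext a
    fin_cases a <;> simp
  obtain ⟨b, b', hb⟩ := exists_six hn hh hli
  have h01 : (0 : Fin 2) ≠ 1 := by decide
  let s : Fin 6 → Fin n := ![c 1, c' 1, c 0, c' 0, i 0, i 1]
  have hs : Function.Injective s := by
    intro x z hxz
    have n1 : c 1 ≠ c 0 := fun h => h01 (hc h).symm
    have n2 : c' 1 ≠ c' 0 := fun h => h01 (hc' h).symm
    have n3 : i 0 ≠ i 1 := fun h => h01 (hi h)
    have m1 : ∀ a b, c a ≠ i b := fun a b h => hic b a h.symm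
    have m2 : ∀ a b, c' a ≠ i b := fun a b h => hic' b a h.symm
    have m3 : ∀ a b, c' a ≠ c b := fun a b h => hcc' b a h.symm
    fin_cases x <;> fin_cases z <;> first
      | rfl
      | exact absurd hxz n1
      | exact absurd hxz n2
      | exact absurd hxz n3
      | exact absurd hxz n1.symm
      | exact absurd hxz n2.symm
      | exact absurd hxz n3.symm
      | exact absurd hxz (m1 _ _)
      | exact absurd hxz (m2 _ _)
      | exact absurd hxz (m3 _ _)
      | exact absurd hxz (hic _ _)
      | exact absurd hxz (hic' _ _)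
      | exact absurd hxz (hcc' _ _)
  obtain ⟨X, hX⟩ := exists_gl_of_li s hs _ hb
  have x0 : X.val *ᵥ Pi.single (c 1) 1 = h.val *ᵥ b' := hX 0
  have x1 : X.val *ᵥ Pi.single (c' 1) 1 = b' := hX 1
  have x2 : X.val *ᵥ Pi.single (c 0) 1 = h.val *ᵥ b := hX 2
  have x3 : X.val *ᵥ Pi.single (c' 0) 1 = b := hX 3
  have x4 : X.val *ᵥ Pi.single (i 0) 1 = Pi.single (i 0) 1 := hX 4
  have x5 : X.val *ᵥ Pi.single (i 1) 1 = Pi.single (i 1) 1 := hX 5
  refine ⟨X, ?_, ?_⟩
  · intro a
    fin_cases a
    · exact x4
    · exact x5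
  · have key : ∀ a, (X⁻¹ * h * X : GL (Fin n) F).val *ᵥ Pi.single (c' a) 1 =
        Pi.single (c a) 1 := by
      intro a
      rw [Units.val_mul, Units.val_mul, ← Matrix.mulVec_mulVec, ← Matrix.mulVec_mulVec]
      fin_cases a
      · simp only [Fin.zero_eta]
        rw [x3]
        exact inv_mulVec_of x2
      · simp only [Fin.mk_one]
        rw [x1]
        exact inv_mulVec_of x0
    have : (X⁻¹ * h * X : GL (Fin n) F).val.submatrix c c' = 1 := by
      ext a b
      rw [Matrix.submatrix_apply,
        ← mulVec_single_apply ((X⁻¹ * h * X : GL (Fin n) F).val) (c a) (c' b), key,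
        Matrix.one_apply]
      by_cases hab : a = b
      · subst hab; simp
      · rw [if_neg hab, Pi.single_eq_of_ne (fun h => hab (hc h))]
    rw [this, Matrix.det_one]
    exact one_ne_zero

/-- a frame for an arbitrary element, equal indices -/
lemma exists_frame_same [Infinite F] (h : GL (Fin n) F)
    (i c : Fin 2 → Fin n) (hc : Function.Injective c) (hic : ∀ a b, i a ≠ c b) :
    ∃ X : GL (Fin n) F, (∀ a, X.val *ᵥ Pi.single (i a) 1 = Pi.single (i a) 1) ∧
      ((X⁻¹ * h * X : GL (Fin n) F).val.submatrix c c).det ≠ 0 := by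
  classical
  let cc : Bool → Fin 2 → Fin n := fun _ => c
  have hcc : ∀ e, Function.Injective (cc e) := fun _ => hc
  let dd : Matrix (Fin n) (Fin n) F := dg F cc true
  -- choose `s`
  obtain ⟨s, hs1, hs2⟩ : ∃ s : F, ((h.val + s • (1 : Matrix (Fin n) (Fin n) F)).submatrix c c).det
      ≠ 0 ∧ ((1 + s • (h⁻¹).val : Matrix (Fin n) (Fin n) F).submatrix c c).det ≠ 0 := by
    set p : Polynomial F := Polynomial.X ^ 2 +
      Polynomial.C (h.val (c 0) (c 0) + h.val (c 1) (c 1)) * Polynomial.X +
      Polynomial.C (h.val (c 0) (c 0) * h.val (c 1) (c 1) - h.val (c 0) (c 1) * h.val (c 1) (c 0))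
      with hp
    set q : Polynomial F := 1 +
      Polynomial.C ((h⁻¹).val (c 0) (c 0) + (h⁻¹).val (c 1) (c 1)) * Polynomial.X +
      Polynomial.C ((h⁻¹).val (c 0) (c 0) * (h⁻¹).val (c 1) (c 1) -
        (h⁻¹).val (c 0) (c 1) * (h⁻¹).val (c 1) (c 0)) * Polynomial.X ^ 2 with hq
    have hp0 : p ≠ 0 := by
      intro h0
      have := congrArg (fun r => Polynomial.coeff r 2) h0
      simp [hp, Polynomial.coeff_X, Polynomial.coeff_C] at this
    have hq0 : q ≠ 0 := by
      intro h0
      have := congrArg (fun r => Polynomial.eval 0 r) h0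
      simp [hq] at this
    have hex : ∃ s, (p * q).eval s ≠ 0 := by
      by_contra hcon
      push Not at hcon
      apply mul_ne_zero hp0 hq0
      apply Polynomial.funext
      intro r
      rw [hcon, Polynomial.eval_zero]
    obtain ⟨s, hs⟩ := hex
    rw [Polynomial.eval_mul] at hs
    have n1 : c 0 ≠ c 1 := fun h => absurd (hc h) (by decide)
    refine ⟨s, ?_, ?_⟩
    · have := left_ne_zero_of_mul hs
      rw [Matrix.det_fin_two]
      simp only [Matrix.submatrix_apply, Matrix.add_apply, Matrix.smul_apply, Matrix.one_apply_eq,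
        Matrix.one_apply_ne n1, Matrix.one_apply_ne n1.symm, smul_eq_mul, mul_one, mul_zero,
        add_zero]
      intro h0
      apply this
      rw [← h0, hp]
      simp only [Polynomial.eval_add, Polynomial.eval_mul, Polynomial.eval_pow, Polynomial.eval_X,
        Polynomial.eval_C]
      ring
    · have := right_ne_zero_of_mul hs
      rw [Matrix.det_fin_two]
      simp only [Matrix.submatrix_apply, Matrix.add_apply, Matrix.smul_apply, Matrix.one_apply_eq,
        Matrix.one_apply_ne n1, Matrix.one_apply_ne n1.symm, smul_eq_mul, mul_one, mul_zero,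
        zero_add]
      intro h0
      apply this
      rw [← h0, hq]
      simp only [Polynomial.eval_add, Polynomial.eval_mul, Polynomial.eval_pow, Polynomial.eval_X,
        Polynomial.eval_C, Polynomial.eval_one]
      ring
  have ddv : ∀ v : Fin n → F, ∀ j, (dd *ᵥ v) j = if ∃ a, c a = j then v j else 0 :=
    fun v j => dg_mulVec cc true v j
  have dd0 : ∀ v : Fin n → F, (∀ a, v (c a) = 0) → dd *ᵥ v = 0 := by
    intro v hv
    ext j
    rw [ddv]
    split_ifs with hj
    · obtain ⟨a, rfl⟩ := hj
      exact hv a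
    · rfl
  let X0 : Matrix (Fin n) (Fin n) F := 1 + s • ((h⁻¹).val * dd)
  have hX0v : ∀ v, X0 *ᵥ v = v + s • ((h⁻¹).val *ᵥ (dd *ᵥ v)) := by
    intro v
    simp only [X0, Matrix.add_mulVec, Matrix.one_mulVec, Matrix.smul_mulVec, Matrix.mulVec_mulVec]
  have hX0 : X0.det ≠ 0 := by
    intro h0
    obtain ⟨v, hv0, hv⟩ := Matrix.exists_mulVec_eq_zero_iff.mpr h0
    rw [hX0v] at hv
    have h1 : ((1 + s • (h⁻¹).val : Matrix (Fin n) (Fin n) F).submatrix c c) *ᵥ
        (fun a => v (c a)) = 0 := by
      ext a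
      have h2 := congrFun hv (c a)
      rw [Pi.add_apply, Pi.smul_apply, mulVec_dg_apply (c := cc) (e := true) (hcc true),
        Pi.zero_apply] at h2
      rw [Pi.zero_apply, ← h2]
      simp only [Matrix.mulVec, dotProduct, Matrix.submatrix_apply, Matrix.add_apply,
        Matrix.smul_apply, smul_eq_mul, add_mul, Finset.sum_add_distrib, Finset.mul_sum,
        Matrix.one_apply, hc.eq_iff]
      congr 1
      · simp
      · exact Finset.sum_congr rfl fun b _ => by simp [cc, mul_assoc]
    have h3 : (fun a => v (c a)) = 0 := by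
      by_contra hne
      exact hs2 (Matrix.exists_mulVec_eq_zero_iff.mp ⟨_, hne, h1⟩)
    rw [dd0 v (fun a => congrFun h3 a), Matrix.mulVec_zero, smul_zero, add_zero] at hv
    exact hv0 hv
  let X : GL (Fin n) F := Matrix.GeneralLinearGroup.mkOfDetNeZero X0 hX0
  have hXv : ∀ v, X.val *ᵥ v = v + s • ((h⁻¹).val *ᵥ (dd *ᵥ v)) := hX0v
  have hXfix : ∀ v : Fin n → F, (∀ a, v (c a) = 0) → X.val *ᵥ v = v := by
    intro v hv
    rw [hXv, dd0 v hv, Matrix.mulVec_zero, smul_zero, add_zero]
  refine ⟨X, ?_, ?_⟩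
  · intro a
    apply hXfix
    intro b
    rw [Pi.single_eq_of_ne (hic a b).symm]
  · intro h0
    obtain ⟨u, hu0, hu⟩ := Matrix.exists_mulVec_eq_zero_iff.mpr h0
    let v : Fin n → F := ∑ a, u a • (Pi.single (c a) 1 : Fin n → F)
    have hvc : ∀ a, v (c a) = u a := by
      intro a
      simp only [v, Finset.sum_apply, Pi.smul_apply, smul_eq_mul]
      rw [Finset.sum_eq_single a]
      · simp
      · intro b _ hb
        rw [Pi.single_eq_of_ne (fun h => hb (hc h).symm), mul_zero]
      · simp
    have hddv : dd *ᵥ v = v := by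
      ext j
      rw [ddv]
      split_ifs with hj
      · rfl
      · simp only [v, Finset.sum_apply, Pi.smul_apply, smul_eq_mul]
        rw [Finset.sum_eq_zero]
        intro b _
        rw [Pi.single_eq_of_ne (fun h => hj ⟨b, h.symm⟩), mul_zero]
    set z := (X⁻¹ * h * X : GL (Fin n) F).val *ᵥ v with hz
    have hzc : ∀ a, z (c a) = 0 := by
      intro a
      have h1 := mulVec_dg_apply (c := cc) (e := true) (hcc true)
        (X⁻¹ * h * X : GL (Fin n) F).val v (c a)
      have h2 : dg F cc true *ᵥ v = v := hddv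
      rw [h2] at h1
      rw [hz, h1]
      have h3 := congrFun hu a
      simp only [Matrix.mulVec, dotProduct, Matrix.submatrix_apply, Pi.zero_apply] at h3
      rw [← h3]
      exact Finset.sum_congr rfl fun b _ => by rw [hvc]
    have h4 : X.val *ᵥ z = z := hXfix z hzc
    have h5 : X.val *ᵥ z = h.val *ᵥ (X.val *ᵥ v) := by
      rw [hz, Matrix.mulVec_mulVec, Matrix.mulVec_mulVec, ← Units.val_mul, ← Units.val_mul]
      congr 2
      group
    have h9 : h.val *ᵥ (X.val *ᵥ v) = h.val *ᵥ v + s • v := by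
      rw [hXv v, hddv, Matrix.mulVec_add, Matrix.mulVec_smul, Matrix.mulVec_mulVec,
        ← Units.val_mul, mul_inv_cancel, Units.val_one, Matrix.one_mulVec]
    rw [h9, h4] at h5
    have h6 : ((h.val + s • (1 : Matrix (Fin n) (Fin n) F)).submatrix c c) *ᵥ u = 0 := by
      ext a
      have h7 := congrFun h5 (c a)
      rw [hzc, Pi.add_apply, Pi.smul_apply, hvc] at h7
      have h8 := mulVec_dg_apply (c := cc) (e := true) (hcc true) h.val v (c a)
      have h2 : dg F cc true *ᵥ v = v := hddv
      rw [h2] at h8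
      rw [h8] at h7
      rw [Pi.zero_apply, h7]
      simp only [Matrix.mulVec, dotProduct, Matrix.submatrix_apply, Matrix.add_apply,
        Matrix.smul_apply, smul_eq_mul, add_mul, Finset.sum_add_distrib, Matrix.one_apply,
        hc.eq_iff]
      congr 1
      · exact Finset.sum_congr rfl fun b _ => by rw [hvc]
      · simp
    exact hs1 (Matrix.exists_mulVec_eq_zero_iff.mp ⟨u, hu0, h6⟩)

end Pool.Agent.H3.Wild
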