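import Pool.Agent.H3.WildRed
import Pool.Agent.H3.WildFrame

/-!
Words with a large parameter: eigenspaces have codimension at least four.
-/

namespace Pool.Agent.H3.Wild

open Module Matrix IsLocalRing

variable {F : Type*} [Field F] {n : ℕ}

/-- `g` acts as a scalar only on subspaces of codimension at least four -/
def Good (g : Matrix (Fin n) (Fin n) F) : Prop :=
  ∀ (μ : F) (W : Submodule F (Fin n → F)), (∀ v ∈ W, g *ᵥ v = μ • v) → finrank F W + 4 ≤ n

section ping

variable (A : ValuationSubring F) {K : Type*} [Field K] (φ : K →+* A)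
  (c : Bool → Fin 2 → Fin n) (y : Bool → GL (Fin n) K) (τ : A)

/-- the diagonal entries -/
def dF (t : F) (e : Bool) (i : Fin n) : F := by
  classical
  exact if ∃ a, c e a = i then t else if ∃ a, c (!e) a = i then t⁻¹ else 1

/-- the diagonal entries after rescaling -/
def dO (e : Bool) (i : Fin n) : A := by
  classical
  exact if ∃ a, c e a = i then 1 else if ∃ a, c (!e) a = i then τ ^ 2 else τ

lemma dF_mul (hd : ∀ e a b, c e a ≠ c (!e) b) {t : F} (ht : t ≠ 0) (e : Bool) (i : Fin n) :
    dF c t e i * dF c t (!e) i = 1 := by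
  unfold dF
  by_cases h1 : ∃ a, c e a = i
  · have h2 : ¬ ∃ a, c (!e) a = i := by
      rintro ⟨b, hb⟩
      obtain ⟨a, ha⟩ := h1
      exact hd e a b (ha.trans hb.symm)
    simp only [Bool.not_not]
    rw [if_pos h1, if_neg h2, if_pos h1, mul_inv_cancel₀ ht]
  · by_cases h2 : ∃ a, c (!e) a = i
    · simp only [Bool.not_not]
      rw [if_neg h1, if_pos h2, if_pos h2, inv_mul_cancel₀ ht]
    · simp only [Bool.not_not]
      rw [if_neg h1, if_neg h2, if_neg h2, if_neg h1, mul_one]

/-- the diagonal matrix -/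
def DF (hd : ∀ e a b, c e a ≠ c (!e) b) {t : F} (ht : t ≠ 0) (e : Bool) : GL (Fin n) F where
  val := Matrix.diagonal (dF c t e)
  inv := Matrix.diagonal (dF c t (!e))
  val_inv := by
    rw [Matrix.diagonal_mul_diagonal]
    simp_rw [dF_mul c hd ht]
    exact Matrix.diagonal_one
  inv_val := by
    rw [Matrix.diagonal_mul_diagonal]
    simp_rw [mul_comm (dF c t (!e) _), dF_mul c hd ht]
    exact Matrix.diagonal_one

lemma DF_inv (hd : ∀ e a b, c e a ≠ c (!e) b) {t : F} (ht : t ≠ 0) (e : Bool) :
    (DF c hd ht e)⁻¹ = DF c hd ht (!e) := Units.ext rfl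

/-- the new letter and its inverse -/
def xF (hd : ∀ e a b, c e a ≠ c (!e) b) {t : F} (ht : t ≠ 0) (e : Bool) : GL (Fin n) F :=
  GeneralLinearGroup.map (A.subtype.comp φ) (y (!e)) * DF c hd ht e *
    (GeneralLinearGroup.map (A.subtype.comp φ) (y e))⁻¹

lemma xF_inv (hd : ∀ e a b, c e a ≠ c (!e) b) {t : F} (ht : t ≠ 0) (e : Bool) :
    (xF A φ c y hd ht e)⁻¹ = xF A φ c y hd ht (!e) := by
  unfold xF
  rw [_root_.mul_inv_rev, _root_.mul_inv_rev, inv_inv, DF_inv, Bool.not_not, mul_assoc]

/-- the rescaled letter -/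
def AO (e : Bool) : Matrix (Fin n) (Fin n) A :=
  (GeneralLinearGroup.map φ (y (!e)) : Matrix (Fin n) (Fin n) A) * Matrix.diagonal (dO A c τ e) *
    (GeneralLinearGroup.map φ (y e)⁻¹ : Matrix (Fin n) (Fin n) A)

lemma AO_map_F (hd : ∀ e a b, c e a ≠ c (!e) b) {t : F} (ht : t ≠ 0) (hτ : (τ : F) = t⁻¹)
    (e : Bool) : (AO A φ c y τ e).map A.subtype = t⁻¹ • (xF A φ c y hd ht e).val := by
  have h1 : (Matrix.diagonal (dO A c τ e)).map A.subtype = t⁻¹ • Matrix.diagonal (dF c t e) := by
    rw [Matrix.diagonal_map (map_zero _), ← Matrix.diagonal_smul]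
    congr 1
    ext i
    rw [Pi.smul_apply, smul_eq_mul]
    unfold dO dF
    split_ifs
    · simp [ht]
    · simp [hτ, pow_two]
    · simp [hτ]
  unfold AO xF
  rw [Matrix.map_mul, Matrix.map_mul, h1, Units.val_mul, Units.val_mul, Matrix.mul_smul,
    Matrix.smul_mul]
  rw [← map_inv]
  rfl

lemma AO_map_res (hτ : residue A τ = 0) (e : Bool) :
    (AO A φ c y τ e).map (residue A) =
      L c (fun e => GeneralLinearGroup.map ((residue A).comp φ) (y e)) e := by
  have h1 : (Matrix.diagonal (dO A c τ e)).map (residue A) = dg (ResidueField A) c e := by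
    unfold dg
    rw [Matrix.diagonal_map (map_zero _)]
    congr 1
    ext i
    unfold dO
    split_ifs
    · simp
    · simp [hτ]
    · simp [hτ]
  unfold AO L
  rw [Matrix.map_mul, Matrix.map_mul, h1]
  rw [← map_inv]
  rfl

/-- the word, rescaled -/
def PO : List (GL (Fin n) K × Bool) → Matrix (Fin n) (Fin n) A
  | [] => 1
  | a :: l => (GeneralLinearGroup.map φ a.1 : Matrix (Fin n) (Fin n) A) * AO A φ c y τ a.2 * PO l

/-- the inverse word, rescaled -/
def PO' : List (GL (Fin n) K × Bool) → Matrix (Fin n) (Fin n) A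
  | [] => 1
  | a :: l => PO' l *
      (AO A φ c y τ (!a.2) * (GeneralLinearGroup.map φ a.1⁻¹ : Matrix (Fin n) (Fin n) A))

/-- the word -/
def wF (hd : ∀ e a b, c e a ≠ c (!e) b) {t : F} (ht : t ≠ 0) :
    List (GL (Fin n) K × Bool) → GL (Fin n) F
  | [] => 1
  | a :: l => GeneralLinearGroup.map (A.subtype.comp φ) a.1 * xF A φ c y hd ht a.2 * wF hd ht l

lemma PO_map_F (hd : ∀ e a b, c e a ≠ c (!e) b) {t : F} (ht : t ≠ 0) (hτ : (τ : F) = t⁻¹)
    (l : List (GL (Fin n) K × Bool)) :
    (PO A φ c y τ l).map A.subtype = (t⁻¹) ^ l.length • (wF A φ c y hd ht l).val := by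
  induction l with
  | nil => simp [PO, wF]
  | cons a l ih =>
    rw [PO, wF, Matrix.map_mul, Matrix.map_mul, ih, AO_map_F A φ c y τ hd ht hτ, Units.val_mul,
      Units.val_mul, Matrix.mul_smul, Matrix.mul_smul, Matrix.smul_mul, smul_smul,
      List.length_cons, pow_succ]
    rfl

lemma PO'_map_F (hd : ∀ e a b, c e a ≠ c (!e) b) {t : F} (ht : t ≠ 0) (hτ : (τ : F) = t⁻¹)
    (l : List (GL (Fin n) K × Bool)) :
    (PO' A φ c y τ l).map A.subtype = (t⁻¹) ^ l.length • ((wF A φ c y hd ht l)⁻¹).val := by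
  induction l with
  | nil => simp [PO', wF]
  | cons a l ih =>
    rw [PO', wF, Matrix.map_mul, Matrix.map_mul, ih, AO_map_F A φ c y τ hd ht hτ, _root_.mul_inv_rev,
      _root_.mul_inv_rev, xF_inv, ← map_inv, Units.val_mul, Units.val_mul, Matrix.smul_mul,
      Matrix.smul_mul, Matrix.mul_smul, smul_smul, List.length_cons, pow_succ]
    rfl

lemma PO_map_res (hτ : residue A τ = 0) (l : List (GL (Fin n) K × Bool)) :
    (PO A φ c y τ l).map (residue A) =
      P c (fun e => GeneralLinearGroup.map ((residue A).comp φ) (y e))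
        (l.map fun a => (GeneralLinearGroup.map ((residue A).comp φ) a.1, a.2)) := by
  induction l with
  | nil => simp [PO, P]
  | cons a l ih =>
    rw [PO, List.map_cons, P, Matrix.map_mul, Matrix.map_mul, ih, AO_map_res A φ c y τ hτ]
    rfl

lemma PO'_map_res (hτ : residue A τ = 0) (l : List (GL (Fin n) K × Bool)) :
    (PO' A φ c y τ l).map (residue A) =
      P' c (fun e => GeneralLinearGroup.map ((residue A).comp φ) (y e))
        (l.map fun a => (GeneralLinearGroup.map ((residue A).comp φ) a.1, a.2)) := by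
  induction l with
  | nil => simp [PO', P']
  | cons a l ih =>
    rw [PO', List.map_cons, P', Matrix.map_mul, Matrix.map_mul, ih, AO_map_res A φ c y τ hτ,
      ← map_inv]
    rfl

lemma J_map {K' : Type*} [Field K'] (ρ : K →+* K') {e e' : Bool} {g : GL (Fin n) K}
    (h : J c y e g e') :
    J c (fun e => GeneralLinearGroup.map ρ (y e)) e (GeneralLinearGroup.map ρ g) e' := by
  unfold J at h ⊢
  rw [← map_inv, ← map_mul, ← map_mul]
  have : ((GeneralLinearGroup.map ρ ((y e)⁻¹ * g * y !e') : GL (Fin n) K').val.submatrix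
      (c e) (c e')) = ((((y e)⁻¹ * g * y !e' : GL (Fin n) K) : Matrix (Fin n) (Fin n) K).submatrix
      (c e) (c e')).map ρ := rfl
  rw [this, ← RingHom.mapMatrix_apply, ← RingHom.map_det]
  exact (map_ne_zero ρ).mpr h

lemma dichotomy (M : Matrix (Fin n) (Fin n) A) (μ : F) {r : ℕ} (b : Fin r → Fin n → A)
    (h : ∀ i, (M.map A.subtype) *ᵥ (fun j => (b i j : F)) = μ • (fun j => (b i j : F))) :
    (∀ i, (M.map (residue A)) *ᵥ (fun j => residue A (b i j)) = 0) ∨
    (∀ i, (fun j => residue A (b i j)) ∈ LinearMap.range (M.map (residue A)).mulVecLin) := by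
  have hres : ∀ i, (M.map (residue A)) *ᵥ (fun j => residue A (b i j)) =
      fun j => residue A ((M *ᵥ b i) j) := by
    intro i
    ext j
    simp [Matrix.mulVec, dotProduct, map_sum]
  have hF : ∀ i, (M.map A.subtype) *ᵥ (fun j => (b i j : F)) =
      fun j => (((M *ᵥ b i) j : A) : F) := by
    intro i
    ext j
    have : (((M *ᵥ b i) j : A) : F) = A.subtype ((M *ᵥ b i) j) := rfl
    rw [this]
    simp only [Matrix.mulVec, dotProduct, map_sum, map_mul]
    rfl
  rcases A.mem_or_inv_mem μ with hμ | hμ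
  · have h1 : ∀ i j, (M *ᵥ b i) j = ⟨μ, hμ⟩ * b i j := by
      intro i j
      apply Subtype.ext
      have := congrFun (h i) j
      rw [hF] at this
      simpa using this
    by_cases h0 : residue A ⟨μ, hμ⟩ = 0
    · left
      intro i
      rw [hres]
      ext j
      rw [h1, map_mul, h0, zero_mul]
      rfl
    · right
      intro i
      refine ⟨(residue A ⟨μ, hμ⟩)⁻¹ • (fun j => residue A (b i j)), ?_⟩
      rw [Matrix.mulVecLin_apply, Matrix.mulVec_smul, hres]
      ext j
      rw [Pi.smul_apply, h1, map_mul, smul_eq_mul, ← mul_assoc, inv_mul_cancel₀ h0, one_mul]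
  · by_cases hμ0 : μ = 0
    · left
      intro i
      rw [hres]
      ext j
      have h1 : (M *ᵥ b i) j = 0 := by
        apply Subtype.ext
        have := congrFun (h i) j
        rw [hF] at this
        simpa [hμ0] using this
      rw [h1, map_zero]
      rfl
    · right
      intro i
      have h1 : ∀ j, ⟨μ⁻¹, hμ⟩ * (M *ᵥ b i) j = b i j := by
        intro j
        apply Subtype.ext
        have := congrFun (h i) j
        rw [hF] at this
        simp only [Pi.smul_apply, smul_eq_mul] at this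
        simp only [MulMemClass.coe_mul, this]
        rw [← mul_assoc, inv_mul_cancel₀ hμ0, one_mul]
      refine ⟨(residue A ⟨μ⁻¹, hμ⟩) • (fun j => residue A (b i j)), ?_⟩
      rw [Matrix.mulVecLin_apply, Matrix.mulVec_smul, hres]
      ext j
      rw [Pi.smul_apply, smul_eq_mul, ← map_mul, h1]

theorem good_word (hn : 6 ≤ n) (hc : ∀ e, Function.Injective (c e))
    (hd : ∀ e a b, c e a ≠ c (!e) b) {t : F} (ht : t ≠ 0) (hτ : (τ : F) = t⁻¹)
    (hτ' : residue A τ = 0) (l : List (GL (Fin n) K × Bool)) (hl : l ≠ [])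
    (h1 : l.IsChain (fun a b => J c y a.2 b.1 b.2))
    (h2 : l.IsChain (fun a b => J c y (!b.2) b.1⁻¹ (!a.2)))
    (h3 : J c y (l.getLast hl).2 (l.head hl).1 (l.head hl).2) :
    Good (wF A φ c y hd ht l).val := by
  intro μ W hW
  set r := finrank F W with hr
  obtain ⟨b, hbW, hbli⟩ := exists_reduction A r W hr.symm
  set κ := ResidueField A
  set ρ : K →+* κ := (residue A).comp φ with hρ
  set y' : Bool → GL (Fin n) κ := fun e => GeneralLinearGroup.map ρ (y e) with hy'
  set l' := l.map fun a => (GeneralLinearGroup.map ρ a.1, a.2) with hl'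
  have hl'0 : l' ≠ [] := by simpa [hl'] using hl
  let Wb : Submodule κ (Fin n → κ) := Submodule.span κ (Set.range fun i j => residue A (b i j))
  have hWb : finrank κ Wb = r := by
    rw [finrank_span_eq_card hbli, Fintype.card_fin]
  have hP : (P c y' l').rank ≤ 2 := rank_P c y' l' hl'0
  have hP' : (P' c y' l').rank ≤ 2 := rank_P' c y' l' hl'0
  have small : ∀ M : Matrix (Fin n) (Fin n) κ, M.rank ≤ 2 →
      (∀ i, (fun j => residue A (b i j)) ∈ LinearMap.range M.mulVecLin) → r + 4 ≤ n := by
    intro M hM h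
    have h4 : Wb ≤ LinearMap.range M.mulVecLin := by
      rw [Submodule.span_le]
      rintro _ ⟨i, rfl⟩
      exact h i
    have h5 := Submodule.finrank_mono h4
    rw [hWb] at h5
    have h6 : finrank κ (LinearMap.range M.mulVecLin) ≤ 2 := hM
    omega
  by_cases hμ0 : μ = 0
  · subst hμ0
    have : W = ⊥ := by
      rw [Submodule.eq_bot_iff]
      intro v hv
      have := hW v hv
      rw [zero_smul] at this
      exact gl_eq_zero _ this
    have h0 : finrank F W = 0 := by rw [this]; exact finrank_bot F _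
    omega
  have e1 := dichotomy A (PO A φ c y τ l) ((t⁻¹) ^ l.length * μ) b (by
    intro i
    rw [PO_map_F A φ c y τ hd ht hτ, Matrix.smul_mulVec, hW _ (hbW i), smul_smul])
  rw [PO_map_res A φ c y τ hτ'] at e1
  have e2 := dichotomy A (PO' A φ c y τ l) ((t⁻¹) ^ l.length * μ⁻¹) b (by
    intro i
    have h4 : ((wF A φ c y hd ht l)⁻¹).val *ᵥ (fun j => (b i j : F)) =
        μ⁻¹ • (fun j => (b i j : F)) := by
      have h5 := hW _ (hbW i)
      have h6 := congrArg (fun u => ((wF A φ c y hd ht l)⁻¹).val *ᵥ u) h5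
      simp only [Matrix.mulVec_mulVec, ← Units.val_mul, inv_mul_cancel, Units.val_one,
        Matrix.one_mulVec, Matrix.mulVec_smul] at h6
      rw [h6, smul_smul, inv_mul_cancel₀ hμ0, one_smul, ← h6]
    rw [PO'_map_F A φ c y τ hd ht hτ, Matrix.smul_mulVec, h4, smul_smul])
  rw [PO'_map_res A φ c y τ hτ'] at e2
  rcases e1 with e1 | e1
  swap
  · exact small _ hP e1
  rcases e2 with e2 | e2
  swap
  · exact small _ hP' e2
  have hch1 : l'.IsChain (fun a b => J c y' a.2 b.1 b.2) := by
    rw [hl', List.isChain_map]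
    exact h1.imp fun a b h => J_map c y ρ h
  have hch2 : l'.IsChain (fun a b => J c y' (!b.2) b.1⁻¹ (!a.2)) := by
    rw [hl', List.isChain_map]
    refine h2.imp fun a b h => ?_
    have := J_map c y ρ h
    rw [map_inv] at this
    exact this
  have hk1 := ker_P hc l' hl'0 hch1
  have hk2 := ker_P' hc l' hl'0 hch2
  have hlast : (l'.getLast hl'0).2 = (l.getLast hl).2 := by
    simp [hl', List.getLast_map]
  have hhead : l'.head hl'0 = (GeneralLinearGroup.map ρ (l.head hl).1, (l.head hl).2) := by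
    simp [hl', List.head_map]
  have hJ : J c y' (l'.getLast hl'0).2 (l'.head hl'0).1 (l'.head hl'0).2 := by
    rw [hlast, hhead]
    exact J_map c y ρ h3
  have := finrank_inter hc hd hJ Wb (by
    intro v hv
    have h4 : P c y' l' *ᵥ v = 0 := by
      have : Wb ≤ LinearMap.ker (P c y' l').mulVecLin := by
        rw [Submodule.span_le]
        rintro _ ⟨i, rfl⟩
        exact e1 i
      exact this hv
    have h5 : P' c y' l' *ᵥ v = 0 := by
      have : Wb ≤ LinearMap.ker (P' c y' l').mulVecLin := by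
        rw [Submodule.span_le]
        rintro _ ⟨i, rfl⟩
        exact e2 i
      exact this hv
    exact ⟨hk1 v h4, hk2 v h5⟩)
  rw [hWb] at this
  exact this

end ping

end Pool.Agent.H3.Wild
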