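import Pool.Agent.H3.WildStep
import Pool.Agent.H3.WildCard

/-!
The recursion producing a good group which is transitive on pairs of independent vectors.
-/

namespace Pool.Agent.H3.Wild

open Module Matrix Cardinal

universe u

variable {F : Type u} [Field F] {n : ℕ}

/-- every noncentral element is good -/
def GoodGroup (G : Subgroup (GL (Fin n) F)) : Prop :=
  ∀ g ∈ G, g ∉ Subgroup.center (GL (Fin n) F) → Good g.val

/-- matrices with entries in a subfield -/
lemma exists_gl_of_entries {K : Type*} [Field K] [Algebra K F] (g : GL (Fin n) F)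
    (hg : ∀ i j, ∃ a : K, algebraMap K F a = g.val i j) :
    ∃ g' : GL (Fin n) K, GeneralLinearGroup.map (algebraMap K F) g' = g := by
  choose a ha using hg
  let M : Matrix (Fin n) (Fin n) K := a
  have hM : M.map (algebraMap K F) = g.val := by
    ext i j
    exact ha i j
  have hdet : M.det ≠ 0 := by
    intro h0
    have h1 : g.val.det ≠ 0 := g.isUnit.map (Matrix.detMonoidHom) |>.ne_zero
    apply h1
    rw [← hM, ← RingHom.mapMatrix_apply, ← RingHom.map_det, h0, map_zero]
  refine ⟨Matrix.GeneralLinearGroup.mkOfDetNeZero M hdet, ?_⟩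
  ext i j
  exact ha i j

/-- a frame over `K` with two prescribed columns -/
lemma exists_frame_pair {K : Type*} [Field K] [Algebra K F] (i0 : Fin 2 → Fin n)
    (hi : Function.Injective i0) (v : Fin 2 → Fin n → F)
    (hv : LinearIndependent F ![v 0, v 1])
    (hK : ∀ a i, ∃ b : K, algebraMap K F b = v a i) :
    ∃ B : GL (Fin n) K, ∀ a, (GeneralLinearGroup.map (algebraMap K F) B).val *ᵥ
      Pi.single (i0 a) 1 = v a := by
  choose w hw using hK
  have hli : LinearIndependent K w := by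
    rw [LinearIndependent.pair_iff] at hv
    rw [Fintype.linearIndependent_iff]
    intro g hg
    have h1 : (algebraMap K F (g 0)) • v 0 + (algebraMap K F (g 1)) • v 1 = 0 := by
      ext i
      have := congrArg (algebraMap K F) (congrFun hg i)
      simp only [Fin.sum_univ_two, Pi.add_apply, Pi.smul_apply, smul_eq_mul, map_add, map_mul, hw,
        Pi.zero_apply, map_zero] at this
      simpa only [Pi.add_apply, Pi.smul_apply, smul_eq_mul, Pi.zero_apply] using this
    obtain ⟨h2, h3⟩ := hv _ _ h1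
    intro a
    fin_cases a
    · simpa using h2
    · simpa using h3
  obtain ⟨B, hB⟩ := exists_gl_of_li i0 hi w hli
  refine ⟨B, fun a => ?_⟩
  ext j
  rw [mulVec_single_apply]
  have := congrFun (hB a) j
  rw [mulVec_single_apply] at this
  rw [← hw, ← this]
  rfl

/-- the tasks -/
def Task (F : Type u) [Field F] (n : ℕ) : Type u :=
  {p : (Fin n → F) × (Fin n → F) × (Fin n → F) × (Fin n → F) //
    LinearIndependent F ![p.1, p.2.1] ∧ LinearIndependent F ![p.2.2.1, p.2.2.2]}

/-- the property required of the new element -/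
def Pr (G : Subgroup (GL (Fin n) F)) (p : Task F n) (x : GL (Fin n) F) : Prop :=
  (x.val *ᵥ p.1.1 = p.1.2.2.1 ∧ x.val *ᵥ p.1.2.1 = p.1.2.2.2) ∧
    GoodGroup (Subgroup.closure ((G : Set (GL (Fin n) F)) ∪ {x}))

lemma step (hF : ∃ x : ℕ → F, AlgebraicIndependent (⊥ : Subfield F) x) (hn : 6 ≤ n)
    (S : Set (GL (Fin n) F)) (hS : #S < #F) (hG : GoodGroup (Subgroup.closure S))
    (p : Task F n) : ∃ x, Pr (Subgroup.closure S) p x := by
  classical
  have hinf := (cardinal_eq_trdeg hF).2
  obtain ⟨⟨v, w, v', w'⟩, hp1, hp2⟩ := p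
  let vv : Fin 4 → Fin n → F := ![v, w, v', w']
  let s1 : Set F := Set.range fun q : S × Fin n × Fin n => q.1.1.val q.2.1 q.2.2
  let s2 : Set F := Set.range fun q : Fin 4 × Fin n => vv q.1 q.2
  let s : Set F := s1 ∪ s2
  have hs : #s < #F := by
    refine (mk_union_le _ _).trans_lt (add_lt_of_lt hinf ?_ ?_)
    · have h1 : #s1 ≤ #(S × Fin n × Fin n) := mk_range_le
      refine h1.trans_lt ?_
      rw [mk_prod, lift_uzero]
      exact mul_lt_of_lt hinf hS ((lift_lt_aleph0.mpr (lt_aleph0_of_finite _)).trans_le hinf)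
    · refine lt_of_lt_of_le ?_ hinf
      rw [lt_aleph0_iff_set_finite]
      exact Set.finite_range _
  set K := IntermediateField.adjoin (⊥ : Subfield F) s with hK
  obtain ⟨z, hz⟩ := exists_algebraicIndependent hF s hs (Option (Fin n × Fin n))
  have hmem : ∀ a ∈ s, ∃ b : K, algebraMap K F b = a := fun a ha =>
    ⟨⟨a, IntermediateField.subset_adjoin _ _ ha⟩, rfl⟩
  let ι : GL (Fin n) K →* GL (Fin n) F := GeneralLinearGroup.map (algebraMap K F)
  have hle : Subgroup.closure S ≤ ι.range := by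
    rw [Subgroup.closure_le]
    intro g hg
    obtain ⟨g', hg'⟩ := exists_gl_of_entries (K := K) g
      (fun i j => hmem _ (Or.inl ⟨⟨⟨g, hg⟩, i, j⟩, rfl⟩))
    exact ⟨g', hg'⟩
  let G : Subgroup (GL (Fin n) K) := (Subgroup.closure S).comap ι
  have hGmap : G.map ι = Subgroup.closure S := Subgroup.map_comap_eq_self hle
  -- indices
  let i0 : Fin 2 → Fin n := fun a => ⟨a.1, by omega⟩
  let c : Bool → Fin 2 → Fin n := fun e a => ⟨(if e then 2 else 4) + a.1, by
    split_ifs <;> omega⟩
  have hi : Function.Injective i0 := by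
    intro a b h
    ext
    simpa [i0] using h
  have hc : ∀ e, Function.Injective (c e) := by
    intro e a b h
    ext
    simpa [c] using h
  have hd : ∀ e a b, c e a ≠ c (!e) b := by
    intro e a b h
    have h1 := congrArg Fin.val h
    have h2 := a.2
    have h3 := b.2
    cases e <;> simp [c] at h1 <;> omega
  have hic : ∀ e a b, i0 a ≠ c e b := by
    intro e a b h
    have h1 := congrArg Fin.val h
    have h2 := a.2
    have h3 := b.2
    cases e <;> simp [c, i0] at h1 <;> omega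
  obtain ⟨B1, hB1⟩ := exists_frame_pair (K := K) i0 hi ![v, w] hp1 (by
    intro a i
    fin_cases a
    · exact hmem _ (Or.inr ⟨⟨0, i⟩, rfl⟩)
    · exact hmem _ (Or.inr ⟨⟨1, i⟩, rfl⟩))
  obtain ⟨B2, hB2⟩ := exists_frame_pair (K := K) i0 hi ![v', w'] hp2 (by
    intro a i
    fin_cases a
    · exact hmem _ (Or.inr ⟨⟨2, i⟩, rfl⟩)
    · exact hmem _ (Or.inr ⟨⟨3, i⟩, rfl⟩))
  have hGgood : ∀ g ∈ G, g ∉ Subgroup.center (GL (Fin n) K) → Good (ι g).val := by
    intro g hg hg1
    apply hG (ι g) hg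
    intro h
    exact hg1 (central_of_map _ h)
  obtain ⟨x, hx1, hx2⟩ := ext_step hn hz G hGgood (fun e => if e then B1 else B2) i0 c hi hc hd hic
  refine ⟨x, ⟨?_, ?_⟩, ?_⟩
  · have e1 : (GeneralLinearGroup.map (algebraMap K F) B1).val *ᵥ Pi.single (i0 0) 1 = v := hB1 0
    calc x.val *ᵥ v = x.val *ᵥ ((GeneralLinearGroup.map (algebraMap K F) B1).val *ᵥ
          Pi.single (i0 0) 1) := by rw [e1]
      _ = _ := hx1 0
      _ = v' := hB2 0
  · have e1 : (GeneralLinearGroup.map (algebraMap K F) B1).val *ᵥ Pi.single (i0 1) 1 = w := hB1 1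
    calc x.val *ᵥ w = x.val *ᵥ ((GeneralLinearGroup.map (algebraMap K F) B1).val *ᵥ
          Pi.single (i0 1) 1) := by rw [e1]
      _ = _ := hx1 1
      _ = w' := hB2 1
  · intro g hg hg1
    refine hx2 g ?_ hg1
    have : ((G.map ι : Subgroup (GL (Fin n) F)) : Set (GL (Fin n) F)) =
        (Subgroup.closure S : Set (GL (Fin n) F)) := by rw [hGmap]
    rw [this]
    exact hg

section recursion

variable {I : Type u} [LinearOrder I] [WellFoundedLT I] (S₀ : Set (GL (Fin n) F))

open Classical in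
/-- the recursively defined elements -/
noncomputable def xx (f : I → Task F n) : I → GL (Fin n) F :=
  wellFounded_lt.fix (C := fun _ => GL (Fin n) F) fun i rec =>
    if h : ∃ x, Pr (Subgroup.closure (S₀ ∪ {g | ∃ j, ∃ hj : j < i, g = rec j hj})) (f i) x
      then h.choose else 1

/-- the generators with index in `T` -/
def gens (f : I → Task F n) (T : Set I) : Set (GL (Fin n) F) := S₀ ∪ {g | ∃ j ∈ T, g = xx S₀ f j}

lemma xx_spec (f : I → Task F n) (i : I)
    (h : ∃ x, Pr (Subgroup.closure (gens S₀ f (Set.Iio i))) (f i) x) :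
    Pr (Subgroup.closure (gens S₀ f (Set.Iio i))) (f i) (xx S₀ f i) := by
  classical
  have hset : S₀ ∪ {g | ∃ j, ∃ _ : j < i, g = xx S₀ f j} = gens S₀ f (Set.Iio i) := by
    unfold gens
    congr 1
    ext g
    simp
  have key : xx S₀ f i =
      if h : ∃ x, Pr (Subgroup.closure (S₀ ∪ {g | ∃ j, ∃ _ : j < i, g = xx S₀ f j})) (f i) x
      then h.choose else 1 := by
    unfold xx
    rw [WellFounded.fix_eq]
  have h' : ∃ x, Pr (Subgroup.closure (S₀ ∪ {g | ∃ j, ∃ _ : j < i, g = xx S₀ f j})) (f i) x := by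
    rw [hset]
    exact h
  have spec := h'.choose_spec
  rw [key, dif_pos h']
  have e : Subgroup.closure (gens S₀ f (Set.Iio i)) =
      Subgroup.closure (S₀ ∪ {g | ∃ j, ∃ _ : j < i, g = xx S₀ f j}) := by rw [hset]
  rw [e]
  exact spec

lemma gens_mono (f : I → Task F n) {T T' : Set I} (h : T ⊆ T') : gens S₀ f T ⊆ gens S₀ f T' := by
  rintro g (hg | ⟨j, hj, rfl⟩)
  · exact Or.inl hg
  · exact Or.inr ⟨j, h hj, rfl⟩

/-- an element of the group generated by the `xx j`, `j ∈ T`, lies in a smaller group -/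
lemma mem_small (f : I → Task F n) (T : Set I) {w : GL (Fin n) F}
    (hw : w ∈ Subgroup.closure (gens S₀ f T)) :
    w ∈ Subgroup.closure S₀ ∨ ∃ j ∈ T, w ∈ Subgroup.closure (gens S₀ f (Set.Iic j)) := by
  have mono : ∀ {j j' : I}, j ≤ j' → Subgroup.closure (gens S₀ f (Set.Iic j)) ≤
      Subgroup.closure (gens S₀ f (Set.Iic j')) := by
    intro j j' h
    exact Subgroup.closure_mono (gens_mono S₀ f (Set.Iic_subset_Iic.mpr h))
  have base : ∀ j : I, Subgroup.closure S₀ ≤ Subgroup.closure (gens S₀ f (Set.Iic j)) := fun j =>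
    Subgroup.closure_mono Set.subset_union_left
  induction hw using Subgroup.closure_induction with
  | mem g hg =>
    rcases hg with hg | ⟨j, hj, rfl⟩
    · exact Or.inl (Subgroup.subset_closure hg)
    · exact Or.inr ⟨j, hj, Subgroup.subset_closure (Or.inr ⟨j, le_rfl, rfl⟩)⟩
  | one => exact Or.inl (Subgroup.one_mem _)
  | mul a b ha hb iha ihb =>
    rcases iha with hja | ⟨j, hj, hja⟩
    · rcases ihb with hjb | ⟨j', hj', hjb⟩
      · exact Or.inl (Subgroup.mul_mem _ hja hjb)
      · exact Or.inr ⟨j', hj', Subgroup.mul_mem _ (base j' hja) hjb⟩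
    right
    rcases ihb with hjb | ⟨j', hj', hjb⟩
    · exact ⟨j, hj, Subgroup.mul_mem _ hja (base j hjb)⟩
    rcases le_total j j' with h | h
    · exact ⟨j', hj', Subgroup.mul_mem _ (mono h hja) hjb⟩
    · exact ⟨j, hj, Subgroup.mul_mem _ hja (mono h hjb)⟩
  | inv a ha iha =>
    rcases iha with hja | ⟨j, hj, hja⟩
    · exact Or.inl (Subgroup.inv_mem _ hja)
    · exact Or.inr ⟨j, hj, Subgroup.inv_mem _ hja⟩

variable {S₀}

lemma mk_gens_lt (hinf : ℵ₀ ≤ #F) (hS₀ : #S₀ < #F) (f : I → Task F n) {T : Set I}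
    (hT : #T < #F) : #(gens S₀ f T) < #F := by
  refine (mk_union_le _ _).trans_lt (add_lt_of_lt hinf hS₀ ?_)
  have h1 : ({g | ∃ k ∈ T, g = xx S₀ f k} : Set (GL (Fin n) F)) = xx S₀ f '' T := by
    ext g
    constructor
    · rintro ⟨k, hk, rfl⟩; exact ⟨k, hk, rfl⟩
    · rintro ⟨k, hk, rfl⟩; exact ⟨k, hk, rfl⟩
  rw [h1]
  exact mk_image_le.trans_lt hT

lemma closure_gens_Iic (f : I → Task F n) (j : I) :
    Subgroup.closure (gens S₀ f (Set.Iic j)) ≤
        Subgroup.closure ((Subgroup.closure (gens S₀ f (Set.Iio j)) :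
          Set (GL (Fin n) F)) ∪ {xx S₀ f j}) := by
  rw [Subgroup.closure_le]
  rintro g (hg | ⟨k, hk, rfl⟩)
  · exact Subgroup.subset_closure (Or.inl (Subgroup.subset_closure (Or.inl hg)))
  rcases (show k ≤ j from hk).lt_or_eq with h | rfl
  · exact Subgroup.subset_closure (Or.inl (Subgroup.subset_closure (Or.inr ⟨k, h, rfl⟩)))
  · exact Subgroup.subset_closure (Or.inr rfl)

lemma good_rec (hF : ∃ x : ℕ → F, AlgebraicIndependent (⊥ : Subfield F) x) (hn : 6 ≤ n)
    (hS₀ : #S₀ < #F) (hg₀ : GoodGroup (Subgroup.closure S₀))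
    (hI : ∀ i : I, #(Set.Iio i) < #F) (f : I → Task F n) (i : I) :
    GoodGroup (Subgroup.closure (gens S₀ f (Set.Iio i))) := by
  have hinf := (cardinal_eq_trdeg hF).2
  induction i using WellFoundedLT.induction with
  | ind i ih =>
    intro w hw hw1
    rcases mem_small S₀ f (Set.Iio i) hw with h | ⟨j, hj, hwj⟩
    · exact hg₀ w h hw1
    have h2 := xx_spec S₀ f j (step hF hn _ (mk_gens_lt hinf hS₀ f (hI j)) (ih j hj) (f j))
    exact h2.2 w (closure_gens_Iic f j hwj) hw1

end recursion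

/-- a good group which is transitive on ordered pairs of independent vectors -/
theorem exists_good_group (hF : ∃ x : ℕ → F, AlgebraicIndependent (⊥ : Subfield F) x)
    (hn : 6 ≤ n) (S₀ : Set (GL (Fin n) F)) (hS₀ : #S₀ < #F)
    (hg₀ : GoodGroup (Subgroup.closure S₀)) :
    ∃ G : Subgroup (GL (Fin n) F), Subgroup.closure S₀ ≤ G ∧ GoodGroup G ∧
      ∀ v w v' w' : Fin n → F, LinearIndependent F ![v, w] → LinearIndependent F ![v', w'] →
        ∃ g ∈ G, g.val *ᵥ v = v' ∧ g.val *ᵥ w = w' := by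
  classical
  have hinf := (cardinal_eq_trdeg hF).2
  let I := (#F).ord.ToType
  have hI : ∀ i : I, #(Set.Iio i) < #F := fun i => mk_Iio_toType_ord_lt i
  have hvec : #(Fin n → F) ≤ #F := by
    rw [mk_arrow, mk_fin, lift_uzero, lift_natCast]
    exact power_nat_le hinf
  have hT : #(Task F n) ≤ #I := by
    have h1 : #(Task F n) ≤ #((Fin n → F) × (Fin n → F) × (Fin n → F) × (Fin n → F)) :=
      mk_subtype_le _
    have h2 : #I = #F := mk_ord_toType _
    rw [h2]
    refine h1.trans ?_
    simp only [mk_prod, lift_id]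
    calc #(Fin n → F) * (#(Fin n → F) * (#(Fin n → F) * #(Fin n → F)))
        ≤ #F * (#F * (#F * #F)) := by gcongr
      _ = #F := by simp only [mul_eq_self hinf]
  obtain ⟨emb⟩ := hT
  have hne : Nonempty (Task F n) := by
    have h01 : (⟨0, by omega⟩ : Fin n) ≠ ⟨1, by omega⟩ := by simp
    have hli : LinearIndependent F ![(Pi.single (⟨0, by omega⟩ : Fin n) 1 : Fin n → F),
        Pi.single (⟨1, by omega⟩ : Fin n) 1] := by
      rw [LinearIndependent.pair_iff]
      intro a b h
      have h1 := congrFun h ⟨0, by omega⟩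
      have h2 := congrFun h ⟨1, by omega⟩
      simp [Pi.single_apply] at h1 h2
      exact ⟨h1, h2⟩
    exact ⟨⟨(_, _, _, _), hli, hli⟩⟩
  let f : I → Task F n := Function.invFun emb
  have hf : Function.Surjective f := Function.invFun_surjective emb.injective
  have hspec : ∀ j : I, Pr (Subgroup.closure (gens S₀ f (Set.Iio j))) (f j) (xx S₀ f j) := fun j =>
    xx_spec S₀ f j (step hF hn _ (mk_gens_lt hinf hS₀ f (hI j))
      (good_rec hF hn hS₀ hg₀ hI f j) (f j))
  refine ⟨Subgroup.closure (gens S₀ f Set.univ), Subgroup.closure_mono Set.subset_union_left,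
    ?_, ?_⟩
  · intro w hw hw1
    rcases mem_small S₀ f Set.univ hw with h | ⟨j, -, hwj⟩
    · exact hg₀ w h hw1
    exact (hspec j).2 w (closure_gens_Iic f j hwj) hw1
  · intro v w v' w' h1 h2
    obtain ⟨j, hj⟩ := hf ⟨(v, w, v', w'), h1, h2⟩
    have h3 := hspec j
    rw [hj] at h3
    exact ⟨xx S₀ f j, Subgroup.subset_closure (Or.inr ⟨j, Set.mem_univ _, rfl⟩), h3.1.1, h3.1.2⟩

end Pool.Agent.H3.Wild
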