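import Mathlib

/-!
Reduction of subspaces of `F ^ n` modulo the maximal ideal of a valuation subring.
-/

namespace Pool.Agent.H3.Wild

open Module

variable {F : Type*} [Field F]

/-- a nonzero vector can be scaled so that all coordinates are integral and one is `1` -/
lemma exists_primitive (A : ValuationSubring F) {n : ℕ} (v : Fin n → F) (hv : v ≠ 0) :
    ∃ (c : F) (w : Fin n → A) (j : Fin n), w j = 1 ∧ ∀ i, c * v i = (w i : F) := by
  classical
  have hne : Nonempty (Fin n) := by
    by_contra h
    rw [not_nonempty_iff] at h
    exact hv (Subsingleton.elim _ _)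
  obtain ⟨j, hj⟩ := Finite.exists_max (fun i => A.valuation (v i))
  have hvj : v j ≠ 0 := by
    intro h
    apply hv
    ext i
    have := hj i
    rw [h, map_zero, le_zero_iff, map_eq_zero] at this
    simpa using this
  have hmem : ∀ i, (v j)⁻¹ * v i ∈ A := by
    intro i
    rw [← A.valuation_le_one_iff, map_mul, map_inv₀]
    have h0 : A.valuation (v j) ≠ 0 := by simpa using hvj
    calc (A.valuation (v j))⁻¹ * A.valuation (v i)
        ≤ (A.valuation (v j))⁻¹ * A.valuation (v j) := by
          gcongr
          exact hj i
      _ = 1 := inv_mul_cancel₀ h0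
  refine ⟨(v j)⁻¹, fun i => ⟨_, hmem i⟩, j, ?_, fun i => rfl⟩
  apply Subtype.ext
  simp [inv_mul_cancel₀ hvj]

open IsLocalRing in
/-- every subspace of `F ^ n` has a basis of integral vectors whose reductions are linearly
independent -/
lemma exists_reduction (A : ValuationSubring F) {n : ℕ} (r : ℕ) :
    ∀ (W : Submodule F (Fin n → F)), finrank F W = r →
      ∃ b : Fin r → (Fin n → A), (∀ i, (fun j => ((b i j : A) : F)) ∈ W) ∧
        LinearIndependent (ResidueField A) (fun i j => residue A (b i j)) := by
  induction r with
  | zero =>
    intro W _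
    exact ⟨Fin.elim0, fun i => i.elim0, linearIndependent_empty_type⟩
  | succ r ih =>
    intro W hW
    have hne : ∃ v ∈ W, v ≠ 0 := by
      have : Nontrivial W := by
        rw [← Module.finrank_pos_iff (R := F)]
        omega
      obtain ⟨w, hw⟩ := exists_ne (0 : W)
      exact ⟨w, w.2, fun h => hw (Subtype.ext h)⟩
    obtain ⟨v, hvW, hv0⟩ := hne
    obtain ⟨c, w, j, hwj, hw⟩ := exists_primitive A v hv0
    have hwW : (fun i => ((w i : A) : F)) ∈ W := by
      have : (fun i => ((w i : A) : F)) = c • v := by
        ext i
        simp [← hw i]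
      rw [this]
      exact W.smul_mem c hvW
    let W' : Submodule F (Fin n → F) := W ⊓ LinearMap.ker (LinearMap.proj (R := F) j)
    have hwW' : (fun i => ((w i : A) : F)) ∉ W' := by
      rintro ⟨-, h⟩
      simp [hwj] at h
    have hsup : W' ⊔ Submodule.span F {(fun i => ((w i : A) : F))} = W := by
      apply le_antisymm
      · refine sup_le inf_le_left ?_
        rw [Submodule.span_singleton_le_iff_mem]
        exact hwW
      · intro u hu
        rw [Submodule.mem_sup]
        refine ⟨u - u j • (fun i => ((w i : A) : F)), ⟨W.sub_mem hu (W.smul_mem _ hwW), ?_⟩,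
          u j • (fun i => ((w i : A) : F)), Submodule.smul_mem _ _
            (Submodule.mem_span_singleton_self _), by abel⟩
        simp [hwj]
    have hfin : finrank F W' = r := by
      have h1 := Submodule.finrank_sup_span_singleton hwW'
      rw [hsup, hW] at h1
      omega
    obtain ⟨b, hb, hli⟩ := ih W' hfin
    refine ⟨Fin.cons w b, ?_, ?_⟩
    · intro i
      refine Fin.cases ?_ (fun i => ?_) i
      · simpa using hwW
      · simpa using (hb i).1
    · have heq : (fun (i : Fin (r + 1)) (k : Fin n) =>
          residue A ((Fin.cons w b : Fin (r + 1) → (Fin n → A)) i k)) =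
          Fin.cons (fun k => residue A (w k)) (fun i k => residue A (b i k)) := by
        ext i k
        refine Fin.cases ?_ (fun i => ?_) i <;> simp
      rw [heq, linearIndependent_finCons]
      refine ⟨hli, ?_⟩
      intro hmem
      have hle : Submodule.span (ResidueField A) (Set.range fun i k => residue A (b i k)) ≤
          LinearMap.ker (LinearMap.proj (R := ResidueField A) j) := by
        rw [Submodule.span_le]
        rintro _ ⟨i, rfl⟩
        have h2 := (hb i).2
        simp only [LinearMap.mem_ker, LinearMap.proj_apply, SetLike.mem_coe] at h2 ⊢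
        have h3 : b i j = 0 := Subtype.ext h2
        rw [h3, map_zero]
      have h4 := hle hmem
      simp [hwj] at h4

end Pool.Agent.H3.Wild
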