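import Pool.Agent.H3.WildExt

/-!
The extension step.
-/

namespace Pool.Agent.H3.Wild

open Module Matrix IsLocalRing

variable {F : Type*} [Field F] {n : ℕ}

lemma map_central {K L : Type*} [Field K] [Field L] (f : K →+* L) {g : GL (Fin n) K}
    (hg : g ∈ Subgroup.center (GL (Fin n) K)) :
    GeneralLinearGroup.map f g ∈ Subgroup.center (GL (Fin n) L) := by
  rw [Matrix.GeneralLinearGroup.center_eq_range_scalar] at hg ⊢
  obtain ⟨z, rfl⟩ := hg
  refine ⟨Units.map f z, ?_⟩
  ext i j
  simp only [Matrix.GeneralLinearGroup.coe_scalar, Matrix.GeneralLinearGroup.map_apply,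
    Units.coe_map, Matrix.scalar_apply, Matrix.diagonal_apply]
  split_ifs <;> simp

lemma central_of_map {K L : Type*} [Field K] [Field L] (f : K →+* L) {g : GL (Fin n) K}
    (hg : GeneralLinearGroup.map f g ∈ Subgroup.center (GL (Fin n) L)) :
    g ∈ Subgroup.center (GL (Fin n) K) := by
  rw [Subgroup.mem_center_iff] at hg ⊢
  intro h
  have h1 := hg (GeneralLinearGroup.map f h)
  rw [← map_mul, ← map_mul] at h1
  refine Units.ext (Matrix.ext fun i j => ?_)
  have := congrArg (fun u : GL (Fin n) L => u.val i j) h1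
  exact f.injective this

theorem ext_step (hn : 6 ≤ n) {K : Type*} [Field K] [Algebra K F]
    {z : Option (Fin n × Fin n) → F} (hz : AlgebraicIndependent K z)
    (G : Subgroup (GL (Fin n) K))
    (hG : ∀ g ∈ G, g ∉ Subgroup.center (GL (Fin n) K) →
      Good (GeneralLinearGroup.map (algebraMap K F) g).val)
    (B : Bool → GL (Fin n) K) (i0 : Fin 2 → Fin n) (c : Bool → Fin 2 → Fin n)
    (hi : Function.Injective i0) (hc : ∀ e, Function.Injective (c e))
    (hd : ∀ e a b, c e a ≠ c (!e) b) (hic : ∀ e a b, i0 a ≠ c e b) :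
    ∃ x : GL (Fin n) F,
      (∀ a, x.val *ᵥ ((GeneralLinearGroup.map (algebraMap K F) (B true)).val *ᵥ
          Pi.single (i0 a) 1) =
        (GeneralLinearGroup.map (algebraMap K F) (B false)).val *ᵥ Pi.single (i0 a) 1) ∧
      ∀ w ∈ Subgroup.closure (((G.map (GeneralLinearGroup.map (algebraMap K F)) :
          Subgroup (GL (Fin n) F)) : Set (GL (Fin n) F)) ∪ {x}),
        w ∉ Subgroup.center (GL (Fin n) F) → Good w.val := by
  classical
  set y : Fin n × Fin n → F := fun p => z (some p) with hy
  set t : F := z none with ht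
  have hzo : AlgebraicIndependent K (fun o : Option (Fin n × Fin n) => o.elim t y) := by
    have : (fun o : Option (Fin n × Fin n) => o.elim t y) = z := by
      ext o
      cases o <;> rfl
    rw [this]
    exact hz
  rw [AlgebraicIndependent.option_iff] at hzo
  obtain ⟨hyi, htr⟩ := hzo
  rw [← IntermediateField.transcendental_adjoin_iff] at htr
  set K1 : IntermediateField K F := IntermediateField.adjoin K (Set.range y) with hK1
  have ht0 : t ≠ 0 := by
    intro h
    rw [h] at htr
    exact htr isAlgebraic_zero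
  have hinf : Infinite F := by
    by_contra hcon
    rw [not_infinite_iff_finite] at hcon
    have : Finite K := Finite.of_injective _ (algebraMap K F).injective
    exact htr (by
      have : Finite K1 := Finite.of_injective _ (algebraMap K1 F).injective
      have : Algebra.IsAlgebraic K1 F := Algebra.IsAlgebraic.of_finite K1 F
      exact Algebra.IsAlgebraic.isAlgebraic t)
  obtain ⟨A, hA, τ, hτ, hτ'⟩ := exists_valuation htr
  let φ : K1 →+* A := (algebraMap K1 F).codRestrict A.toSubring hA
  have hφ : A.subtype.comp φ = algebraMap K1 F := rfl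
  -- frames
  have hframe : ∀ (e e' : Bool) (g : GL (Fin n) K), g ∈ G →
      (e' = !e → g ∉ Subgroup.center (GL (Fin n) K)) →
      (((Xs i0 y).adjugate * (((B e)⁻¹ * g * B (!e')).val.map (algebraMap K F)) *
        Xs i0 y).submatrix (c e) (c e')).det ≠ 0 ∧ (Xs i0 y).det ≠ 0 := by
    intro e e' g hg hne
    apply generic_frame i0 hyi
    by_cases hee : e' = !e
    · have hgood : Good (GeneralLinearGroup.map (algebraMap K F) ((B e)⁻¹ * g * B (!e'))).val := by
        have h1 := (hG g hg (hne hee)).conj (GeneralLinearGroup.map (algebraMap K F) (B e))⁻¹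
        rw [inv_inv, ← map_inv, ← map_mul, ← map_mul] at h1
        rw [hee, Bool.not_not]
        exact h1
      subst hee
      exact exists_frame_mixed hn hgood i0 (c e) (c (!e)) hi (hc e) (hc _) (hic e) (hic _) (hd e)
    · have : e' = e := by
        revert hee
        cases e <;> cases e' <;> simp
      subst this
      exact exists_frame_same _ i0 (c e') (hc e') (hic e')
  have hdetX : (Xs i0 y).det ≠ 0 := (hframe true true 1 G.one_mem (by simp)).2
  -- the generic matrix over `K1`
  have hmem : ∀ a b, Xs i0 y a b ∈ K1 := by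
    intro a b
    unfold Xs
    split_ifs
    · exact K1.one_mem
    · exact K1.zero_mem
    · exact IntermediateField.subset_adjoin K _ ⟨(a, b), rfl⟩
  let X0 : Matrix (Fin n) (Fin n) K1 := fun a b => ⟨Xs i0 y a b, hmem a b⟩
  have hX0 : X0.map (algebraMap K1 F) = Xs i0 y := by
    ext a b
    rfl
  have hdetX0 : X0.det ≠ 0 := by
    intro h0
    apply hdetX
    rw [← hX0, ← RingHom.mapMatrix_apply, ← RingHom.map_det, h0, map_zero]
  let X : GL (Fin n) K1 := Matrix.GeneralLinearGroup.mkOfDetNeZero X0 hdetX0
  have hX : (GeneralLinearGroup.map (algebraMap K1 F) X).val = Xs i0 y := hX0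
  let ι : GL (Fin n) K →* GL (Fin n) K1 := GeneralLinearGroup.map (algebraMap K K1)
  let yy : Bool → GL (Fin n) K1 := fun e => ι (B e) * X
  have hι : ∀ g, GeneralLinearGroup.map (algebraMap K1 F) (ι g) =
      GeneralLinearGroup.map (algebraMap K F) g := by
    intro g
    ext a b
    rfl
  let G1 : Subgroup (GL (Fin n) K1) := G.map ι
  have hJ : ∀ e e' : Bool, ∀ g ∈ G1, (e' = !e → g ∉ Subgroup.center (GL (Fin n) K1)) →
      J c yy e g e' := by
    rintro e e' _ ⟨g, hg, rfl⟩ hne
    have h1 := (hframe e e' g hg (fun h h' => hne h (map_central _ h'))).1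
    rw [← hX] at h1
    have h2 := (adj_ne_zero_iff (GeneralLinearGroup.map (algebraMap K1 F) X)
      (GeneralLinearGroup.map (algebraMap K F) ((B e)⁻¹ * g * B (!e'))) (c e) (c e')).mp h1
    unfold J
    intro h3
    apply h2
    have h4 : ((GeneralLinearGroup.map (algebraMap K1 F) X)⁻¹ *
        GeneralLinearGroup.map (algebraMap K F) ((B e)⁻¹ * g * B (!e')) *
        GeneralLinearGroup.map (algebraMap K1 F) X : GL (Fin n) F) =
        GeneralLinearGroup.map (algebraMap K1 F) ((yy e)⁻¹ * ι g * yy (!e')) := by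
      rw [← hι]
      simp only [yy, map_mul, map_inv, _root_.mul_inv_rev, mul_assoc]
    rw [h4]
    have h5 : (GeneralLinearGroup.map (algebraMap K1 F) ((yy e)⁻¹ * ι g * yy (!e'))).val.submatrix
        (c e) (c e') = (((yy e)⁻¹ * ι g * yy (!e')).val.submatrix (c e) (c e')).map
          (algebraMap K1 F) := rfl
    rw [h5, ← RingHom.mapMatrix_apply, ← RingHom.map_det, h3, map_zero]
  have hGψ : ∀ g : GL (Fin n) K, ψ A φ (ι g) = GeneralLinearGroup.map (algebraMap K F) g := by
    intro g
    unfold ψ
    rw [hφ]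
    exact hι g
  refine ⟨xF A φ c yy hd ht0 true, ?_, ?_⟩
  · intro a
    have h1 : (GeneralLinearGroup.map (A.subtype.comp φ) (yy true)) =
        GeneralLinearGroup.map (algebraMap K F) (B true) *
          GeneralLinearGroup.map (algebraMap K1 F) X := by
      rw [hφ, map_mul, hι]
    have h2 : (GeneralLinearGroup.map (A.subtype.comp φ) (yy false)) =
        GeneralLinearGroup.map (algebraMap K F) (B false) *
          GeneralLinearGroup.map (algebraMap K1 F) X := by
      rw [hφ, map_mul, hι]
    have hXe : (GeneralLinearGroup.map (algebraMap K1 F) X).val *ᵥ Pi.single (i0 a) 1 =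
        Pi.single (i0 a) 1 := by
      rw [hX]
      exact Xs_mulVec i0 y a
    have hDe : (DF c hd ht0 true).val *ᵥ (Pi.single (i0 a) 1 : Fin n → F) =
        Pi.single (i0 a) 1 := by
      have h3 : (DF c hd ht0 true).val = Matrix.diagonal (dF c t true) := rfl
      rw [h3]
      ext b
      rw [Matrix.mulVec_diagonal]
      by_cases hb : b = i0 a
      · subst hb
        have h4 : dF c t true (i0 a) = 1 := by
          unfold dF
          rw [if_neg, if_neg]
          · rintro ⟨b, hb⟩
            exact hic _ a b hb.symm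
          · rintro ⟨b, hb⟩
            exact hic _ a b hb.symm
        rw [h4, one_mul]
      · rw [Pi.single_eq_of_ne hb, mul_zero]
    unfold xF
    rw [Bool.not_true, h1, h2]
    set X1 := GeneralLinearGroup.map (algebraMap K1 F) X
    set B1 := GeneralLinearGroup.map (algebraMap K F) (B true)
    set B2 := GeneralLinearGroup.map (algebraMap K F) (B false)
    rw [Matrix.mulVec_mulVec, ← Units.val_mul]
    have h5 : B2 * X1 * DF c hd ht0 true * (B1 * X1)⁻¹ * B1 = B2 * (X1 * (DF c hd ht0 true * X1⁻¹)) := by
      group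
    rw [h5, Units.val_mul, Units.val_mul, Units.val_mul, ← Matrix.mulVec_mulVec,
      ← Matrix.mulVec_mulVec, ← Matrix.mulVec_mulVec, inv_mulVec_of hXe, hDe, hXe]
  · intro w hw hw1
    have hset : ((G1.map (ψ A φ) : Subgroup (GL (Fin n) F)) : Set (GL (Fin n) F)) =
        ((G.map (GeneralLinearGroup.map (algebraMap K F)) :
          Subgroup (GL (Fin n) F)) : Set (GL (Fin n) F)) := by
      ext u
      constructor
      · rintro ⟨_, ⟨g, hg, rfl⟩, rfl⟩
        exact ⟨g, hg, (hGψ g).symm⟩
      · rintro ⟨g, hg, rfl⟩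
        exact ⟨ι g, ⟨g, hg, rfl⟩, hGψ g⟩
    rw [← hset] at hw
    refine good_closure A φ c yy hd ht0 G1 hn hc τ hτ hτ' hJ ?_ hw hw1
    rintro _ ⟨g, hg, rfl⟩ hg1
    rw [hGψ]
    exact hG g hg (fun h => hg1 (map_central _ h))

end Pool.Agent.H3.Wild
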