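import Pool.Agent.H3.WildPing

/-!
The group generated by a good group and a letter in general position is good.
-/

namespace Pool.Agent.H3.Wild

open Module Matrix IsLocalRing

variable {F : Type*} [Field F] {n : ℕ}

lemma Good.conj {g : GL (Fin n) F} (hg : Good g.val) (h : GL (Fin n) F) :
    Good (h * g * h⁻¹).val := by
  intro μ W hW
  let W' : Submodule F (Fin n → F) := W.map (h⁻¹).val.mulVecLin
  have h1 : W = W'.map h.val.mulVecLin := by
    rw [← Submodule.map_comp, ← Matrix.mulVecLin_mul, ← Units.val_mul, mul_inv_cancel,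
      Units.val_one, Matrix.mulVecLin_one, Submodule.map_id]
  have h2 : finrank F W' + 4 ≤ n := by
    apply hg μ
    rintro _ ⟨v, hv, rfl⟩
    have h3 := congrArg (fun u => (h⁻¹).val *ᵥ u) (hW v hv)
    simp only [Matrix.mulVec_mulVec, ← Units.val_mul, Matrix.mulVec_smul] at h3
    rw [Matrix.mulVecLin_apply, ← h3, Matrix.mulVec_mulVec, ← Units.val_mul]
    congr 2
    group
  have h3 : finrank F W ≤ finrank F W' := by
    conv_lhs => rw [h1]
    exact Submodule.finrank_map_le _ _
  omega

lemma exists_of_not_isChain {α : Type*} {R : α → α → Prop} (l : List α) (h : ¬ l.IsChain R) :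
    ∃ l₁ a b l₂, l = l₁ ++ a :: b :: l₂ ∧ ¬ R a b := by
  induction l with
  | nil => exact absurd List.IsChain.nil h
  | cons a l ih =>
    cases l with
    | nil => exact absurd (List.isChain_singleton a) h
    | cons b l =>
      rw [List.isChain_cons_cons] at h
      by_cases hab : R a b
      · have : ¬ (b :: l).IsChain R := fun hc => h ⟨hab, hc⟩
        obtain ⟨l₁, a', b', l₂, he, hR⟩ := ih this
        exact ⟨a :: l₁, a', b', l₂, by rw [he]; rfl, hR⟩
      · exact ⟨[], a, b, l, rfl, hab⟩

section word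

variable (A : ValuationSubring F) {K : Type*} [Field K] (φ : K →+* A)
  (c : Bool → Fin 2 → Fin n) (y : Bool → GL (Fin n) K)
  (hd : ∀ e a b, c e a ≠ c (!e) b) {t : F} (ht : t ≠ 0) (G : Subgroup (GL (Fin n) K))

/-- forget membership -/
def emb (l : List (G × Bool)) : List (GL (Fin n) K × Bool) :=
  l.map fun a => ((a.1 : GL (Fin n) K), a.2)

/-- the word -/
def wG (l : List (G × Bool)) : GL (Fin n) F := wF A φ c y hd ht (emb G l)

/-- the inclusion -/
def ψ : GL (Fin n) K →* GL (Fin n) F := GeneralLinearGroup.map (A.subtype.comp φ)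

lemma wG_cons (a : G × Bool) (l : List (G × Bool)) :
    wG A φ c y hd ht G (a :: l) =
      ψ A φ a.1 * xF A φ c y hd ht a.2 * wG A φ c y hd ht G l := rfl

lemma wG_nil : wG A φ c y hd ht G [] = 1 := rfl

lemma wG_append (l₁ l₂ : List (G × Bool)) :
    wG A φ c y hd ht G (l₁ ++ l₂) = wG A φ c y hd ht G l₁ * wG A φ c y hd ht G l₂ := by
  induction l₁ with
  | nil => simp [wG_nil]
  | cons a l ih => rw [List.cons_append, wG_cons, ih, wG_cons]; simp only [mul_assoc]

lemma wG_head (g : G) (a : G × Bool) (l : List (G × Bool)) :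
    wG A φ c y hd ht G ((g * a.1, a.2) :: l) = ψ A φ g * wG A φ c y hd ht G (a :: l) := by
  rw [wG_cons, wG_cons, Subgroup.coe_mul, map_mul]
  group

lemma exists_word {w : GL (Fin n) F}
    (hw : w ∈ Subgroup.closure ((G.map (ψ A φ) : Set (GL (Fin n) F)) ∪ {xF A φ c y hd ht true})) :
    ∃ (l : List (G × Bool)) (g : G), w = wG A φ c y hd ht G l * ψ A φ g := by
  have key : ∀ (g0 : G) (z : GL (Fin n) F),
      (∃ (l : List (G × Bool)) (g : G), z = wG A φ c y hd ht G l * ψ A φ g) →
      ∃ (l : List (G × Bool)) (g : G), ψ A φ g0 * z = wG A φ c y hd ht G l * ψ A φ g := by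
    rintro g0 z ⟨l, g, rfl⟩
    cases l with
    | nil =>
      refine ⟨[], g0 * g, ?_⟩
      rw [wG_nil, one_mul, one_mul, Subgroup.coe_mul, map_mul]
    | cons a l =>
      refine ⟨(g0 * a.1, a.2) :: l, g, ?_⟩
      rw [wG_head, mul_assoc]
  have key2 : ∀ (e : Bool) (z : GL (Fin n) F),
      (∃ (l : List (G × Bool)) (g : G), z = wG A φ c y hd ht G l * ψ A φ g) →
      ∃ (l : List (G × Bool)) (g : G),
        xF A φ c y hd ht e * z = wG A φ c y hd ht G l * ψ A φ g := by
    rintro e z ⟨l, g, rfl⟩
    refine ⟨(1, e) :: l, g, ?_⟩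
    rw [wG_cons]
    simp [mul_assoc]
  induction hw using Subgroup.closure_induction_left with
  | one => exact ⟨[], 1, by simp [wG_nil]⟩
  | mul_left x hx z hz ih =>
    rcases hx with ⟨g0, hg0, rfl⟩ | hx
    · exact key ⟨g0, hg0⟩ z ih
    · rw [Set.mem_singleton_iff] at hx
      subst hx
      exact key2 true z ih
  | inv_mul_cancel x hx z hz ih =>
    rcases hx with ⟨g0, hg0, rfl⟩ | hx
    · have := key ⟨g0⁻¹, G.inv_mem hg0⟩ z ih
      simpa using this
    · rw [Set.mem_singleton_iff] at hx
      subst hx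
      rw [xF_inv]
      exact key2 _ z ih

/-- the relation of being adjacent without cancellation -/
def NC (a b : G × Bool) : Prop :=
  b.2 = !a.2 → (b.1 : GL (Fin n) K) ∉ Subgroup.center (GL (Fin n) K)

lemma ψ_central {g : GL (Fin n) K} (hg : g ∈ Subgroup.center (GL (Fin n) K)) :
    ψ A φ g ∈ Subgroup.center (GL (Fin n) F) := by
  rw [Matrix.GeneralLinearGroup.center_eq_range_scalar] at hg ⊢
  obtain ⟨z, rfl⟩ := hg
  refine ⟨Units.map (A.subtype.comp φ) z, ?_⟩
  ext i j
  simp only [ψ, Matrix.GeneralLinearGroup.coe_scalar, Matrix.GeneralLinearGroup.map_apply,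
    Units.coe_map, Matrix.scalar_apply, Matrix.diagonal_apply]
  split_ifs <;> simp

theorem good_closure (hn : 6 ≤ n) (hc : ∀ e, Function.Injective (c e)) (τ : A)
    (hτ : (τ : F) = t⁻¹) (hτ' : residue A τ = 0)
    (hJ : ∀ e e' : Bool, ∀ g ∈ G, (e' = !e → g ∉ Subgroup.center (GL (Fin n) K)) → J c y e g e')
    (hG : ∀ g ∈ G, g ∉ Subgroup.center (GL (Fin n) K) → Good (ψ A φ g).val)
    {w : GL (Fin n) F}
    (hw : w ∈ Subgroup.closure ((G.map (ψ A φ) : Set (GL (Fin n) F)) ∪ {xF A φ c y hd ht true}))
    (hw1 : w ∉ Subgroup.center (GL (Fin n) F)) : Good w.val := by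
  classical
  by_cases h0 : ∃ (g : G) (h : GL (Fin n) F), w = h * ψ A φ g * h⁻¹
  · obtain ⟨g, h, rfl⟩ := h0
    refine (hG g g.2 ?_).conj h
    intro hg
    apply hw1
    have h1 := ψ_central A φ hg
    have h2 : h * ψ A φ g * h⁻¹ = ψ A φ g := by
      rw [(Subgroup.mem_center_iff.mp h1 h), mul_inv_cancel_right]
    rw [h2]
    exact h1
  -- minimal representation
  have hex : ∃ (k : ℕ) (l : List (G × Bool)) (h : GL (Fin n) F), l.length = k ∧ l ≠ [] ∧
      w = h * wG A φ c y hd ht G l * h⁻¹ := by
    obtain ⟨l, g, rfl⟩ := exists_word A φ c y hd ht G hw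
    cases l with
    | nil =>
      exfalso
      apply h0
      exact ⟨g, 1, by simp [wG_nil]⟩
    | cons a l =>
      refine ⟨_, (g * a.1, a.2) :: l, (ψ A φ g)⁻¹, rfl, List.cons_ne_nil _ _, ?_⟩
      rw [wG_head]
      group
  obtain ⟨l, h, hlk, hl, hwl⟩ := Nat.find_spec hex
  have hmin : ∀ (l' : List (G × Bool)) (h' : GL (Fin n) F), l' ≠ [] →
      w = h' * wG A φ c y hd ht G l' * h'⁻¹ → l.length ≤ l'.length := by
    intro l' h' hl' he
    rw [hlk]
    exact Nat.find_min' hex ⟨l', h', rfl, hl', he⟩
  -- no cancellation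
  have hNC : ∀ (l' : List (G × Bool)) (h' : GL (Fin n) F), l'.length = l.length →
      w = h' * wG A φ c y hd ht G l' * h'⁻¹ → l'.IsChain (NC G) := by
    intro l' h' hlen he
    by_contra hcon
    obtain ⟨l₁, a, b, l₂, hl', hR⟩ := exists_of_not_isChain l' hcon
    unfold NC at hR
    push Not at hR
    obtain ⟨hb2, hb1⟩ := hR
    have hcen := Subgroup.mem_center_iff.mp (ψ_central A φ hb1)
    have hprod : wG A φ c y hd ht G l' =
        wG A φ c y hd ht G l₁ * ψ A φ ((a.1 * b.1 : G) : GL (Fin n) K) *
          wG A φ c y hd ht G l₂ := by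
      rw [hl', wG_append, wG_cons, wG_cons, hb2, ← xF_inv, Subgroup.coe_mul, map_mul]
      have h1 := hcen (xF A φ c y hd ht a.2)
      calc _ = wG A φ c y hd ht G l₁ * (ψ A φ a.1 * ((xF A φ c y hd ht a.2 * ψ A φ b.1) *
            (xF A φ c y hd ht a.2)⁻¹ * wG A φ c y hd ht G l₂)) := by group
        _ = wG A φ c y hd ht G l₁ * (ψ A φ a.1 * ((ψ A φ b.1 * xF A φ c y hd ht a.2) *
            (xF A φ c y hd ht a.2)⁻¹ * wG A φ c y hd ht G l₂)) := by rw [h1]
        _ = _ := by group
    cases l₂ with
    | cons d l₂ =>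
      have := hmin (l₁ ++ (a.1 * b.1 * d.1, d.2) :: l₂) h' (by simp) (by
        rw [he, hprod, wG_append, wG_head]
        group)
      rw [← hlen, hl'] at this
      simp only [List.length_append, List.length_cons] at this
      omega
    | nil =>
      rw [wG_nil, mul_one] at hprod
      cases l₁ with
      | nil =>
        apply h0
        refine ⟨a.1 * b.1, h', ?_⟩
        rw [he, hprod, wG_nil, one_mul]
      | cons d l₁ =>
        have := hmin ((a.1 * b.1 * d.1, d.2) :: l₁)
          (h' * (ψ A φ ((a.1 * b.1 : G) : GL (Fin n) K))⁻¹) (by simp) (by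
          rw [he, hprod, wG_head]
          group)
        rw [← hlen, hl'] at this
        simp only [List.length_append, List.length_cons, List.length_nil] at this
        omega
  have hchain := hNC l h rfl hwl
  have hcyc : NC G (l.getLast hl) (l.head hl) := by
    cases l with
    | nil => exact absurd rfl hl
    | cons a l =>
      cases l with
      | nil =>
        intro h1
        simp at h1
      | cons b l =>
        have h1 : ((b :: l) ++ [a]).IsChain (NC G) := by
          refine hNC _ (h * (ψ A φ a.1 * xF A φ c y hd ht a.2)) (by simp) ?_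
          rw [hwl, wG_append, wG_cons (a := a), wG_cons (a := a), wG_nil]
          group
        rw [List.isChain_append] at h1
        have h2 := h1.2.2 ((b :: l).getLast (List.cons_ne_nil _ _))
          (by rw [List.getLast?_eq_getLast_of_ne_nil (List.cons_ne_nil _ _)]; rfl) a (by simp)
        rw [List.getLast_cons (List.cons_ne_nil b l)]
        exact h2
  have hgood : Good (wG A φ c y hd ht G l).val := by
    have hne : emb G l ≠ [] := by simpa [emb] using hl
    refine good_word A φ c y τ hn hc hd ht hτ hτ' (emb G l) hne ?_ ?_ ?_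
    · unfold emb
      rw [List.isChain_map]
      refine hchain.imp fun a b hab => ?_
      exact hJ _ _ _ b.1.2 fun h1 => hab h1
    · unfold emb
      rw [List.isChain_map]
      refine hchain.imp fun a b hab => ?_
      refine hJ _ _ _ (G.inv_mem b.1.2) fun h1 h2 => hab ?_ (inv_mem_iff.mp h2)
      have : a.2 = !b.2 := by
        revert h1
        cases a.2 <;> cases b.2 <;> simp
      rw [this, Bool.not_not]
    · have hlast : (emb G l).getLast hne = (((l.getLast hl).1 : GL (Fin n) K), (l.getLast hl).2) := by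
        simp [emb, List.getLast_map]
      have hhead : (emb G l).head hne = (((l.head hl).1 : GL (Fin n) K), (l.head hl).2) := by
        simp [emb, List.head_map]
      rw [hlast, hhead]
      exact hJ _ _ _ (l.head hl).1.2 fun h1 => hcyc h1
  rw [hwl]
  exact hgood.conj h

end word

end Pool.Agent.H3.Wild
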